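import Pool.Agent.H17.Inh.Gen

/-!
# Graphs with exactly one nonempty even set
-/

namespace Pool.Agent.H17.Inh

open SimpleGraph Finset

/-- the space of dimension four -/
abbrev W4 : Type := (ZMod 2 × ZMod 2) × (ZMod 2 × ZMod 2)

/-- the quadratic form -/
def Q4 (u : W4) : ZMod 2 :=
  (u.1.1 * u.1.1 + u.1.1 * u.1.2 + u.1.2 * u.1.2) + (u.2.1 * u.2.1 + u.2.1 * u.2.2 + u.2.2 * u.2.2)

/-- the bilinear form -/
def B4 : W4 →ₗ[ZMod 2] W4 →ₗ[ZMod 2] ZMod 2 :=
  LinearMap.mk₂ (ZMod 2) (fun u v =>
    (u.1.1 * v.1.2 + u.1.2 * v.1.1) + (u.2.1 * v.2.2 + u.2.2 * v.2.1))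
    (fun x x' y => by
      simp only [Prod.fst_add, Prod.snd_add]
      ring)
    (fun c x y => by
      simp only [Prod.smul_fst, Prod.smul_snd, smul_eq_mul]
      ring)
    (fun x y y' => by
      simp only [Prod.fst_add, Prod.snd_add]
      ring)
    (fun c x y => by
      simp only [Prod.smul_fst, Prod.smul_snd, smul_eq_mul]
      ring)

theorem B4_apply (u v : W4) : B4 u v =
    (u.1.1 * v.1.2 + u.1.2 * v.1.1) + (u.2.1 * v.2.2 + u.2.2 * v.2.1) := rfl

theorem Q4_add (u v : W4) : Q4 (u + v) = Q4 u + Q4 v + B4 u v := by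
  rw [B4_apply]
  simp only [Q4, Prod.fst_add, Prod.snd_add]
  have h1 := zmod2_add_self (u.1.1 * v.1.1)
  have h2 := zmod2_add_self (u.1.2 * v.1.2)
  have h3 := zmod2_add_self (u.2.1 * v.2.1)
  have h4 := zmod2_add_self (u.2.2 * v.2.2)
  linear_combination h1 + h2 + h3 + h4

theorem B4_inj : Function.Injective B4 := by
  rw [injective_iff_map_eq_zero]
  intro x hx
  have h1 : ∀ v, B4 x v = 0 := fun v => by rw [hx]; rfl
  refine Prod.ext (Prod.ext ?_ ?_) (Prod.ext ?_ ?_)
  · have h2 := h1 ((0, 1), (0, 0))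
    rw [B4_apply] at h2
    simpa using h2
  · have h2 := h1 ((1, 0), (0, 0))
    rw [B4_apply] at h2
    simpa using h2
  · have h2 := h1 ((0, 0), (0, 1))
    rw [B4_apply] at h2
    simpa using h2
  · have h2 := h1 ((0, 0), (1, 0))
    rw [B4_apply] at h2
    simpa using h2

theorem chi_sum4 : ∑ u : W4, chi (Q4 u) = 4 := by decide

theorem card_W4 : Fintype.card W4 = 16 := by decide

section

variable {n : ℕ} {H : SimpleGraph (Fin n)} {s : Fin n}

/-- the vertices different from `s` -/
abbrev Oth (s : Fin n) : Type := {w : Fin n // w ≠ s}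

/-- the graph without the vertex `s` -/
def del (H : SimpleGraph (Fin n)) (s : Fin n) : SimpleGraph (Oth s) := H.comap Subtype.val

/-- the indicator function -/
noncomputable def ind (s : Fin n) (T : Finset (Fin n)) (v : Oth s) : ZMod 2 := by
  classical
  exact if v.1 ∈ T then 1 else 0

theorem sum_oth {M : Type} [AddCommMonoid M] (T : Finset (Fin n)) (hs : s ∉ T) (f : Fin n → M)
    [DecidablePred fun v => v ∈ T] :
    ∑ v : Oth s, (if v.1 ∈ T then f v.1 else 0) = ∑ v ∈ T, f v := by
  classical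
  have h1 : ∑ v ∈ Finset.univ.filter (fun w : Fin n => w ≠ s), (if v ∈ T then f v else 0) =
      ∑ v : Oth s, (if v.1 ∈ T then f v.1 else 0) := Finset.sum_subtype _ (by simp) _
  rw [← h1, ← Finset.sum_filter, Finset.filter_filter]
  refine Finset.sum_congr ?_ fun _ _ => rfl
  ext v
  simp only [Finset.mem_filter, Finset.mem_univ, true_and]
  constructor
  · exact fun h => h.2
  · intro h
    refine ⟨?_, h⟩
    rintro rfl
    exact hs h

theorem combG_ind {V : Type} [AddCommGroup V] [Module (ZMod 2) V] (h : Fin n → V)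
    (T : Finset (Fin n)) (hs : s ∉ T) :
    combG (fun v : Oth s => h v.1) (ind s T) = ∑ v ∈ T, h v := by
  classical
  rw [← sum_oth T hs h, combG]
  refine Finset.sum_congr rfl fun v _ => ?_
  rw [ind]
  by_cases h1 : v.1 ∈ T
  · rw [if_pos h1, if_pos h1, one_smul]
  · rw [if_neg h1, if_neg h1, zero_smul]

theorem QG_ind (T : Finset (Fin n)) (hs : s ∉ T) :
    QG (del H s) (ind s T) = ((T.card + ed H T : ℕ) : ZMod 2) := by
  classical
  have h1 := Q_combG (ι := Oth s) (H := del H s) (B := hypB n) (Q := hypQ n)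
    (h := fun v : Oth s => std H 1 v.1) (hypQ_add n) (fun w => std_quad H 1 w.1)
    (fun w w' hne => std_gram H 1 w.1 w'.1 fun h2 => hne (Subtype.ext h2)) (ind s T)
  have h2 := combG_ind (std H 1) T hs
  rw [h2, quad_sum (fun w w' hne => std_gram H 1 w w' hne) (fun w => std_quad H 1 w)] at h1
  rw [← h1]
  push_cast
  ring

theorem BG_ind (T : Finset (Fin n)) (hs : s ∉ T) (w : Oth s) [DecidableRel (del H s).Adj] :
    ∑ v : Oth s, (if (del H s).Adj v w then ind s T v else 0) = ((nb H T w.1 : ℕ) : ZMod 2) := by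
  classical
  rw [nb_eq, ← sum_oth T hs]
  refine Finset.sum_congr rfl fun v _ => ?_
  rw [ind]
  by_cases h1 : H.Adj v.1 w.1
  · have h2 : (del H s).Adj v w := h1
    rw [if_pos h2, if_pos h1]
  · have h2 : ¬ (del H s).Adj v w := h1
    rw [if_neg h2, if_neg h1, ite_self]

/-- the dual sets in the graph without `s` -/
theorem exists_dualOth (hns : ∀ K : Finset (Fin n), s ∉ K →
    (∀ w, w ≠ s → Even (nb H K w)) → K = ∅) (v : Oth s) :
    ∃ D : Finset (Fin n), s ∉ D ∧ ∀ w : Oth s, ((nb H D w.1 : ℕ) : ZMod 2) =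
      if w = v then 1 else 0 := by
  classical
  obtain ⟨u, hu⟩ := exists_dual (dotB (Fin n)) dotB_inj
    (h := fun w v' => if w ≠ s ∧ v' ≠ s ∧ H.Adj v' w then (1 : ZMod 2) else 0) (t := v.1) (by
      intro K hvK hsum
      have h1 : K.erase s = ∅ := by
        refine hns _ (Finset.notMem_erase _ _) fun w hw => ?_
        rw [← even_iff_cast, nb_eq]
        have h2 := congrFun hsum w
        rw [Finset.sum_apply] at h2
        refine Eq.trans ?_ h2
        rw [← Finset.sum_erase K (a := s) (f := fun c => if c ≠ s ∧ w ≠ s ∧ H.Adj w c then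
          (1 : ZMod 2) else 0) (if_neg fun h3 => h3.1 rfl)]
        refine Finset.sum_congr rfl fun c hc => ?_
        have h3 := Finset.ne_of_mem_erase hc
        by_cases h4 : H.Adj c w
        · rw [if_pos h4, if_pos ⟨h3, hw, h4.symm⟩]
        · rw [if_neg h4, if_neg fun h5 => h4 h5.2.2.symm]
      have h2 : v.1 ∈ K.erase s := Finset.mem_erase.mpr ⟨v.2, hvK⟩
      rw [h1] at h2
      exact Finset.notMem_empty _ h2)
  refine ⟨(Finset.univ.filter fun v => u v = 1).erase s, Finset.notMem_erase _ _, fun w => ?_⟩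
  have h1 : (if w = v then (1 : ZMod 2) else 0) = if w.1 = v.1 then 1 else 0 := by
    by_cases h2 : w = v
    · rw [if_pos h2, if_pos (congrArg Subtype.val h2)]
    · rw [if_neg h2, if_neg fun h3 => h2 (Subtype.ext h3)]
  rw [h1, ← hu w.1, nb_eq, dotB_apply]
  rw [← Finset.sum_erase Finset.univ (a := s) (f := fun i => u i *
    if w.1 ≠ s ∧ i ≠ s ∧ H.Adj i w.1 then (1 : ZMod 2) else 0) (by
      rw [if_neg fun h3 => h3.2.1 rfl, mul_zero])]
  have h2 : (Finset.univ.filter fun v => u v = 1).erase s =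
      (Finset.univ.erase s).filter fun v => u v = 1 := by
    ext x
    simp only [Finset.mem_erase, Finset.mem_filter, Finset.mem_univ, true_and, and_true]
  rw [h2, Finset.sum_filter]
  refine Finset.sum_congr rfl fun i hi => ?_
  have hi' : i ≠ s := Finset.ne_of_mem_erase hi
  rcases zmod2_cases (u i) with h3 | h3
  · rw [h3, if_neg (by decide), zero_mul]
  · rw [h3, if_pos rfl, one_mul]
    by_cases h4 : H.Adj i w.1
    · rw [if_pos h4, if_pos ⟨w.2, hi', h4⟩]
    · rw [if_neg h4, if_neg fun h5 => h4 h5.2.2]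

/-- The main case: exactly one nonempty even set `C`. -/
theorem corank_aux (H : SimpleGraph (Fin n)) (s t : Fin n) (C T : Finset (Fin n))
    (hC : ∀ w, Even (nb H C w)) (hsC : s ∈ C) (htC : t ∉ C) (hCq : Odd (C.card + ed H C))
    (hns : ∀ K : Finset (Fin n), s ∉ K → (∀ w, w ≠ s → Even (nb H K w)) → K = ∅)
    (hT : ∀ w, Odd (nb H T w) ↔ w = t) (hsT : s ∉ T) (hTq : Even (T.card + ed H T)) :
    ¬ Inherent H s t := by
  classical
  choose D hDs hD using exists_dualOth hns
  have hQ := GQ_add (ι := Oth s) (H := del H s) Q4_add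
  have hDG : ∀ w w' : Oth s, BG (del H s) (ind s (D w)) (sg w') = sg w w' := by
    intro w w'
    rw [BG_single, BG_ind _ (hDs w), hD w w']
    by_cases h1 : w' = w
    · rw [if_pos h1, h1, sg_self]
    · rw [if_neg h1, sg_ne h1]
  have hnd := GB_inj (ι := Oth s) (H := del H s) (BW := B4) (fun w => ind s (D w)) hDG B4_inj
  have hCs : s ∉ C.erase s := Finset.notMem_erase _ _
  have hnbC : ∀ w, ((nb H C w : ℕ) : ZMod 2) = 0 := fun w => (even_iff_cast _).mpr (hC w)
  -- the standard copy
  have hstdC : ∑ v ∈ C.erase s, std H 1 v + std H 1 s = ∑ v ∈ C, std H 1 v :=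
    Finset.sum_erase_add _ _ hsC
  have hqC' : QG (del H s) (ind s (C.erase s)) = 0 := by
    have hg : ∀ w w', w ≠ w' → (hypB n (std H 1 w) (std H 1 w') = 1 ↔ H.Adj w w') :=
      fun w w' hne => std_gram H 1 w w' hne
    have hq : ∀ w, hypQ n (std H 1 w) = 1 := fun w => std_quad H 1 w
    have h1 := quad_sum hg hq (C.erase s)
    have h2 := quad_sum hg hq C
    rw [← hstdC, hypQ_add, h1, hq] at h2
    have h3 : hypB n (∑ v ∈ C.erase s, std H 1 v) (std H 1 s) = 0 := by
      have h4 := gram_sum hg C s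
      rw [← hstdC, map_add, LinearMap.add_apply, hypB_self, add_zero, hnbC] at h4
      exact h4
    rw [h3] at h2
    rw [QG_ind _ hCs]
    have h5 : ((C.card + ed H C : ℕ) : ZMod 2) = 1 := (odd_iff_cast _).mpr hCq
    push_cast at h5 ⊢
    linear_combination h2 + h5
  have hBC' : ∀ w : Oth s, BG (del H s) (ind s (C.erase s)) (sg w) =
      if H.Adj s w.1 then 1 else 0 := by
    intro w
    rw [BG_single, BG_ind _ hCs]
    have h1 := hnbC w.1
    rw [nb_eq, ← Finset.sum_erase_add _ _ hsC] at h1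
    rw [nb_eq]
    have h2 := zmod2_add_self (if H.Adj s w.1 then (1 : ZMod 2) else 0)
    linear_combination h1 - h2
  have hB0 : ∀ y : Oth s → ZMod 2, BG (del H s) 0 y = 0 := by
    intro y
    rw [BG_symm, BG_right]
    simp
  have hQ40 : Q4 0 = 0 := by decide
  have hB4 : ∀ u, B4 u 0 = 0 := fun u => map_zero _
  refine geo_criterion H s t (V := (Oth s → ZMod 2) × W4) (fun x y => GB (del H s) B4 x y)
    (B_symm hQ) {v | GQ (del H s) Q4 v = 1}
    (fun w => if hw : w ≠ s then (sg (⟨w, hw⟩ : Oth s), 0)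
      else (ind s (C.erase s), ((1, 0), (0, 0)))) (fun w => ?_) (fun w w' hne => ?_) ?_
  · show GQ (del H s) Q4 (if hw : w ≠ s then (sg (⟨w, hw⟩ : Oth s), 0)
      else (ind s (C.erase s), ((1, 0), (0, 0)))) = 1
    by_cases hw : w ≠ s
    · rw [dif_pos hw, GQ, QG_single, hQ40, add_zero]
    · rw [dif_neg hw, GQ, hqC', zero_add]
      show Q4 ((1, 0), (0, 0)) = 1
      decide
  · by_cases hw : w ≠ s
    · by_cases hw' : w' ≠ s
      · rw [dif_pos hw, dif_pos hw', GB_apply, hB4, add_zero, BG_single,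
          Finset.sum_eq_single_of_mem (⟨w, hw⟩ : Oth s) (Finset.mem_univ _)]
        · by_cases h1 : H.Adj w w'
          · have h2 : (del H s).Adj ⟨w, hw⟩ ⟨w', hw'⟩ := h1
            rw [if_pos h2]
            exact ⟨fun _ => h1, fun _ => sg_self _⟩
          · have h2 : ¬ (del H s).Adj ⟨w, hw⟩ ⟨w', hw'⟩ := h1
            rw [if_neg h2]
            exact ⟨fun h3 => absurd h3 (by decide), fun h3 => absurd h3 h1⟩
        · intro v _ hv
          by_cases h3 : (del H s).Adj v ⟨w', hw'⟩
          · rw [if_pos h3]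
            exact sg_ne hv
          · rw [if_neg h3]
      · have hw's : w' = s := not_not.mp hw'
        rw [dif_pos hw, dif_neg hw', B_symm hQ, GB_apply, hBC', hB4, add_zero, hw's]
        by_cases h1 : H.Adj s w
        · rw [if_pos h1]
          exact ⟨fun _ => h1.symm, fun _ => rfl⟩
        · rw [if_neg h1]
          exact ⟨fun h3 => absurd h3 (by decide), fun h3 => absurd h3.symm h1⟩
    · have hws : w = s := not_not.mp hw
      have hw' : w' ≠ s := fun h1 => hne (hws.trans h1.symm)
      rw [dif_neg hw, dif_pos hw', GB_apply, hBC', hB4, add_zero, hws]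
      by_cases h1 : H.Adj s w'
      · rw [if_pos h1]
        exact ⟨fun _ => h1, fun _ => rfl⟩
      · rw [if_neg h1]
        exact ⟨fun h3 => absurd h3 (by decide), fun h3 => absurd h3 h1⟩
  intro h hX hh
  have hX' : ∀ w, GQ (del H s) Q4 (h w) = 1 := hX
  obtain ⟨e, he, hcard, hsum⟩ := perp_like (ι := Oth s) (H := del H s) Q4_add B4_inj
    (fun w => ind s (D w)) hDG (fun v => h v.1) (fun v => hX' v.1)
    (fun w w' hne => hh w.1 w'.1 fun h1 => hne (Subtype.ext h1))
  rw [chi_sum4] at hsum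
  rw [card_W4] at hcard
  have hsurj : ∀ v, ∃ x : Oth s → ZMod 2, ∃ u : PerpG (GB (del H s) B4) (fun v : Oth s => h v.1),
      combG (fun v : Oth s => h v.1) x + u.1 = v := by
    intro v
    obtain ⟨⟨x, u⟩, hxu⟩ := e.surjective v
    rw [he] at hxu
    exact ⟨x, u, hxu⟩
  clear he e
  set B := GB (del H s) B4 with hBdef
  set Q := GQ (del H s) Q4 with hQdef
  set P := PerpG B (fun v : Oth s => h v.1) with hP
  have hperp : ∀ (u : P) (w : Fin n), w ≠ s → B u.1 (h w) = 0 := fun u w hw => u.2 ⟨w, hw⟩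
  set r0 := ∑ v ∈ C, h v with hr0
  have hr0h : ∀ w, B r0 (h w) = 0 := fun w => by rw [hr0, gramQ hQ hh, hnbC]
  have hr0Q : Q r0 = 1 := by
    rw [hr0, ← comb_ind, Q_comb hQ hX' hh, QA_ind, odd_iff_cast]
    exact hCq
  have hr0perp : ∀ z, (∀ w, B z (h w) = 0) → B r0 z = 0 := by
    intro z hz
    rw [hr0, B_symm hQ, map_sum]
    exact Finset.sum_eq_zero fun w _ => hz w
  let r : P := ⟨r0, fun v => hr0h v.1⟩
  have hPs : ∀ u : P, B u.1 r0 = B u.1 (h s) := by
    intro u
    rw [hr0, map_sum, Finset.sum_eq_single_of_mem s hsC]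
    exact fun w _ hw => hperp u w hw
  have hBc : ∀ (x : Oth s → ZMod 2) (u : P), B (combG (fun v : Oth s => h v.1) x) u.1 = 0 := by
    intro x u
    rw [B_combG]
    exact Finset.sum_eq_zero fun w _ => by rw [B_symm hQ, u.2 w, mul_zero]
  -- translations of `P`
  have hadd : ∀ u c : P, ∀ w : Oth s, B (u.1 + c.1) (h w.1) = 0 := fun u c w => by
    rw [map_add, LinearMap.add_apply, u.2 w, c.2 w, add_zero]
  let tr : P → P ≃ P := fun c =>
    { toFun := fun u => ⟨u.1 + c.1, hadd u c⟩
      invFun := fun u => ⟨u.1 + c.1, hadd u c⟩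
      left_inv := fun u => Subtype.ext (by
        show u.1 + c.1 + c.1 = u.1
        rw [add_assoc, two_zero, add_zero])
      right_inv := fun u => Subtype.ext (by
        show u.1 + c.1 + c.1 = u.1
        rw [add_assoc, two_zero, add_zero]) }
  have htr : ∀ c u, (tr c u).1 = u.1 + c.1 := fun _ _ => rfl
  -- a vector which is not orthogonal to `r`
  obtain ⟨v0, hv0⟩ : ∃ v0, B v0 r0 = 1 := by
    by_contra hcon
    push Not at hcon
    have h1 : r0 = 0 := by
      refine hnd ?_
      rw [map_zero]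
      refine LinearMap.ext fun u => ?_
      rw [B_symm hQ, LinearMap.zero_apply]
      exact zmod2_ne_one (hcon u)
    rw [h1, Q_zero hQ] at hr0Q
    exact absurd hr0Q (by decide)
  obtain ⟨x0, u0, hu0⟩ := hsurj v0
  have hB1 : B u0.1 r0 = 1 := by
    rw [← hu0, map_add, LinearMap.add_apply] at hv0
    have h1 : B (combG (fun v : Oth s => h v.1) x0) r0 = 0 := hBc x0 r
    change B (combG (fun v : Oth s => h v.1) x0) r0 + B u0.1 r0 = 1 at hv0
    rw [h1, zero_add] at hv0
    exact hv0
  have hneg : ∀ x : ZMod 2, chi (x + 1) = -chi x := by decide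
  have hs1 : ∑ u : P, chi (B u.1 r0) = 0 := by
    have h1 : ∑ u : P, chi (B u.1 r0) = -∑ u : P, chi (B u.1 r0) := by
      conv_lhs => rw [← Equiv.sum_comp (tr u0)]
      rw [← Finset.sum_neg_distrib]
      refine Finset.sum_congr rfl fun u _ => ?_
      rw [htr, map_add, LinearMap.add_apply, hB1, hneg]
    linarith
  have hs2 : ∑ u : P, chi (Q u.1) * chi (B u.1 r0) = -4 := by
    rw [← hsum, ← Finset.sum_neg_distrib, ← Equiv.sum_comp (tr r)]
    refine Finset.sum_congr rfl fun u _ => ?_
    rw [htr, hQ, map_add, LinearMap.add_apply]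
    change chi (Q u.1 + Q r0 + B u.1 r0) * chi (B u.1 r0 + B r0 r0) = -chi (Q u.1)
    rw [B_self hQ, hr0Q, add_zero, ← chi_add, ← hneg]
    congr 1
    have h1 := zmod2_add_self (B u.1 r0)
    linear_combination h1
  have hs0 : ∑ u : P, chi (Q u.1) = 4 := hsum
  have hc0 : Fintype.card P = 16 := hcard
  have hcount : ∀ c : ZMod 2, ((Finset.univ.filter fun u : P =>
      B u.1 r0 = c ∧ Q u.1 = 1).card : ℤ) * 4 = 12 + 4 * (if c = 1 then -1 else 1) := by
    intro c
    rw [Finset.card_filter]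
    push_cast
    rw [Finset.sum_mul]
    have h1 : ∀ u : P, (if B u.1 r0 = c ∧ Q u.1 = 1 then (1 : ℤ) else 0) * 4 =
        1 + chi c * chi (B u.1 r0) - chi (Q u.1) -
          chi c * (chi (Q u.1) * chi (B u.1 r0)) := by
      intro u
      generalize B u.1 r0 = x
      generalize Q u.1 = y
      revert c x y
      decide
    rw [Finset.sum_congr rfl fun u _ => h1 u, Finset.sum_sub_distrib, Finset.sum_sub_distrib,
      Finset.sum_add_distrib, ← Finset.mul_sum, ← Finset.mul_sum, hs1, hs2, hs0,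
      Finset.sum_const, Finset.card_univ, hc0]
    rw [chi]
    by_cases h2 : c = 1
    · rw [if_pos h2]
      norm_num
    · rw [if_neg h2]
      norm_num
  have hN1 : (Finset.univ.filter fun u : P => B u.1 r0 = 1 ∧ Q u.1 = 1).card = 2 := by
    have h1 := hcount 1
    rw [if_pos rfl] at h1
    omega
  have hN0 : (Finset.univ.filter fun u : P => B u.1 r0 = 0 ∧ Q u.1 = 1).card = 4 := by
    have h1 := hcount 0
    rw [if_neg (by decide)] at h1
    omega
  obtain ⟨p, hp⟩ : ∃ p : P, B p.1 r0 = 1 ∧ Q p.1 = 1 := by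
    have h1 : 0 < (Finset.univ.filter fun u : P => B u.1 r0 = 1 ∧ Q u.1 = 1).card := by omega
    obtain ⟨p, hp⟩ := Finset.card_pos.mp h1
    exact ⟨p, (Finset.mem_filter.mp hp).2⟩
  obtain ⟨hp1, hp2⟩ := hp
  have hBrr : B r0 r0 = 0 := B_self hQ r0
  -- the only far neighbour of `p` is `r`
  have huniq : ∀ z : P, B z.1 r0 = 0 → Q z.1 = 1 → B p.1 z.1 = 1 → z.1 = r0 := by
    intro z hz1 hz2 hz3
    have hr0ne : r0 ≠ 0 := by
      intro h1
      rw [h1, Q_zero hQ] at hr0Q
      exact absurd hr0Q (by decide)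
    have hz0 : z.1 ≠ 0 := by
      intro h1
      rw [h1, Q_zero hQ] at hz2
      exact absurd hz2 (by decide)
    have hcan : ∀ a b c : (Oth s → ZMod 2) × W4, a + b = a + c → b = c := fun a b c => by
      exact add_left_cancel
    by_contra hne
    have h1 : ({p, tr r p, tr z p} : Finset P) ⊆
        Finset.univ.filter fun u : P => B u.1 r0 = 1 ∧ Q u.1 = 1 := by
      intro u hu
      rw [Finset.mem_insert, Finset.mem_insert, Finset.mem_singleton] at hu
      rw [Finset.mem_filter]
      refine ⟨Finset.mem_univ _, ?_⟩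
      rcases hu with rfl | rfl | rfl
      · exact ⟨hp1, hp2⟩
      · rw [htr]
        change B (p.1 + r0) r0 = 1 ∧ Q (p.1 + r0) = 1
        rw [map_add, LinearMap.add_apply, hp1, hBrr, hQ, hp2, hr0Q, hp1]
        decide
      · rw [htr, map_add, LinearMap.add_apply, hp1, hz1, hQ, hp2, hz2, hz3]
        decide
    have h2 : ({p, tr r p, tr z p} : Finset P).card = 3 := by
      rw [Finset.card_eq_three]
      refine ⟨p, tr r p, tr z p, ?_, ?_, ?_, rfl⟩
      · intro h3
        have h4 := congrArg Subtype.val h3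
        rw [htr] at h4
        change p.1 = p.1 + r0 at h4
        exact hr0ne (hcan p.1 _ _ (by rw [add_zero]; exact h4.symm))
      · intro h3
        have h4 := congrArg Subtype.val h3
        rw [htr] at h4
        exact hz0 (hcan p.1 _ _ (by rw [add_zero]; exact h4.symm))
      · intro h3
        have h4 := congrArg Subtype.val h3
        rw [htr, htr] at h4
        change p.1 + r0 = p.1 + z.1 at h4
        exact hne (hcan p.1 _ _ h4).symm
    have h3 := Finset.card_le_card h1
    omega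
  obtain ⟨z0, hz0, hz0r⟩ : ∃ z0 : P, (B z0.1 r0 = 0 ∧ Q z0.1 = 1) ∧ z0 ≠ r := by
    obtain ⟨z0, h1, h2⟩ := Finset.exists_mem_ne (s := Finset.univ.filter fun u : P =>
      B u.1 r0 = 0 ∧ Q u.1 = 1) (by omega) r
    exact ⟨z0, (Finset.mem_filter.mp h1).2, h2⟩
  have hpz0 : B p.1 z0.1 = 0 := zmod2_ne_one fun h1 =>
    hz0r (Subtype.ext (huniq z0 hz0.1 hz0.2 h1))
  have hTP : ∀ u : P, B (∑ v ∈ T, h v) u.1 = 0 := by
    intro u
    rw [B_symm hQ, map_sum]
    refine Finset.sum_eq_zero fun w hw => hperp u w ?_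
    rintro rfl
    exact hsT hw
  have hst : s ≠ t := by
    rintro rfl
    exact htC hsC
  have hQT : Q (∑ v ∈ T, h v) = 0 := by
    rw [← comb_ind, Q_comb hQ hX' hh, QA_ind]
    exact (even_iff_cast _).mpr hTq
  refine ⟨p.1, hp2, (∑ v ∈ T, h v) + z0.1, ?_, fun w => ?_, fun w => ?_, ?_, {r0}, ?_, ?_, ?_⟩
  · show Q _ = 1
    rw [hQ, hQT, hz0.2, hTP]
    decide
  · by_cases hw : w = s
    · rw [hw, ← hPs]
      exact ⟨fun _ => rfl, fun _ => hp1⟩
    · rw [hperp p w hw]
      exact ⟨fun h3 => absurd h3 (by decide), fun h3 => absurd h3 hw⟩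
  · rw [map_add, LinearMap.add_apply, gramQ hQ hh]
    by_cases hw : w = s
    · rw [hw, ← hPs, hz0.1, add_zero, odd_iff_cast]
      exact hT s
    · rw [hperp z0 w hw, add_zero, odd_iff_cast]
      exact hT w
  · rw [map_add, hpz0, B_symm hQ, hTP]
    decide
  · intro z hz hzh hz1
    have h1 : ∀ w, B z (h w) = 0 := fun w => zmod2_ne_one (hzh w)
    have h2 := huniq ⟨z, fun v => h1 v.1⟩ (by
      rw [B_symm hQ]
      exact hr0perp z h1) hz hz1
    exact h2
  · intro z hz z' _ hzh hz1
    rw [Set.mem_singleton_iff] at hz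
    rw [hz, hr0perp z' fun w => zmod2_ne_one (hzh w)] at hz1
    exact absurd hz1 (by decide)
  · intro z hz
    rw [Set.mem_singleton_iff] at hz
    rw [hz, map_add, LinearMap.add_apply, hz0.1, hTP r]
    decide

/-- Criterion for graphs with exactly one nonempty even set. -/
theorem corank_criterion (H : SimpleGraph (Fin n)) (s t : Fin n) (C : Finset (Fin n))
    (hC : ∀ w, Even (nb H C w))
    (hker : ∀ K : Finset (Fin n), (∀ w, Even (nb H K w)) → K = ∅ ∨ K = C)
    (hsC : s ∈ C) (htC : t ∉ C) (hCq : Odd (C.card + ed H C)) : ¬ Inherent H s t := by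
  classical
  have hns : ∀ K : Finset (Fin n), s ∉ K → (∀ w, w ≠ s → Even (nb H K w)) → K = ∅ := by
    intro K hsK hK
    by_cases h1 : Even (nb H K s)
    · rcases hker K (fun w => by
        by_cases hw : w = s
        · rw [hw]
          exact h1
        · exact hK w hw) with h2 | h2
      · exact h2
      · rw [h2] at hsK
        exact absurd hsC hsK
    · exfalso
      have h2 : ∑ v ∈ C, ((nb H K v : ℕ) : ZMod 2) = ∑ v ∈ K, ((nb H C v : ℕ) : ZMod 2) := by
        simp only [nb_eq]
        rw [Finset.sum_comm]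
        refine Finset.sum_congr rfl fun v _ => Finset.sum_congr rfl fun w _ => ?_
        by_cases h5 : H.Adj v w
        · rw [if_pos h5, if_pos h5.symm]
        · rw [if_neg h5, if_neg fun h6 => h5 h6.symm]
      rw [Finset.sum_eq_zero (s := K) fun v _ => (even_iff_cast _).mpr (hC v),
        Finset.sum_eq_single_of_mem s hsC] at h2
      · exact h1 ((even_iff_cast _).mp h2)
      · intro v _ hv
        exact (even_iff_cast _).mpr (hK v hv)
  have hev : ∀ x : Fin n, x ∉ C → ∀ K : Finset (Fin n), (∀ w, Even (nb H K w)) → x ∉ K := by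
    intro x hx K hK
    rcases hker K hK with rfl | rfl
    · exact Finset.notMem_empty x
    · exact hx
  obtain ⟨T0, hT0⟩ := exists_dualSet H t (hev t htC)
  obtain ⟨T, hT, hsT⟩ : ∃ T : Finset (Fin n), (∀ w, Odd (nb H T w) ↔ w = t) ∧ s ∉ T := by
    by_cases h1 : s ∈ T0
    · refine ⟨symmDiff T0 C, fun w => ?_, ?_⟩
      · have h2 : ((nb H (symmDiff T0 C) w : ℕ) : ZMod 2) = ((nb H T0 w : ℕ) : ZMod 2) := by
          have h3 : ∀ A : Finset (Fin n), ((nb H A w : ℕ) : ZMod 2) =
              ∑ v, if v ∈ A ∧ H.Adj v w then 1 else 0 := by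
            intro A
            rw [nb_eq, ← Finset.sum_filter, ← Finset.sum_filter]
            refine Finset.sum_congr ?_ fun _ _ => rfl
            ext v
            simp
          have h4 := (even_iff_cast _).mpr (hC w)
          rw [h3] at h4
          have h5 : ∑ v, (if v ∈ symmDiff T0 C ∧ H.Adj v w then (1 : ZMod 2) else 0) =
              ∑ v, (if v ∈ T0 ∧ H.Adj v w then (1 : ZMod 2) else 0) +
                ∑ v, (if v ∈ C ∧ H.Adj v w then (1 : ZMod 2) else 0) := by
            rw [← Finset.sum_add_distrib]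
            refine Finset.sum_congr rfl fun v _ => ?_
            have h8 : (1 : ZMod 2) + 1 = 0 := by decide
            by_cases h5 : v ∈ T0 <;> by_cases h6 : v ∈ C <;> by_cases h7 : H.Adj v w <;>
              simp [Finset.mem_symmDiff, h5, h6, h7, h8]
          rw [h3, h3, h5, h4, add_zero]
        rw [← odd_iff_cast, h2, odd_iff_cast]
        exact hT0 w
      · rw [Finset.mem_symmDiff]
        rintro (h2 | h2)
        · exact h2.2 hsC
        · exact h2.2 h1
    · exact ⟨T0, hT0, h1⟩
  rcases Nat.even_or_odd (T.card + ed H T) with h1 | h1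
  · exact corank_aux H s t C T hC hsC htC hCq hns hT hsT h1
  · intro hin
    refine quad_criterion H t s T 1 hT hsT (by
      rw [one_mul]
      rw [Nat.odd_iff] at h1
      omega) (fun K hK hKe => ?_) (inherent_swap hin)
    rcases hker K hK with rfl | rfl
    · exact Finset.notMem_empty s
    · rw [one_mul] at hKe
      exact absurd hKe (Nat.not_even_iff_odd.mpr hCq)

end

end Pool.Agent.H17.Inh
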