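import Mathlib

/-!
# Inherent two-rooted graphs (MP_031144_lc): definitions and the basic lemma

A copy of `(H, s, t)` in `G` is an embedding `f : H ↪g G` (an isomorphism onto an induced
subgraph), with roots `f s`, `f t`.
-/

namespace Pool.Agent.H17.Inh

variable {W V : Type*}

/-- `(H', s', t')` is an extension of the copy `f` of `(H, s, t)` -/
def IsExt (G : SimpleGraph V) (f : W → V) (s t : W) (s' t' : V) : Prop :=
  s' ≠ t' ∧ (∀ w, f w ≠ s') ∧ (∀ w, f w ≠ t') ∧ (∀ w, G.Adj s' (f w) ↔ w = s) ∧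
    (∀ w, G.Adj t' (f w) ↔ w = t) ∧ ¬ G.Adj s' t'

/-- the walk `p` is an induced path -/
def IndPath (G : SimpleGraph V) {u v : V} (p : G.Walk u v) : Prop :=
  p.IsPath ∧ ∀ i j, i < j → j ≤ p.length → G.Adj (p.getVert i) (p.getVert j) → j = i + 1

/-- there is an induced path from `s'` to `t'` whose interior avoids the closed neighbourhood of
the copy -/
def Closable (G : SimpleGraph V) (f : W → V) (s' t' : V) : Prop :=
  ∃ p : G.Walk s' t', IndPath G p ∧
    ∀ v ∈ p.support, v ≠ s' → v ≠ t' → ∀ w, f w ≠ v ∧ ¬ G.Adj (f w) v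

/-- every extension of the copy `f` is closable -/
def Avoidable (G : SimpleGraph V) (f : W → V) (s t : W) : Prop :=
  ∀ s' t', IsExt G f s t s' t' → Closable G f s' t'

/-- every finite graph with an induced copy of `H` has an avoidable copy of `(H, s, t)` -/
def Inherent (H : SimpleGraph W) (s t : W) : Prop :=
  ∀ (V : Type) [Finite V] (G : SimpleGraph V), Nonempty (H ↪g G) →
    ∃ f : H ↪g G, Avoidable G f s t

/-- a walk which starts in a set closed off by the neighbourhood of the copy cannot reach `t'` -/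
theorem no_walk (G : SimpleGraph V) (f : W → V) (C : Set V) (t' : V)
    (hC1 : ∀ a ∈ C, ¬ G.Adj a t')
    (hC2 : ∀ a ∈ C, ∀ b, G.Adj a b → b ∈ C ∨ ∃ w, f w = b ∨ G.Adj (f w) b) :
    ∀ {a : V} (q : G.Walk a t'), a ∈ C → a ≠ t' →
      (∀ v ∈ q.support.tail, v ≠ t' → ∀ w, f w ≠ v ∧ ¬ G.Adj (f w) v) → False := by
  intro a q
  induction q with
  | nil => intro _ h _; exact h rfl
  | @cons a b c h q ih =>
    intro haC hac hin
    by_cases hb : b = c
    · subst hb
      exact hC1 a haC h
    · have hbs : b ∈ (SimpleGraph.Walk.cons h q).support.tail := by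
        rw [SimpleGraph.Walk.support_cons, List.tail_cons]
        exact q.start_mem_support
      have hbC : b ∈ C := by
        rcases hC2 a haC b h with h1 | ⟨w, h1⟩
        · exact h1
        · have h2 := hin b hbs hb w
          rcases h1 with h1 | h1
          · exact absurd h1 h2.1
          · exact absurd h1 h2.2
      refine ih hC1 hbC hb fun v hv => hin v ?_
      rw [SimpleGraph.Walk.support_cons, List.tail_cons]
      exact List.mem_of_mem_tail hv

/-- the basic criterion -/
theorem not_inherent_of {H : SimpleGraph W} {s t : W} {V : Type} [Finite V] (G : SimpleGraph V)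
    (hH : Nonempty (H ↪g G))
    (h : ∀ f : H ↪g G, ∃ s' t', IsExt G f s t s' t' ∧ ∃ C : Set V, s' ∈ C ∧
      (∀ a ∈ C, ¬ G.Adj a t') ∧
      ∀ a ∈ C, ∀ b, G.Adj a b → b ∈ C ∨ ∃ w, f w = b ∨ G.Adj (f w) b) :
    ¬ Inherent H s t := by
  intro hin
  obtain ⟨f, hf⟩ := hin V G hH
  obtain ⟨s', t', hext, C, hs, hC1, hC2⟩ := h f
  obtain ⟨p, ⟨hp, -⟩, hin⟩ := hf s' t' hext
  refine no_walk G f C t' hC1 hC2 p hs hext.1 fun v hv hvt => hin v (List.mem_of_mem_tail hv) ?_ hvt
  rintro rfl
  have h1 := hp.support_nodup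
  rw [← SimpleGraph.Walk.cons_tail_support] at h1
  exact (List.nodup_cons.mp h1).1 hv

theorem isExt_swap {G : SimpleGraph V} {f : W → V} {s t : W} {s' t' : V}
    (h : IsExt G f s t s' t') : IsExt G f t s t' s' :=
  ⟨h.1.symm, h.2.2.1, h.2.1, h.2.2.2.2.1, h.2.2.2.1, fun h' => h.2.2.2.2.2 h'.symm⟩

theorem closable_swap {G : SimpleGraph V} {f : W → V} {s' t' : V}
    (h : Closable G f s' t') : Closable G f t' s' := by
  obtain ⟨p, ⟨hp, hind⟩, hin⟩ := h
  refine ⟨p.reverse, ⟨hp.reverse, fun i j hij hj hadj => ?_⟩, fun v hv h1 h2 => ?_⟩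
  · rw [SimpleGraph.Walk.length_reverse] at hj
    rw [SimpleGraph.Walk.getVert_reverse, SimpleGraph.Walk.getVert_reverse] at hadj
    have h1 := hind (p.length - j) (p.length - i) (by omega) (by omega) hadj.symm
    omega
  · rw [SimpleGraph.Walk.support_reverse, List.mem_reverse] at hv
    exact hin v hv h2 h1

/-- the roots can be exchanged -/
theorem inherent_swap {H : SimpleGraph W} {s t : W} (h : Inherent H s t) : Inherent H t s := by
  intro V _ G hH
  obtain ⟨f, hf⟩ := h V G hH
  exact ⟨f, fun s' t' hext => closable_swap (hf t' s' (isExt_swap hext))⟩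

/-- Inherence is preserved when further components are added. -/
theorem inherent_sum {H : SimpleGraph W} {s t : W} (h : Inherent H s t) {W₂ : Type*}
    (H₂ : SimpleGraph W₂) : Inherent (H ⊕g H₂) (Sum.inl s) (Sum.inl t) := by
  intro V _ G hH
  obtain ⟨F⟩ := hH
  set S : Set V := {v | ∀ w₂, F (Sum.inr w₂) ≠ v ∧ ¬ G.Adj (F (Sum.inr w₂)) v} with hS
  have hFS : ∀ w, F (Sum.inl w) ∈ S := by
    intro w w₂
    refine ⟨fun h' => ?_, fun h' => ?_⟩
    · exact absurd (F.injective h') (by simp)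
    · rw [F.map_adj_iff] at h'
      simp at h'
  have hne : Nonempty (H ↪g G.induce S) := by
    refine ⟨⟨⟨fun w => ⟨F (Sum.inl w), hFS w⟩, fun a b hab => ?_⟩, ?_⟩⟩
    · exact Sum.inl_injective (F.injective (congrArg Subtype.val hab))
    · intro a b
      show G.Adj (F (Sum.inl a)) (F (Sum.inl b)) ↔ H.Adj a b
      rw [F.map_adj_iff]
      rfl
  obtain ⟨f, hf⟩ := h S (G.induce S) hne
  have hcross : ∀ a b, ¬ G.Adj (f a : V) (F (Sum.inr b)) := fun a b h' =>
    ((f a).2 b).2 h'.symm
  have hcross' : ∀ a b, ¬ G.Adj (F (Sum.inr b)) (f a : V) := fun a b h' => ((f a).2 b).2 h'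
  let g : (H ⊕g H₂) ↪g G :=
    { toFun := Sum.elim (fun w => (f w : V)) (fun w₂ => F (Sum.inr w₂))
      inj' := by
        rintro (a | a) (b | b) hab
        · exact congrArg Sum.inl (f.injective (Subtype.ext hab))
        · exact absurd (Eq.symm hab) ((f a).2 b).1
        · exact absurd hab ((f b).2 a).1
        · exact congrArg Sum.inr (Sum.inr_injective (F.injective hab))
      map_rel_iff' := by
        rintro (a | a) (b | b)
        · show G.Adj (f a : V) (f b : V) ↔ H.Adj a b
          exact f.map_adj_iff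
        · show G.Adj (f a : V) (F (Sum.inr b)) ↔ _
          exact ⟨fun h' => absurd h' (hcross a b), fun h' => by simp at h'⟩
        · show G.Adj (F (Sum.inr a)) (f b : V) ↔ _
          exact ⟨fun h' => absurd h' (hcross' b a), fun h' => by simp at h'⟩
        · show G.Adj (F (Sum.inr a)) (F (Sum.inr b)) ↔ H₂.Adj a b
          rw [F.map_adj_iff]
          rfl }
  have hgl : ∀ w, g (Sum.inl w) = (f w : V) := fun _ => rfl
  have hgr : ∀ w₂, g (Sum.inr w₂) = F (Sum.inr w₂) := fun _ => rfl
  refine ⟨g, fun s' t' hext => ?_⟩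
  obtain ⟨h1, h2, h3, h4, h5, h6⟩ := hext
  have hs'S : s' ∈ S := fun w₂ => ⟨h2 (Sum.inr w₂), fun h' =>
    absurd ((h4 (Sum.inr w₂)).mp h'.symm) (by simp)⟩
  have ht'S : t' ∈ S := fun w₂ => ⟨h3 (Sum.inr w₂), fun h' =>
    absurd ((h5 (Sum.inr w₂)).mp h'.symm) (by simp)⟩
  have hext' : IsExt (G.induce S) f s t ⟨s', hs'S⟩ ⟨t', ht'S⟩ := by
    refine ⟨fun h' => h1 (congrArg Subtype.val h'), fun w h' => ?_, fun w h' => ?_, fun w => ?_,
      fun w => ?_, fun h' => h6 h'⟩
    · exact h2 (Sum.inl w) (congrArg Subtype.val h')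
    · exact h3 (Sum.inl w) (congrArg Subtype.val h')
    · have h7 := h4 (Sum.inl w)
      rw [Sum.inl.injEq] at h7
      exact h7
    · have h7 := h5 (Sum.inl w)
      rw [Sum.inl.injEq] at h7
      exact h7
  obtain ⟨p, ⟨hp, hind⟩, hin⟩ := hf _ _ hext'
  let e : G.induce S →g G := (SimpleGraph.Embedding.induce S).toHom
  have he : Function.Injective e := fun a b hab => Subtype.ext hab
  have heq : ∀ v : S, e v = (v : V) := fun _ => rfl
  have hgv : ∀ i, @SimpleGraph.Walk.getVert V G s' t' (p.map e) i = (p.getVert i : V) := fun i =>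
    SimpleGraph.Walk.getVert_map e p i
  refine ⟨p.map e, ⟨SimpleGraph.Walk.IsPath.map he hp, fun i j hij hj hadj => ?_⟩,
    fun v hv hvs hvt w => ?_⟩
  · have hj' : j ≤ p.length := le_of_le_of_eq hj (SimpleGraph.Walk.length_map e p)
    rw [hgv i, hgv j] at hadj
    exact hind i j hij hj' hadj
  · have hv' : v ∈ (p.map e).support := hv
    rw [SimpleGraph.Walk.support_map, List.mem_map] at hv'
    obtain ⟨v0, hv0, rfl⟩ := hv'
    rcases w with w | w
    · have h7 := hin v0 hv0 (fun h' => hvs (by rw [h', heq])) (fun h' => hvt (by rw [h', heq])) w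
      exact ⟨fun h' => h7.1 (Subtype.ext h'), fun h' => h7.2 h'⟩
    · exact v0.2 w

end Pool.Agent.H17.Inh
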