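import Pool.Agent.H17.Inh.Orth

/-!
# Forests: alternating paths of a matching
-/

namespace Pool.Agent.H17.Inh

open SimpleGraph Finset

/-- the walk `p` is alternating for the matching `μ` and begins with an edge of the matching -/
def Alt {n : ℕ} {H : SimpleGraph (Fin n)} (μ : Fin n → Fin n) {u v : Fin n} (p : H.Walk u v) :
    Prop :=
  ∀ i, 2 * i + 1 ≤ p.length → p.getVert (2 * i + 1) = μ (p.getVert (2 * i))

theorem getVert_concat_lt {n : ℕ} {H : SimpleGraph (Fin n)} {u v w : Fin n} (p : H.Walk u v)
    (h : H.Adj v w) {i : ℕ} (hi : i ≤ p.length) : (p.concat h).getVert i = p.getVert i := by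
  rw [SimpleGraph.Walk.concat_eq_append, SimpleGraph.Walk.getVert_append]
  by_cases h1 : i < p.length
  · rw [if_pos h1]
  · rw [if_neg h1]
    have h2 : i = p.length := by omega
    rw [h2, Nat.sub_self, SimpleGraph.Walk.getVert_zero, SimpleGraph.Walk.getVert_length]

theorem getVert_concat_last {n : ℕ} {H : SimpleGraph (Fin n)} {u v w : Fin n} (p : H.Walk u v)
    (h : H.Adj v w) : (p.concat h).getVert (p.length + 1) = w := by
  have h1 := (p.concat h).getVert_length
  rwa [SimpleGraph.Walk.length_concat] at h1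

/-- there is another neighbour in `K` -/
theorem exists_other {n : ℕ} {H : SimpleGraph (Fin n)} {K : Finset (Fin n)} {v w : Fin n}
    (hv : v ∈ K) (hvw : H.Adj v w) (he : Even (nb H K w)) : ∃ v' ∈ K, v' ≠ v ∧ H.Adj v' w := by
  by_contra hcon
  push Not at hcon
  have h1 : {x : Fin n | x ∈ K ∧ H.Adj x w} = {v} := by
    ext x
    constructor
    · rintro ⟨h2, h3⟩
      by_contra h4
      exact hcon x h2 h4 h3
    · rintro rfl
      exact ⟨hv, hvw⟩
  rw [nb, h1, Set.ncard_singleton] at he
  exact absurd he (by decide)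

theorem walk_lemma {n : ℕ} {H : SimpleGraph (Fin n)} (hac : H.IsAcyclic) (μ : Fin n → Fin n)
    (hinv : ∀ v, μ (μ v) = v) (hadj : ∀ v, μ v = v ∨ H.Adj v (μ v)) (K : Finset (Fin n))
    (Z : Set (Fin n)) (hK : ∀ w, w ∉ Z → Even (nb H K w)) (t : Fin n) (ht : t ∈ K)
    (hexp : ∀ v, ∀ p : H.Walk t v, p.IsPath → Even p.length → Alt μ p → μ v ≠ v) :
    ∃ z ∈ Z, ∃ p : H.Walk t z, p.IsPath ∧ Odd p.length ∧ Alt μ p := by
  by_contra hcon
  have key : ∀ m : ℕ, ∃ v ∈ K, ∃ p : H.Walk t v, p.IsPath ∧ p.length = 2 * m ∧ Alt μ p := by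
    intro m
    induction m with
    | zero =>
      exact ⟨t, ht, SimpleGraph.Walk.nil, SimpleGraph.Walk.IsPath.nil, rfl, fun i hi => by
        simp at hi⟩
    | succ m ih =>
      obtain ⟨v, hv, p, hp, hlen, halt⟩ := ih
      have hne : μ v ≠ v := hexp v p hp (by rw [hlen]; exact even_two_mul m) halt
      have hvw : H.Adj v (μ v) := (hadj v).resolve_left hne
      have hw : μ v ∉ p.support := by
        intro hsupp
        have h1 := hac.eq_penultimate_of_adj_end hp hvw hsupp
        rcases Nat.eq_zero_or_pos m with rfl | hm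
        · have h2 : p.Nil := SimpleGraph.Walk.length_eq_zero_iff.mp (by omega)
          rw [SimpleGraph.Walk.penultimate, hlen, Nat.mul_zero, Nat.zero_sub,
            SimpleGraph.Walk.getVert_zero] at h1
          have h3 : t = v := h2.eq
          exact hne (h1.trans h3)
        · obtain ⟨k, rfl⟩ : ∃ k, m = k + 1 := ⟨m - 1, by omega⟩
          have h2 := halt k (by omega)
          rw [SimpleGraph.Walk.penultimate, hlen,
            show 2 * (k + 1) - 1 = 2 * k + 1 by omega, h2] at h1
          have h3 : v = p.getVert (2 * k) := by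
            have h6 := congrArg μ h1
            rwa [hinv, hinv] at h6
          have h4 : p.getVert (2 * (k + 1)) = v := by
            rw [← hlen]
            exact p.getVert_length
          have h5 := hp.getVert_injOn (show 2 * (k + 1) ∈ {i | i ≤ p.length} from by
            show 2 * (k + 1) ≤ p.length
            omega) (show 2 * k ∈ {i | i ≤ p.length} from by
            show 2 * k ≤ p.length
            omega) (h4.trans h3)
          omega
      set p1 := p.concat hvw with hp1
      have hp1p : p1.IsPath := hp.concat hw hvw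
      have hlen1 : p1.length = 2 * m + 1 := by
        rw [hp1, SimpleGraph.Walk.length_concat, hlen]
      have halt1 : Alt μ p1 := by
        intro i hi
        rw [hlen1] at hi
        by_cases h1 : i < m
        · rw [hp1, getVert_concat_lt _ _ (by omega), getVert_concat_lt _ _ (by omega)]
          exact halt i (by omega)
        · have h2 : i = m := by omega
          subst h2
          have h3 := getVert_concat_last p hvw
          rw [hlen] at h3
          rw [hp1, h3, getVert_concat_lt _ _ (by omega), ← hlen, p.getVert_length]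
      have hwZ : μ v ∉ Z := fun hz =>
        hcon ⟨μ v, hz, p1, hp1p, by rw [hlen1]; exact odd_two_mul_add_one m, halt1⟩
      obtain ⟨v', hv', hne', hadj'⟩ := exists_other hv hvw (hK _ hwZ)
      have hw' : v' ∉ p1.support := by
        intro hsupp
        have h1 := hac.eq_penultimate_of_adj_end hp1p hadj'.symm hsupp
        rw [hp1, SimpleGraph.Walk.penultimate_concat] at h1
        exact hne' h1
      refine ⟨v', hv', p1.concat hadj'.symm, hp1p.concat hw' _, ?_, ?_⟩
      · rw [SimpleGraph.Walk.length_concat, hlen1]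
        ring
      · intro i hi
        rw [SimpleGraph.Walk.length_concat, hlen1] at hi
        rw [getVert_concat_lt p1 _ (by omega), getVert_concat_lt p1 _ (by omega)]
        exact halt1 i (by omega)
  obtain ⟨v, -, p, hp, hlen, -⟩ := key n
  have h1 := hp.length_lt
  rw [Fintype.card_fin] at h1
  omega

/-- the dual of a vertex which is in no even set -/
theorem exists_dualSet {n : ℕ} (H : SimpleGraph (Fin n)) (s : Fin n)
    (hs : ∀ K : Finset (Fin n), (∀ w, Even (nb H K w)) → s ∉ K) :
    ∃ S : Finset (Fin n), ∀ w, Odd (nb H S w) ↔ w = s := by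
  classical
  obtain ⟨u, hu⟩ := exists_dual (dotB (Fin n)) dotB_inj
    (h := fun w v => if H.Adj v w then (1 : ZMod 2) else 0) (t := s) (by
      intro K hsK hsum
      refine hs K (fun w => ?_) hsK
      rw [← even_iff_cast, nb_eq]
      have h1 := congrFun hsum w
      rw [Finset.sum_apply] at h1
      refine Eq.trans (Finset.sum_congr rfl fun v _ => ?_) h1
      by_cases h2 : H.Adj v w
      · rw [if_pos h2, if_pos h2.symm]
      · rw [if_neg h2, if_neg fun h3 => h2 h3.symm])
  refine ⟨Finset.univ.filter fun v => u v = 1, fun w => ?_⟩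
  have h1 : ((nb H (Finset.univ.filter fun v => u v = 1) w : ℕ) : ZMod 2) =
      if w = s then 1 else 0 := by
    rw [← hu w, nb_eq, Finset.sum_filter, dotB_apply]
    refine Finset.sum_congr rfl fun v _ => ?_
    rcases zmod2_cases (u v) with h2 | h2
    · rw [h2, if_neg (by decide), zero_mul]
    · rw [h2, if_pos rfl, one_mul]
  rw [← odd_iff_cast, h1]
  by_cases h2 : w = s
  · rw [if_pos h2]
    exact ⟨fun _ => h2, fun _ => rfl⟩
  · rw [if_neg h2]
    exact ⟨fun h3 => absurd h3 (by decide), fun h3 => absurd h3 h2⟩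

/-- Forests with a matching. -/
theorem forest_criterion {n : ℕ} (H : SimpleGraph (Fin n)) (hac : H.IsAcyclic)
    (μ : Fin n → Fin n) (hinv : ∀ v, μ (μ v) = v) (hadj : ∀ v, μ v = v ∨ H.Adj v (μ v))
    (s t : Fin n)
    (hs : ∀ v, ∀ p : H.Walk s v, p.IsPath → Even p.length → Alt μ p → μ v ≠ v)
    (ht : ∀ v, ∀ p : H.Walk t v, p.IsPath → Even p.length → Alt μ p → μ v ≠ v)
    (hst : ¬ ∃ p : H.Walk t s, p.IsPath ∧ Odd p.length ∧ Alt μ p) : ¬ Inherent H s t := by
  have hK : ∀ x, (∀ v, ∀ p : H.Walk x v, p.IsPath → Even p.length → Alt μ p → μ v ≠ v) →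
      ∀ K : Finset (Fin n), (∀ w, Even (nb H K w)) → x ∉ K := by
    intro x hx K hK hxK
    obtain ⟨z, hz, -⟩ := walk_lemma hac μ hinv hadj K ∅ (fun w _ => hK w) x hxK hx
    exact absurd hz (Set.notMem_empty z)
  obtain ⟨S, hS⟩ := exists_dualSet H s (hK s hs)
  refine alt_criterion H s t S hS (fun htS => ?_) (hK t ht)
  obtain ⟨z, hz, p, hp⟩ := walk_lemma hac μ hinv hadj S {s} (fun w hw => by
    rw [← Nat.not_odd_iff_even]
    exact fun h1 => hw ((hS w).mp h1)) t htS ht
  rw [Set.mem_singleton_iff] at hz
  subst hz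
  exact hst ⟨p, hp⟩

end Pool.Agent.H17.Inh
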