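import Pool.Agent.H17.Inh.Forest

/-!
# Forests with a matching

`IsExt`, `Closable`, `Avoidable`, `Inherent`: as in the problem file (file
`Pool/Agent/H17/Inh/Defs.lean`); copies are embeddings. The matching is given by an involution `μ` with
`μ v = v` (uncovered vertex) or `v` adjacent to `μ v`; `Alt μ p` says that the walk `p` alternates and begins
with an edge of the matching. If no alternating path of even length from `s` or `t` ends in an uncovered
vertex, and no alternating path of odd length joins `t` and `s`, then `(H, s, t)` is not inherent.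
-/

namespace Pool.Agent.H17.Inh.ForestMatchingCase

open Pool.Agent.H17.Inh SimpleGraph

theorem forest_matching_case {n : ℕ} (H : SimpleGraph (Fin n)) (hac : H.IsAcyclic) (μ : Fin n → Fin n)
    (hinv : ∀ v, μ (μ v) = v) (hadj : ∀ v, μ v = v ∨ H.Adj v (μ v)) (s t : Fin n)
    (hs : ∀ v, ∀ p : H.Walk s v, p.IsPath → Even p.length → Alt μ p → μ v ≠ v)
    (ht : ∀ v, ∀ p : H.Walk t v, p.IsPath → Even p.length → Alt μ p → μ v ≠ v)
    (hst : ¬ ∃ p : H.Walk t s, p.IsPath ∧ Odd p.length ∧ Alt μ p) : ¬ Inherent H s t :=
  forest_criterion H hac μ hinv hadj s t hs ht hst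

end Pool.Agent.H17.Inh.ForestMatchingCase
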