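import Pool.Agent.H17.Inh.Paths2

/-!
# Quadratic spaces which contain the space of a graph
-/

namespace Pool.Agent.H17.Inh

open SimpleGraph Finset

section forms

variable {ι : Type} [Fintype ι] [LinearOrder ι]

/-- the indicator function of a point -/
noncomputable def sg {ι : Type} (a : ι) : ι → ZMod 2 := by
  classical
  exact fun v => if v = a then 1 else 0

theorem sg_self {ι : Type} (a : ι) : sg a a = 1 := by
  unfold sg
  exact if_pos rfl

theorem sg_ne {ι : Type} {a v : ι} (h : v ≠ a) : sg a v = 0 := by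
  unfold sg
  exact if_neg h

/-- the quadratic form of the graph -/
noncomputable def QG (H : SimpleGraph ι) (x : ι → ZMod 2) : ZMod 2 := by
  classical
  exact ∑ v, x v + ∑ v, ∑ w, if v < w ∧ H.Adj v w then x v * x w else 0

/-- the bilinear form of the graph -/
noncomputable def BG (H : SimpleGraph ι) (x y : ι → ZMod 2) : ZMod 2 := by
  classical
  exact ∑ v, ∑ w, if H.Adj v w then x v * y w else 0

theorem QG_add (H : SimpleGraph ι) (x y : ι → ZMod 2) :
    QG H (x + y) = QG H x + QG H y + BG H x y := by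
  classical
  unfold QG BG
  have h1 : ∑ v, ∑ w, (if H.Adj v w then x v * y w else 0) =
      ∑ v, ∑ w, (if v < w ∧ H.Adj v w then x v * y w else 0) +
        ∑ v, ∑ w, (if v < w ∧ H.Adj v w then y v * x w else 0) := by
    rw [Finset.sum_comm (f := fun v w => if v < w ∧ H.Adj v w then y v * x w else 0),
      ← Finset.sum_add_distrib]
    refine Finset.sum_congr rfl fun v _ => ?_
    rw [← Finset.sum_add_distrib]
    refine Finset.sum_congr rfl fun w _ => ?_
    by_cases h2 : H.Adj v w
    · rcases lt_or_gt_of_ne h2.ne with h3 | h3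
      · rw [if_pos h2, if_pos ⟨h3, h2⟩, if_neg (fun h4 => absurd h4.1 (not_lt.mpr h3.le)),
          add_zero]
      · rw [if_pos h2, if_neg (fun h4 => absurd h4.1 (not_lt.mpr h3.le)),
          if_pos ⟨h3, h2.symm⟩, zero_add, mul_comm]
    · rw [if_neg h2, if_neg (fun h4 => h2 h4.2), if_neg (fun h4 => h2 h4.2.symm), add_zero]
  rw [h1]
  have h5 : ∑ v, ∑ w, (if v < w ∧ H.Adj v w then (x + y) v * (x + y) w else 0) =
      ∑ v, ∑ w, (if v < w ∧ H.Adj v w then x v * x w else 0) +
        ∑ v, ∑ w, (if v < w ∧ H.Adj v w then y v * y w else 0) +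
        (∑ v, ∑ w, (if v < w ∧ H.Adj v w then x v * y w else 0) +
        ∑ v, ∑ w, (if v < w ∧ H.Adj v w then y v * x w else 0)) := by
    simp only [← Finset.sum_add_distrib]
    refine Finset.sum_congr rfl fun v _ => Finset.sum_congr rfl fun w _ => ?_
    by_cases h6 : v < w ∧ H.Adj v w
    · rw [if_pos h6, if_pos h6, if_pos h6, if_pos h6, if_pos h6, Pi.add_apply, Pi.add_apply]
      ring
    · rw [if_neg h6, if_neg h6, if_neg h6, if_neg h6, if_neg h6]
      ring
  rw [h5]
  simp only [Pi.add_apply, Finset.sum_add_distrib]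
  ring

theorem QG_zero (H : SimpleGraph ι) : QG H 0 = 0 := by
  simp [QG]

theorem QG_single (H : SimpleGraph ι) (a : ι) : QG H (sg a) = 1 := by
  classical
  rw [QG]
  have h1 : ∑ v, ∑ w, (if v < w ∧ H.Adj v w then
      sg a v * sg a w else 0) = 0 := by
    refine Finset.sum_eq_zero fun v _ => Finset.sum_eq_zero fun w _ => ?_
    by_cases h2 : v < w ∧ H.Adj v w
    · rw [if_pos h2]
      by_cases h3 : v = a
      · have h4 : w ≠ a := fun h5 => h2.1.ne (h3.trans h5.symm)
        rw [sg_ne h4, mul_zero]
      · rw [sg_ne h3, zero_mul]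
    · rw [if_neg h2]
  rw [h1, add_zero, Finset.sum_eq_single_of_mem a (Finset.mem_univ _)]
  · exact sg_self a
  · intro v _ hv
    exact sg_ne hv

omit [LinearOrder ι] in
theorem BG_symm {H : SimpleGraph ι} (x y : ι → ZMod 2) : BG H x y = BG H y x := by
  classical
  rw [BG, BG, Finset.sum_comm]
  refine Finset.sum_congr rfl fun w _ => Finset.sum_congr rfl fun v _ => ?_
  by_cases h : H.Adj v w
  · rw [if_pos h, if_pos h.symm, mul_comm]
  · rw [if_neg h, if_neg fun h' => h h'.symm]

omit [LinearOrder ι] in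
theorem BG_add_left {H : SimpleGraph ι} (x x' y : ι → ZMod 2) :
    BG H (x + x') y = BG H x y + BG H x' y := by
  classical
  rw [BG, BG, BG]
  simp only [← Finset.sum_add_distrib]
  refine Finset.sum_congr rfl fun v _ => Finset.sum_congr rfl fun w _ => ?_
  by_cases h : H.Adj v w
  · rw [if_pos h, if_pos h, if_pos h, Pi.add_apply]
    ring
  · rw [if_neg h, if_neg h, if_neg h, add_zero]

omit [LinearOrder ι] in
theorem BG_smul_left {H : SimpleGraph ι} (c : ZMod 2) (x y : ι → ZMod 2) :
    BG H (c • x) y = c * BG H x y := by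
  classical
  rw [BG, BG]
  simp only [Finset.mul_sum]
  refine Finset.sum_congr rfl fun v _ => Finset.sum_congr rfl fun w _ => ?_
  by_cases h : H.Adj v w
  · rw [if_pos h, if_pos h, Pi.smul_apply, smul_eq_mul]
    ring
  · rw [if_neg h, if_neg h, mul_zero]

theorem BG_right {H : SimpleGraph ι} (x y : ι → ZMod 2) :
    BG H x y = ∑ w, y w * BG H x (sg w) := by
  classical
  have h1 : ∀ w, BG H x (sg w) = ∑ v, if H.Adj v w then x v else 0 := by
    intro w
    rw [BG]
    refine Finset.sum_congr rfl fun v _ => ?_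
    rw [Finset.sum_eq_single_of_mem w (Finset.mem_univ _), sg_self, mul_one]
    intro w' _ hw'
    rw [sg_ne hw', mul_zero, ite_self]
  rw [BG, Finset.sum_comm]
  refine Finset.sum_congr rfl fun w _ => ?_
  rw [h1, Finset.mul_sum]
  refine Finset.sum_congr rfl fun v _ => ?_
  rw [mul_ite, mul_zero, mul_comm]

theorem BG_single {H : SimpleGraph ι} (x : ι → ZMod 2) (w : ι) [DecidableRel H.Adj] :
    BG H x (sg w) = ∑ v, if H.Adj v w then x v else 0 := by
  classical
  rw [BG]
  refine Finset.sum_congr rfl fun v _ => ?_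
  rw [Finset.sum_eq_single_of_mem w (Finset.mem_univ _), sg_self, mul_one]
  · by_cases h : H.Adj v w
    · rw [if_pos h, if_pos h]
    · rw [if_neg h, if_neg h]
  · intro w' _ hw'
    rw [sg_ne hw', mul_zero, ite_self]

end forms

section transfer

variable {ι : Type} [Fintype ι] [LinearOrder ι] {H : SimpleGraph ι} {V : Type}
  [AddCommGroup V] [Module (ZMod 2) V]
  {B : V →ₗ[ZMod 2] V →ₗ[ZMod 2] ZMod 2} {Q : V → ZMod 2} {h : ι → V}

/-- the linear combination -/
def combG (h : ι → V) (x : ι → ZMod 2) : V := ∑ w, x w • h w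

omit [LinearOrder ι] in
theorem combG_add (x y : ι → ZMod 2) : combG h (x + y) = combG h x + combG h y := by
  rw [combG, combG, combG, ← Finset.sum_add_distrib]
  refine Finset.sum_congr rfl fun w _ => ?_
  rw [Pi.add_apply, add_smul]

theorem combG_single (a : ι) : combG h (sg a) = h a := by
  rw [combG, Finset.sum_eq_single_of_mem a (Finset.mem_univ _), sg_self, one_smul]
  intro v _ hv
  rw [sg_ne hv, zero_smul]

omit [LinearOrder ι] in
theorem combG_zero : combG h 0 = 0 := by
  rw [combG]
  exact Finset.sum_eq_zero fun w _ => by rw [Pi.zero_apply, zero_smul]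

omit [LinearOrder ι] in
theorem B_combG (x : ι → ZMod 2) (v : V) : B (combG h x) v = ∑ w, x w * B (h w) v := by
  rw [combG, map_sum, LinearMap.sum_apply]
  refine Finset.sum_congr rfl fun w _ => ?_
  rw [map_smul, LinearMap.smul_apply, smul_eq_mul]

/-- the products inside the copy -/
theorem gramG [DecidableRel H.Adj] (hQ : ∀ u v, Q (u + v) = Q u + Q v + B u v)
    (hh : ∀ w w', w ≠ w' → (B (h w) (h w') = 1 ↔ H.Adj w w')) (w w' : ι) :
    B (h w) (h w') = if H.Adj w w' then 1 else 0 := by
  by_cases h1 : w = w'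
  · subst h1
    rw [B_self hQ, if_neg (H.loopless.irrefl w)]
  · by_cases h2 : H.Adj w w'
    · rw [if_pos h2]
      exact (hh w w' h1).mpr h2
    · rw [if_neg h2]
      exact zmod2_ne_one fun h3 => h2 ((hh w w' h1).mp h3)

/-- the bilinear form on the span -/
theorem B_combG_combG (hQ : ∀ u v, Q (u + v) = Q u + Q v + B u v)
    (hh : ∀ w w', w ≠ w' → (B (h w) (h w') = 1 ↔ H.Adj w w')) (x y : ι → ZMod 2) :
    B (combG h x) (combG h y) = BG H x y := by
  classical
  rw [B_combG, BG]
  refine Finset.sum_congr rfl fun v _ => ?_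
  rw [B_symm hQ, B_combG, Finset.mul_sum]
  refine Finset.sum_congr rfl fun w _ => ?_
  rw [gramG hQ hh]
  by_cases h1 : H.Adj v w
  · rw [if_pos h1, if_pos h1.symm, mul_one]
  · rw [if_neg h1, if_neg fun h2 => h1 h2.symm, mul_zero, mul_zero]

/-- the quadratic form on the span of the copy -/
theorem Q_combG (hQ : ∀ u v, Q (u + v) = Q u + Q v + B u v) (h1 : ∀ w, Q (h w) = 1)
    (hh : ∀ w w', w ≠ w' → (B (h w) (h w') = 1 ↔ H.Adj w w')) (x : ι → ZMod 2) :
    Q (combG h x) = QG H x := by
  classical
  have key : ∀ S : Finset ι, Q (combG h (∑ v ∈ S, sg v)) =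
      QG H (∑ v ∈ S, sg v) := by
    intro S
    induction S using Finset.induction_on with
    | empty => rw [Finset.sum_empty, combG_zero, Q_zero hQ, QG_zero]
    | insert a S ha ih =>
      rw [Finset.sum_insert ha, QG_add, combG_add, hQ, ih, combG_single, h1, QG_single,
        ← B_combG_combG hQ hh, combG_single]
  have h2 : x = ∑ v ∈ Finset.univ.filter (fun v => x v = 1), sg v := by
    funext v
    rw [Finset.sum_apply]
    have h3 : ∀ w, sg w v = if v = w then 1 else 0 := by
      intro w
      by_cases h4 : v = w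
      · rw [h4, sg_self, if_pos rfl]
      · rw [sg_ne h4, if_neg h4]
    rw [Finset.sum_congr rfl fun w _ => h3 w, Finset.sum_ite_eq]
    rcases zmod2_cases (x v) with h4 | h4
    · rw [if_neg]
      · exact h4
      · intro h5
        rw [(Finset.mem_filter.mp h5).2] at h4
        exact absurd h4 (by decide)
    · have h5 : v ∈ Finset.univ.filter (fun v => x v = 1) := by
        rw [Finset.mem_filter]
        exact ⟨Finset.mem_univ v, h4⟩
      exact h4.trans (if_pos h5).symm
  rw [h2]
  exact key _

/-- the vectors orthogonal to the copy -/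
def PerpG (B : V →ₗ[ZMod 2] V →ₗ[ZMod 2] ZMod 2) (h : ι → V) : Type :=
  {u : V // ∀ w, B u (h w) = 0}

noncomputable instance [Fintype V] : Fintype (PerpG B h) := by
  classical
  exact inferInstanceAs (Fintype {u : V // ∀ w, B u (h w) = 0})

/-- the decomposition of the space -/
noncomputable def decompG (hsymm : ∀ u v, B u v = B v u) (D : ι → ι → ZMod 2)
    (hD : ∀ w w', ∑ v, D w v * B (h v) (h w') = if w' = w then 1 else 0) :
    (ι → ZMod 2) × PerpG B h ≃ V where
  toFun p := combG h p.1 + p.2.1
  invFun v := (fun w => B (combG h (D w)) v, ⟨v + combG h (fun w => B (combG h (D w)) v), by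
    intro w'
    have hM : (Matrix.of D) * (Matrix.of fun v w' => B (h v) (h w')) = 1 := by
      ext w w'
      rw [Matrix.mul_apply, Matrix.one_apply]
      simp only [Matrix.of_apply]
      rw [hD w w']
      by_cases h1 : w' = w
      · rw [if_pos h1, if_pos h1.symm]
      · rw [if_neg h1, if_neg (fun h2 => h1 h2.symm)]
    have hM2 := mul_eq_one_comm.mp hM
    have h2 : ∀ v v' : ι, ∑ w, B (h v) (h w) * D w v' = if v = v' then 1 else 0 := by
      intro v v'
      have h3 := congrFun (congrFun hM2 v) v'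
      rw [Matrix.mul_apply, Matrix.one_apply] at h3
      exact h3
    rw [map_add, LinearMap.add_apply, B_combG]
    have h4 : ∑ w, B (combG h (D w)) v * B (h w) (h w') = B (h w') v := by
      calc ∑ w, B (combG h (D w)) v * B (h w) (h w')
          = ∑ w, ∑ u, D w u * B (h u) v * B (h w) (h w') := by
            refine Finset.sum_congr rfl fun w _ => ?_
            rw [B_combG, Finset.sum_mul]
        _ = ∑ u, ∑ w, D w u * B (h u) v * B (h w) (h w') := Finset.sum_comm
        _ = ∑ u, (∑ w, B (h w') (h w) * D w u) * B (h u) v := by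
            refine Finset.sum_congr rfl fun u _ => ?_
            rw [Finset.sum_mul]
            refine Finset.sum_congr rfl fun w _ => ?_
            rw [hsymm (h w') (h w)]
            ring
        _ = B (h w') v := by
            rw [Finset.sum_congr rfl fun u _ => by rw [h2]]
            simp
    rw [h4, hsymm v (h w')]
    exact zmod2_add_self _⟩)
  left_inv := by
    rintro ⟨x, u⟩
    have h1 : ∀ w, B (combG h (D w)) (combG h x + u.1) = x w := by
      intro w
      rw [map_add, B_combG, B_combG]
      have h2 : ∑ v, D w v * B (h v) u.1 = 0 :=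
        Finset.sum_eq_zero fun v _ => by rw [hsymm, u.2 v, mul_zero]
      rw [h2, add_zero]
      calc ∑ v, D w v * B (h v) (combG h x) = ∑ v, ∑ w', D w v * (x w' * B (h w') (h v)) := by
            refine Finset.sum_congr rfl fun v _ => ?_
            rw [hsymm, B_combG, Finset.mul_sum]
        _ = ∑ w', ∑ v, D w v * (x w' * B (h w') (h v)) := Finset.sum_comm
        _ = ∑ w', x w' * ∑ v, D w v * B (h v) (h w') := by
            refine Finset.sum_congr rfl fun w' _ => ?_
            rw [Finset.mul_sum]
            refine Finset.sum_congr rfl fun v _ => ?_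
            rw [hsymm (h w') (h v)]
            ring
        _ = x w := by
            rw [Finset.sum_congr rfl fun w' _ => by rw [hD]]
            simp
    refine Prod.ext (funext h1) (Subtype.ext ?_)
    show combG h x + u.1 + combG h (fun w => B (combG h (D w)) (combG h x + u.1)) = u.1
    rw [show (fun w => B (combG h (D w)) (combG h x + u.1)) = x from funext h1,
      add_comm (combG h x), add_assoc, two_zero, add_zero]
  right_inv := by
    intro v
    show combG h (fun w => B (combG h (D w)) v) + (v + combG h (fun w => B (combG h (D w)) v)) = v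
    rw [add_comm v, ← add_assoc, two_zero, zero_add]

end transfer

section space

variable {ι : Type} [Fintype ι] [LinearOrder ι] (H : SimpleGraph ι) {W : Type}
  [AddCommGroup W] [Module (ZMod 2) W]
  (BW : W →ₗ[ZMod 2] W →ₗ[ZMod 2] ZMod 2) (QW : W → ZMod 2)

/-- the quadratic form on the space of the graph plus `W` -/
noncomputable def GQ (v : (ι → ZMod 2) × W) : ZMod 2 := QG H v.1 + QW v.2

/-- the bilinear form on the space of the graph plus `W` -/
noncomputable def GB : ((ι → ZMod 2) × W) →ₗ[ZMod 2] ((ι → ZMod 2) × W) →ₗ[ZMod 2] ZMod 2 :=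
  LinearMap.mk₂ (ZMod 2) (fun u v => BG H u.1 v.1 + BW u.2 v.2)
    (fun x x' y => by
      rw [Prod.fst_add, Prod.snd_add, BG_add_left, map_add, LinearMap.add_apply]
      ring)
    (fun c x y => by
      rw [Prod.smul_fst, Prod.smul_snd, BG_smul_left, map_smul, LinearMap.smul_apply,
        smul_eq_mul, smul_eq_mul]
      ring)
    (fun x y y' => by
      rw [Prod.fst_add, Prod.snd_add, BG_symm, BG_add_left, BG_symm y.1, BG_symm y'.1, map_add]
      ring)
    (fun c x y => by
      rw [Prod.smul_fst, Prod.smul_snd, BG_symm, BG_smul_left, BG_symm y.1, map_smul,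
        smul_eq_mul, smul_eq_mul]
      ring)

variable {H BW QW}

theorem GB_apply (u v : (ι → ZMod 2) × W) : GB H BW u v = BG H u.1 v.1 + BW u.2 v.2 := rfl

theorem GQ_add (hW : ∀ u v, QW (u + v) = QW u + QW v + BW u v) (u v : (ι → ZMod 2) × W) :
    GQ H QW (u + v) = GQ H QW u + GQ H QW v + GB H BW u v := by
  rw [GB_apply, GQ, GQ, GQ, Prod.fst_add, Prod.snd_add, QG_add, hW]
  ring

theorem GB_inj (D : ι → ι → ZMod 2)
    (hD : ∀ w w', BG H (D w) (sg w') = sg w w')
    (hnd : Function.Injective BW) : Function.Injective (GB H BW) := by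
  classical
  rw [injective_iff_map_eq_zero]
  rintro ⟨x, p⟩ hx
  have h1 : ∀ v, GB H BW (x, p) v = 0 := fun v => by rw [hx]; rfl
  have hB0 : ∀ y : ι → ZMod 2, BG H y 0 = 0 := by
    intro y
    rw [BG_right]
    simp
  have hp : p = 0 := by
    refine hnd ?_
    rw [map_zero]
    refine LinearMap.ext fun u => ?_
    have h2 := h1 (0, u)
    rw [GB_apply] at h2
    simpa [hB0] using h2
  have h3 : ∀ y, BG H x y = 0 := by
    intro y
    have h2 := h1 (y, 0)
    rw [GB_apply] at h2
    simpa using h2
  have hx0 : x = 0 := by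
    funext v
    have h4 := h3 (D v)
    rw [BG_symm, BG_right] at h4
    rw [Finset.sum_congr rfl fun w _ => by rw [hD v w],
      Finset.sum_eq_single_of_mem v (Finset.mem_univ _), sg_self, mul_one] at h4
    · exact h4
    · intro w _ hw
      rw [sg_ne hw, mul_zero]
  rw [hx0, hp]
  rfl

/-- the orthogonal complement of every copy is like `W` -/
theorem perp_like [Fintype W] (hW : ∀ u v, QW (u + v) = QW u + QW v + BW u v)
    (hnd : Function.Injective BW) (D : ι → ι → ZMod 2)
    (hD : ∀ w w', BG H (D w) (sg w') = sg w w')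
    (h : ι → (ι → ZMod 2) × W) (h1 : ∀ w, GQ H QW (h w) = 1)
    (hh : ∀ w w', w ≠ w' → (GB H BW (h w) (h w') = 1 ↔ H.Adj w w')) :
    ∃ e : (ι → ZMod 2) × PerpG (GB H BW) h ≃ (ι → ZMod 2) × W,
      (∀ p, e p = combG h p.1 + p.2.1) ∧
      Fintype.card (PerpG (GB H BW) h) = Fintype.card W ∧
      ∑ u : PerpG (GB H BW) h, chi (GQ H QW u.1) = ∑ u : W, chi (QW u) := by
  classical
  have hQ := GQ_add (H := H) hW
  have hBnd := GB_inj (H := H) D hD hnd
  have hDv : ∀ w w', ∑ v, D w v * GB H BW (h v) (h w') = if w' = w then 1 else 0 := by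
    intro w w'
    have h5 : (if w' = w then (1 : ZMod 2) else 0) = sg w w' := by
      by_cases h4 : w' = w
      · rw [h4, sg_self, if_pos rfl]
      · rw [sg_ne h4, if_neg h4]
    rw [h5, ← hD w w', BG_single]
    refine Finset.sum_congr rfl fun v _ => ?_
    rw [gramG hQ hh]
    by_cases h2 : H.Adj v w'
    · rw [if_pos h2, if_pos h2, mul_one]
    · rw [if_neg h2, if_neg h2, mul_zero]
  let e : (ι → ZMod 2) × PerpG (GB H BW) h ≃ (ι → ZMod 2) × W :=
    decompG (B_symm hQ) D hDv
  have he : ∀ p, e p = combG h p.1 + p.2.1 := fun _ => rfl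
  have hBc : ∀ (x : ι → ZMod 2) (u : PerpG (GB H BW) h), GB H BW (combG h x) u.1 = 0 := by
    intro x u
    rw [B_combG]
    exact Finset.sum_eq_zero fun w _ => by rw [B_symm hQ, u.2 w, mul_zero]
  refine ⟨e, he, ?_, ?_⟩
  · have h1 := Fintype.card_congr e
    rw [Fintype.card_prod, Fintype.card_prod] at h1
    have h2 : 0 < Fintype.card (ι → ZMod 2) := Fintype.card_pos
    exact Nat.eq_of_mul_eq_mul_left h2 h1
  · have h2 : ∑ v, chi (GQ H QW v) =
        (∑ x : ι → ZMod 2, chi (QG H x)) * ∑ u : PerpG (GB H BW) h, chi (GQ H QW u.1) := by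
      rw [← Equiv.sum_comp e, Fintype.sum_prod_type, Finset.sum_mul_sum]
      refine Finset.sum_congr rfl fun x _ => Finset.sum_congr rfl fun u _ => ?_
      rw [he, hQ, hBc, add_zero, Q_combG hQ h1 hh, chi_add]
    have h3 : ∑ v, chi (GQ H QW v) =
        (∑ x : ι → ZMod 2, chi (QG H x)) * ∑ u : W, chi (QW u) := by
      rw [Fintype.sum_prod_type, Finset.sum_mul_sum]
      refine Finset.sum_congr rfl fun x _ => Finset.sum_congr rfl fun u _ => ?_
      rw [GQ, chi_add]
    have h4 := gauss_ne_zero hBnd hQ
    rw [h3] at h4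
    rw [h2] at h3
    exact mul_left_cancel₀ (fun h5 => h4 (by rw [h5, zero_mul])) h3

end space

end Pool.Agent.H17.Inh
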