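import Pool.Agent.H17.Inh.Defs

/-!
# Confining graphs from symmetric forms over the field with two elements
-/

namespace Pool.Agent.H17.Inh

open SimpleGraph Finset

/-- vertices: the elements of `X`, each repeated `m` times -/
def geo {V : Type} (B : V → V → ZMod 2) (hB : ∀ x y, B x y = B y x) (X : Set V) (m : ℕ) :
    SimpleGraph (X × Fin m) where
  Adj p q := p ≠ q ∧ B p.1 q.1 = 1
  symm := ⟨fun p q h => ⟨h.1.symm, by rw [hB]; exact h.2⟩⟩
  loopless := ⟨fun p h => h.1 rfl⟩

theorem geo_criterion {n : ℕ} (H : SimpleGraph (Fin n)) (s t : Fin n) {V : Type} [Finite V]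
    (B : V → V → ZMod 2) (hB : ∀ x y, B x y = B y x) (X : Set V)
    (h0 : Fin n → V) (h0X : ∀ w, h0 w ∈ X)
    (h0G : ∀ w w', w ≠ w' → (B (h0 w) (h0 w') = 1 ↔ H.Adj w w'))
    (hc : ∀ h : Fin n → V, (∀ w, h w ∈ X) →
      (∀ w w', w ≠ w' → (B (h w) (h w') = 1 ↔ H.Adj w w')) →
      ∃ a ∈ X, ∃ b ∈ X, (∀ w, B a (h w) = 1 ↔ w = s) ∧ (∀ w, B b (h w) = 1 ↔ w = t) ∧
        B a b ≠ 1 ∧ ∃ C : Set V,
          (∀ z ∈ X, (∀ w, B z (h w) ≠ 1) → B a z = 1 → z ∈ C) ∧
          (∀ z ∈ C, ∀ z' ∈ X, (∀ w, B z' (h w) ≠ 1) → B z z' = 1 → z' ∈ C) ∧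
          (∀ z ∈ C, B b z ≠ 1)) :
    ¬ Inherent H s t := by
  classical
  refine not_inherent_of (geo B hB X (n + 2)) ?_ ?_
  · refine ⟨⟨⟨fun w => (⟨h0 w, h0X w⟩, Fin.castLE (by omega) w), fun a b hab => ?_⟩, ?_⟩⟩
    · exact Fin.castLE_injective (by omega : n ≤ n + 2) (congrArg Prod.snd hab)
    · intro w w'
      constructor
      · rintro ⟨h1, h2⟩
        have hne : w ≠ w' := by
          rintro rfl
          exact h1 rfl
        exact (h0G w w' hne).mp h2
      · intro h
        exact ⟨fun h' => h.ne (Fin.castLE_injective (by omega : n ≤ n + 2) (congrArg Prod.snd h')),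
          (h0G w w' h.ne).mpr h⟩
  · intro f
    have hfB : ∀ w w', w ≠ w' → (B (f w).1 (f w').1 = 1 ↔ H.Adj w w') := by
      intro w w' hne
      rw [← f.map_adj_iff]
      exact ⟨fun h => ⟨fun h' => hne (f.injective h'), h⟩, fun h => h.2⟩
    obtain ⟨a, haX, b, hbX, ha, hb, hab, C, hC1, hC2, hC3⟩ :=
      hc (fun w => ((f w).1 : V)) (fun w => (f w).1.2) hfB
    set I := Finset.univ.image fun w => (f w).2 with hI
    have hIc : I.card ≤ n := by
      refine Finset.card_image_le.trans ?_
      rw [Finset.card_univ, Fintype.card_fin]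
    obtain ⟨i, hi⟩ : ∃ i, i ∉ I := by
      by_contra hcon
      push Not at hcon
      have : I = Finset.univ := Finset.eq_univ_iff_forall.mpr hcon
      rw [this, Finset.card_univ, Fintype.card_fin] at hIc
      omega
    obtain ⟨j, hj⟩ : ∃ j, j ∉ insert i I := by
      by_contra hcon
      push Not at hcon
      have h1 : insert i I = Finset.univ := Finset.eq_univ_iff_forall.mpr hcon
      have h2 := Finset.card_insert_le i I
      rw [h1, Finset.card_univ, Fintype.card_fin] at h2
      omega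
    rw [Finset.mem_insert, not_or] at hj
    have hiw : ∀ w, (f w).2 ≠ i := fun w h => hi (Finset.mem_image.mpr ⟨w, Finset.mem_univ w, h⟩)
    have hjw : ∀ w, (f w).2 ≠ j := fun w h =>
      hj.2 (Finset.mem_image.mpr ⟨w, Finset.mem_univ w, h⟩)
    refine ⟨(⟨a, haX⟩, i), (⟨b, hbX⟩, j), ⟨?_, ?_, ?_, ?_, ?_, ?_⟩,
      insert (⟨a, haX⟩, i) {p | (p.1 : V) ∈ C}, Set.mem_insert _ _, ?_, ?_⟩
    · intro h
      exact hj.1 (congrArg Prod.snd h).symm
    · intro w h
      exact hiw w (congrArg Prod.snd h)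
    · intro w h
      exact hjw w (congrArg Prod.snd h)
    · intro w
      rw [← ha w]
      exact ⟨fun h => h.2, fun h => ⟨fun h' => hiw w (congrArg Prod.snd h').symm, h⟩⟩
    · intro w
      rw [← hb w]
      exact ⟨fun h => h.2, fun h => ⟨fun h' => hjw w (congrArg Prod.snd h').symm, h⟩⟩
    · exact fun h => hab h.2
    · rintro p (rfl | hp) h
      · exact hab h.2
      · have h1 := hC3 _ hp
        rw [hB] at h1
        exact h1 h.2
    · intro p hp x hx
      by_cases hw : ∃ w, B x.1 (f w).1 = 1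
      · obtain ⟨w, hw⟩ := hw
        refine Or.inr ⟨w, ?_⟩
        by_cases h1 : f w = x
        · exact Or.inl h1
        · exact Or.inr ⟨h1, by rw [hB]; exact hw⟩
      · push Not at hw
        left
        right
        rcases hp with rfl | hp
        · exact hC1 _ x.1.2 hw hx.2
        · exact hC2 _ hp _ x.1.2 hw hx.2

/-! ### Linear algebra over the field with two elements -/

theorem zmod2_cases (x : ZMod 2) : x = 0 ∨ x = 1 := by
  revert x
  decide

theorem zmod2_ne_one {x : ZMod 2} (h : x ≠ 1) : x = 0 := (zmod2_cases x).resolve_right h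

variable {n : ℕ} {V : Type} [AddCommGroup V] [Module (ZMod 2) V] [Finite V]

/-- every linear form is given by a vector -/
theorem repr_form (B : V →ₗ[ZMod 2] V →ₗ[ZMod 2] ZMod 2) (hnd : Function.Injective B)
    (ψ : V →ₗ[ZMod 2] ZMod 2) : ∃ v, B v = ψ := by
  have : Module.Finite (ZMod 2) V := Module.Finite.of_finite
  have h1 : Module.finrank (ZMod 2) V = Module.finrank (ZMod 2) (Module.Dual (ZMod 2) V) :=
    (Subspace.dual_finrank_eq).symm
  have h2 : Function.Surjective B :=
    (LinearMap.injective_iff_surjective_of_finrank_eq_finrank h1).mp hnd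
  exact h2 ψ

omit [Finite V] in
/-- membership in the span of a family -/
theorem mem_span_family {h : Fin n → V} {v : V}
    (hv : v ∈ Submodule.span (ZMod 2) (Set.range h)) : ∃ K : Finset (Fin n), ∑ w ∈ K, h w = v := by
  classical
  obtain ⟨c, hc⟩ := (Submodule.mem_span_range_iff_exists_fun (ZMod 2)).mp hv
  refine ⟨Finset.univ.filter fun w => c w = 1, ?_⟩
  rw [← hc, Finset.sum_filter]
  refine Finset.sum_congr rfl fun w _ => ?_
  rcases zmod2_cases (c w) with h1 | h1
  · rw [h1, zero_smul, if_neg (by decide)]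
  · rw [h1, one_smul, if_pos rfl]

/-- a vector which is not in the span is detected -/
theorem exists_perp (B : V →ₗ[ZMod 2] V →ₗ[ZMod 2] ZMod 2) (hnd : Function.Injective B)
    {h : Fin n → V} {v : V} (hv : ∀ K : Finset (Fin n), ∑ w ∈ K, h w ≠ v) :
    ∃ u, (∀ w, B u (h w) = 0) ∧ B u v = 1 := by
  have h1 : v ∉ Submodule.span (ZMod 2) (Set.range h) := by
    intro h2
    obtain ⟨K, hK⟩ := mem_span_family h2
    exact hv K hK
  obtain ⟨ψ, h2, h3⟩ := Submodule.exists_le_ker_of_notMem h1
  obtain ⟨u, hu⟩ := repr_form B hnd ψ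
  refine ⟨u, fun w => ?_, ?_⟩
  · rw [hu]
    exact h3 (Submodule.subset_span ⟨w, rfl⟩)
  · rw [hu]
    exact (zmod2_cases _).resolve_left h2

/-- a vector dual to `h t` -/
theorem exists_dual (B : V →ₗ[ZMod 2] V →ₗ[ZMod 2] ZMod 2) (hnd : Function.Injective B)
    {h : Fin n → V} {t : Fin n} (ht : ∀ K : Finset (Fin n), t ∈ K → ∑ w ∈ K, h w ≠ 0) :
    ∃ u, ∀ w, B u (h w) = if w = t then 1 else 0 := by
  classical
  have h2 : ∀ a : V, a + a = 0 := by
    intro a
    rw [← two_smul (ZMod 2) a, show (2 : ZMod 2) = 0 by decide, zero_smul]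
  obtain ⟨u, h3, h4⟩ := exists_perp B hnd (h := fun w => if w = t then 0 else h w) (v := h t)
    (by
      intro K hK
      refine ht (insert t (K.erase t)) (Finset.mem_insert_self _ _) ?_
      rw [Finset.sum_insert (Finset.notMem_erase _ _)]
      have h5 : ∑ w ∈ K, (if w = t then 0 else h w) = ∑ w ∈ K.erase t, h w := by
        rw [← Finset.sum_erase K (f := fun w => if w = t then 0 else h w) (a := t) (if_pos rfl)]
        refine Finset.sum_congr rfl fun w hw => ?_
        rw [if_neg (Finset.ne_of_mem_erase hw)]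
      rw [← h5, hK]
      exact h2 _)
  refine ⟨u, fun w => ?_⟩
  by_cases hw : w = t
  · rw [if_pos hw, hw]
    exact h4
  · rw [if_neg hw]
    have := h3 w
    rwa [if_neg hw] at this

/-- in a space of large dimension a quadratic function is not constant on a coset of the
orthogonal complement of few vectors -/
theorem exists_change (B : V →ₗ[ZMod 2] V →ₗ[ZMod 2] ZMod 2) (hnd : Function.Injective B)
    (Q : V → ZMod 2) (hQ : ∀ u v, Q (u + v) = Q u + Q v + B u v)
    (hdim : 2 * n < Module.finrank (ZMod 2) V) (h : Fin n → V) (v0 : V) :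
    ∃ u, (∀ w, B u (h w) = 0) ∧ Q (v0 + u) = Q v0 + 1 := by
  have : Module.Finite (ZMod 2) V := Module.Finite.of_finite
  by_contra hcon
  push Not at hcon
  have hc : ∀ u, (∀ w, B u (h w) = 0) → Q (v0 + u) = Q v0 := by
    intro u hu
    have h1 := hcon u hu
    rcases zmod2_cases (Q (v0 + u)) with h2 | h2 <;> rcases zmod2_cases (Q v0) with h3 | h3
    · rw [h2, h3]
    · rw [h2, h3] at h1
      exact absurd (by decide) h1
    · rw [h2, h3] at h1
      exact absurd (by decide) h1
    · rw [h2, h3]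
  let L : V →ₗ[ZMod 2] (Fin n → ZMod 2) := LinearMap.pi fun w => (B.flip (h w))
  have hL : ∀ u, u ∈ LinearMap.ker L ↔ ∀ w, B u (h w) = 0 := by
    intro u
    rw [LinearMap.mem_ker]
    constructor
    · intro h1 w
      exact congrFun h1 w
    · intro h1
      funext w
      exact h1 w
  have hiso : ∀ u ∈ LinearMap.ker L, ∀ u' ∈ LinearMap.ker L, B u u' = 0 := by
    intro u hu u' hu'
    rw [hL] at hu hu'
    have h1 := hc u hu
    have h2 := hc u' hu'
    have h3 := hc (u + u') (fun w => by rw [map_add, LinearMap.add_apply, hu, hu', add_zero])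
    rw [hQ] at h1 h2 h3
    rw [hQ u u', map_add] at h3
    linear_combination h3 - h1 - h2
  have h1 : LinearMap.ker L ≤ (LinearMap.ker L).dualAnnihilator.comap B := by
    intro u hu
    rw [Submodule.mem_comap, Submodule.mem_dualAnnihilator]
    exact fun u' hu' => hiso u hu u' hu'
  have h2 : Module.finrank (ZMod 2) (LinearMap.ker L) ≤
      Module.finrank (ZMod 2) (LinearMap.ker L).dualAnnihilator := by
    let g : LinearMap.ker L →ₗ[ZMod 2] (LinearMap.ker L).dualAnnihilator :=
      LinearMap.codRestrict _ (B ∘ₗ (LinearMap.ker L).subtype) fun u => h1 u.2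
    refine LinearMap.finrank_le_finrank_of_injective (f := g) ?_
    intro a b hab
    exact Subtype.ext (hnd (congrArg Subtype.val hab))
  have h3 := Subspace.finrank_add_finrank_dualAnnihilator_eq (LinearMap.ker L)
  have h4 := LinearMap.finrank_range_add_finrank_ker L
  have h5 : Module.finrank (ZMod 2) (LinearMap.range L) ≤ n := by
    refine (Submodule.finrank_le _).trans ?_
    rw [Module.finrank_fin_fun]
  omega

end Pool.Agent.H17.Inh
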