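import Pool.Agent.H17.Inh.Geo

/-!
# The criteria from alternating and quadratic forms over the field with two elements
-/

namespace Pool.Agent.H17.Inh

open SimpleGraph Finset

/-- the number of neighbours of `w` in `S` -/
noncomputable def nb {n : ℕ} (H : SimpleGraph (Fin n)) (S : Finset (Fin n)) (w : Fin n) : ℕ :=
  {v : Fin n | v ∈ S ∧ H.Adj v w}.ncard

/-- the number of edges of `H` inside `S` -/
noncomputable def ed {n : ℕ} (H : SimpleGraph (Fin n)) (S : Finset (Fin n)) : ℕ :=
  {p : Fin n × Fin n | p.1 ∈ S ∧ p.2 ∈ S ∧ p.1 < p.2 ∧ H.Adj p.1 p.2}.ncard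

theorem nb_eq {n : ℕ} (H : SimpleGraph (Fin n)) [DecidableRel H.Adj] (S : Finset (Fin n))
    (w : Fin n) : ((nb H S w : ℕ) : ZMod 2) = ∑ v ∈ S, if H.Adj v w then 1 else 0 := by
  classical
  have h1 : nb H S w = (S.filter fun v => H.Adj v w).card := by
    rw [nb, ← Set.ncard_coe_finset]
    congr 1
    ext v
    simp
  rw [h1, Finset.sum_boole]

theorem ed_eq {n : ℕ} (H : SimpleGraph (Fin n)) [DecidableRel H.Adj] (S : Finset (Fin n)) :
    ((ed H S : ℕ) : ZMod 2) =
      ∑ v ∈ S, ∑ w ∈ S, if v < w ∧ H.Adj v w then 1 else 0 := by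
  classical
  have h1 : ed H S = ((S ×ˢ S).filter fun p => p.1 < p.2 ∧ H.Adj p.1 p.2).card := by
    rw [ed, ← Set.ncard_coe_finset]
    congr 1
    ext p
    simp [and_assoc]
  rw [h1, ← Finset.sum_product', Finset.sum_boole]

/-- the space `U × U`, `U` the functions on `Option (Fin n)` -/
abbrev HV (n : ℕ) : Type := (Option (Fin n) → ZMod 2) × (Option (Fin n) → ZMod 2)

/-- the hyperbolic form -/
def hypB (n : ℕ) : HV n →ₗ[ZMod 2] HV n →ₗ[ZMod 2] ZMod 2 :=
  LinearMap.mk₂ (ZMod 2) (fun x y => ∑ i, (x.1 i * y.2 i + x.2 i * y.1 i))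
    (fun x x' y => by
      rw [← Finset.sum_add_distrib]
      refine Finset.sum_congr rfl fun i _ => ?_
      simp only [Prod.fst_add, Prod.snd_add, Pi.add_apply]
      ring)
    (fun c x y => by
      rw [smul_eq_mul, Finset.mul_sum]
      refine Finset.sum_congr rfl fun i _ => ?_
      simp only [Prod.smul_fst, Prod.smul_snd, Pi.smul_apply, smul_eq_mul]
      ring)
    (fun x y y' => by
      rw [← Finset.sum_add_distrib]
      refine Finset.sum_congr rfl fun i _ => ?_
      simp only [Prod.fst_add, Prod.snd_add, Pi.add_apply]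
      ring)
    (fun c x y => by
      rw [smul_eq_mul, Finset.mul_sum]
      refine Finset.sum_congr rfl fun i _ => ?_
      simp only [Prod.smul_fst, Prod.smul_snd, Pi.smul_apply, smul_eq_mul]
      ring)

theorem hypB_apply (n : ℕ) (x y : HV n) :
    hypB n x y = ∑ i, (x.1 i * y.2 i + x.2 i * y.1 i) := rfl

theorem hypB_symm (n : ℕ) (x y : HV n) : hypB n x y = hypB n y x := by
  rw [hypB_apply, hypB_apply]
  refine Finset.sum_congr rfl fun i _ => ?_
  ring

theorem zmod2_add_self (x : ZMod 2) : x + x = 0 := by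
  revert x
  decide

theorem hypB_self (n : ℕ) (x : HV n) : hypB n x x = 0 := by
  rw [hypB_apply]
  refine Finset.sum_eq_zero fun i _ => ?_
  rw [mul_comm (x.2 i)]
  exact zmod2_add_self _

theorem hypB_inj (n : ℕ) : Function.Injective (hypB n) := by
  rw [injective_iff_map_eq_zero]
  intro x hx
  have h1 : ∀ y, hypB n x y = 0 := fun y => by rw [hx]; rfl
  refine Prod.ext (funext fun i => ?_) (funext fun i => ?_)
  · have h2 := h1 (0, Pi.single i 1)
    rw [hypB_apply] at h2
    simpa [Pi.single_apply] using h2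
  · have h2 := h1 (Pi.single i 1, 0)
    rw [hypB_apply] at h2
    simpa [Pi.single_apply] using h2

/-- the quadratic form -/
def hypQ (n : ℕ) (x : HV n) : ZMod 2 := ∑ i, x.1 i * x.2 i

theorem hypQ_add (n : ℕ) (x y : HV n) : hypQ n (x + y) = hypQ n x + hypQ n y + hypB n x y := by
  rw [hypQ, hypQ, hypQ, hypB_apply, ← Finset.sum_add_distrib, ← Finset.sum_add_distrib]
  refine Finset.sum_congr rfl fun i _ => ?_
  simp only [Prod.fst_add, Prod.snd_add, Pi.add_apply]
  ring

theorem hypQ_zero (n : ℕ) : hypQ n 0 = 0 := by simp [hypQ]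

theorem hyp_finrank (n : ℕ) : Module.finrank (ZMod 2) (HV n) = 2 * (n + 1) := by
  rw [Module.finrank_prod, Module.finrank_fintype_fun_eq_card, Fintype.card_option,
    Fintype.card_fin]
  ring

section

variable {n : ℕ} {H : SimpleGraph (Fin n)} [DecidableRel H.Adj] {h : Fin n → HV n}

/-- the products inside the copy -/
theorem gram (hh : ∀ w w', w ≠ w' → (hypB n (h w) (h w') = 1 ↔ H.Adj w w')) (w w' : Fin n) :
    hypB n (h w) (h w') = if H.Adj w w' then 1 else 0 := by
  by_cases h1 : w = w'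
  · subst h1
    rw [hypB_self, if_neg (H.loopless.irrefl w)]
  · by_cases h2 : H.Adj w w'
    · rw [if_pos h2]
      exact (hh w w' h1).mpr h2
    · rw [if_neg h2]
      exact zmod2_ne_one fun h3 => h2 ((hh w w' h1).mp h3)

theorem gram_sum (hh : ∀ w w', w ≠ w' → (hypB n (h w) (h w') = 1 ↔ H.Adj w w'))
    (S : Finset (Fin n)) (w : Fin n) :
    hypB n (∑ v ∈ S, h v) (h w) = ((nb H S w : ℕ) : ZMod 2) := by
  rw [nb_eq, map_sum, LinearMap.sum_apply]
  exact Finset.sum_congr rfl fun v _ => gram hh v w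

/-- the value of the quadratic form on the sum over a set -/
theorem quad_sum {q : ZMod 2} (hh : ∀ w w', w ≠ w' → (hypB n (h w) (h w') = 1 ↔ H.Adj w w'))
    (hq : ∀ w, hypQ n (h w) = q) (S : Finset (Fin n)) :
    hypQ n (∑ v ∈ S, h v) = (S.card : ZMod 2) * q + ((ed H S : ℕ) : ZMod 2) := by
  classical
  rw [ed_eq]
  induction S using Finset.induction_on with
  | empty => simp [hypQ_zero]
  | insert a S ha ih =>
    have h1 : hypB n (h a) (∑ v ∈ S, h v) =
        ∑ v ∈ S, ((if a < v ∧ H.Adj a v then (1 : ZMod 2) else 0) +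
          if v < a ∧ H.Adj v a then 1 else 0) := by
      rw [map_sum]
      refine Finset.sum_congr rfl fun v hv => ?_
      have hne : a ≠ v := by
        rintro rfl
        exact ha hv
      rw [gram hh a v]
      rcases lt_or_gt_of_ne hne with h2 | h2
      · by_cases h3 : H.Adj a v
        · rw [if_pos h3, if_pos ⟨h2, h3⟩, if_neg (fun h4 => absurd h4.1 (not_lt.mpr h2.le)),
            add_zero]
        · rw [if_neg h3, if_neg (fun h4 => h3 h4.2), if_neg (fun h4 => h3 h4.2.symm), add_zero]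
      · by_cases h3 : H.Adj a v
        · rw [if_pos h3, if_neg (fun h4 => absurd h4.1 (not_lt.mpr h2.le)),
            if_pos ⟨h2, h3.symm⟩, zero_add]
        · rw [if_neg h3, if_neg (fun h4 => h3 h4.2), if_neg (fun h4 => h3 h4.2.symm), add_zero]
    rw [Finset.sum_insert ha, hypQ_add, ih, h1, hq, Finset.card_insert_of_notMem ha,
      Finset.sum_insert ha, Finset.sum_insert ha]
    have h4 : ∑ v ∈ S, ∑ w ∈ insert a S, (if v < w ∧ H.Adj v w then (1 : ZMod 2) else 0) =
        ∑ v ∈ S, (if v < a ∧ H.Adj v a then (1 : ZMod 2) else 0) +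
          ∑ v ∈ S, ∑ w ∈ S, (if v < w ∧ H.Adj v w then (1 : ZMod 2) else 0) := by
      rw [← Finset.sum_add_distrib]
      exact Finset.sum_congr rfl fun v _ => Finset.sum_insert ha
    rw [h4, if_neg (fun h5 => absurd h5.1 (lt_irrefl a)), Finset.sum_add_distrib]
    push_cast
    ring

end

/-- the standard copy -/
def std {n : ℕ} (H : SimpleGraph (Fin n)) [DecidableRel H.Adj] (q : ZMod 2) (w : Fin n) : HV n :=
  (Pi.single (some w) 1, fun o => o.elim 0 (fun w' => if w' < w ∧ H.Adj w w' then 1 else 0) +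
    (Pi.single (some w) q : Option (Fin n) → ZMod 2) o)

theorem std_gram {n : ℕ} (H : SimpleGraph (Fin n)) [DecidableRel H.Adj] (q : ZMod 2)
    (w w' : Fin n) (hne : w ≠ w') : hypB n (std H q w) (std H q w') = 1 ↔ H.Adj w w' := by
  have h1 : hypB n (std H q w) (std H q w') =
      (if w < w' ∧ H.Adj w' w then 1 else 0) + (if w' < w ∧ H.Adj w w' then 1 else 0) := by
    rw [hypB_apply]
    rw [Finset.sum_add_distrib]
    congr 1
    · rw [Finset.sum_eq_single (some w)]
      · simp [std, Pi.single_apply, hne]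
      · intro o _ ho
        simp [std, Pi.single_apply, ho]
      · intro h
        exact absurd (Finset.mem_univ _) h
    · rw [Finset.sum_eq_single (some w')]
      · simp [std, Pi.single_apply, hne.symm]
      · intro o _ ho
        simp [std, Pi.single_apply, ho]
      · intro h
        exact absurd (Finset.mem_univ _) h
  rw [h1]
  rcases lt_or_gt_of_ne hne with h2 | h2
  · rw [if_neg (fun h4 : w' < w ∧ _ => absurd h4.1 (not_lt.mpr h2.le)), add_zero]
    by_cases h3 : H.Adj w w'
    · rw [if_pos ⟨h2, h3.symm⟩]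
      exact ⟨fun _ => h3, fun _ => rfl⟩
    · rw [if_neg (fun h4 => h3 h4.2.symm)]
      exact ⟨fun h4 => absurd h4 (by decide), fun h4 => absurd h4 h3⟩
  · rw [if_neg (fun h4 : w < w' ∧ _ => absurd h4.1 (not_lt.mpr h2.le)), zero_add]
    by_cases h3 : H.Adj w w'
    · rw [if_pos ⟨h2, h3⟩]
      exact ⟨fun _ => h3, fun _ => rfl⟩
    · rw [if_neg (fun h4 => h3 h4.2)]
      exact ⟨fun h4 => absurd h4 (by decide), fun h4 => absurd h4 h3⟩

theorem std_quad {n : ℕ} (H : SimpleGraph (Fin n)) [DecidableRel H.Adj] (q : ZMod 2)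
    (w : Fin n) : hypQ n (std H q w) = q := by
  rw [hypQ, Finset.sum_eq_single (some w)]
  · simp [std]
  · intro o _ ho
    simp [std, Pi.single_apply, ho]
  · intro h
    exact absurd (Finset.mem_univ _) h

theorem odd_iff_cast (k : ℕ) : ((k : ℕ) : ZMod 2) = 1 ↔ Odd k := by
  rw [← ZMod.natCast_eq_one_iff_odd]

theorem even_iff_cast (k : ℕ) : ((k : ℕ) : ZMod 2) = 0 ↔ Even k := by
  rw [← ZMod.natCast_eq_zero_iff_even]

/-- Criterion from the alternating form. -/
theorem alt_criterion {n : ℕ} (H : SimpleGraph (Fin n)) (s t : Fin n) (S : Finset (Fin n))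
    (hS : ∀ w, Odd (nb H S w) ↔ w = s) (ht : t ∉ S)
    (hK : ∀ K : Finset (Fin n), (∀ w, Even (nb H K w)) → t ∉ K) : ¬ Inherent H s t := by
  classical
  refine geo_criterion H s t (V := HV n) (fun x y => hypB n x y) (hypB_symm n) Set.univ
    (std H 0) (fun _ => Set.mem_univ _) (fun w w' hne => std_gram H 0 w w' hne) ?_
  intro h _ hh
  obtain ⟨b, hb⟩ := exists_dual (hypB n) (hypB_inj n) (h := h) (t := t) (by
    intro K htK hsum
    refine hK K (fun w => ?_) htK
    rw [← even_iff_cast, ← gram_sum hh K w, hsum, map_zero, LinearMap.zero_apply])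
  have hbt : ∀ w, hypB n b (h w) = 1 ↔ w = t := by
    intro w
    rw [hb w]
    by_cases h1 : w = t
    · rw [if_pos h1]
      exact ⟨fun _ => h1, fun _ => rfl⟩
    · rw [if_neg h1]
      exact ⟨fun h2 => absurd h2 (by decide), fun h2 => absurd h2 h1⟩
  have hperp : ∀ z, (∀ w ∈ S, hypB n z (h w) = 0) → hypB n (∑ v ∈ S, h v) z = 0 := by
    intro z hz
    rw [hypB_symm, map_sum]
    exact Finset.sum_eq_zero hz
  refine ⟨∑ v ∈ S, h v, Set.mem_univ _, b, Set.mem_univ _, fun w => ?_, hbt, ?_, ∅, ?_, ?_, ?_⟩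
  · rw [gram_sum hh, odd_iff_cast]
    exact hS w
  · rw [hperp b]
    · decide
    · intro w hw
      rw [hb w, if_neg]
      rintro rfl
      exact ht hw
  · intro z _ hz h1
    rw [hperp z fun w _ => zmod2_ne_one (hz w)] at h1
    exact absurd h1 (by decide)
  · intro z hz
    exact absurd hz (Set.notMem_empty z)
  · intro z hz
    exact absurd hz (Set.notMem_empty z)

/-- Criterion from the quadratic form, vertices with value `q`. -/
theorem quad_criterion {n : ℕ} (H : SimpleGraph (Fin n)) (s t : Fin n) (S : Finset (Fin n))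
    (q : ℕ) (hS : ∀ w, Odd (nb H S w) ↔ w = s) (ht : t ∉ S)
    (hq : (q * S.card + ed H S) % 2 = q % 2)
    (hK : ∀ K : Finset (Fin n), (∀ w, Even (nb H K w)) → Even (q * K.card + ed H K) → t ∉ K) :
    ¬ Inherent H s t := by
  classical
  have hquad : ∀ h : Fin n → HV n, (∀ w, hypQ n (h w) = (q : ZMod 2)) →
      (∀ w w', w ≠ w' → (hypB n (h w) (h w') = 1 ↔ H.Adj w w')) → ∀ K : Finset (Fin n),
      hypQ n (∑ v ∈ K, h v) = ((q * K.card + ed H K : ℕ) : ZMod 2) := by
    intro h h1 h2 K
    rw [quad_sum h2 h1]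
    push_cast
    ring
  refine geo_criterion H s t (V := HV n) (fun x y => hypB n x y) (hypB_symm n)
    {v | hypQ n v = (q : ZMod 2)}
    (std H q) (fun w => std_quad H q w) (fun w w' hne => std_gram H q w w' hne) ?_
  intro h hX hh
  obtain ⟨b0, hb0⟩ := exists_dual (hypB n) (hypB_inj n) (h := h) (t := t) (by
    intro K htK hsum
    refine hK K (fun w => ?_) ?_ htK
    · rw [← even_iff_cast, ← gram_sum hh K w, hsum, map_zero, LinearMap.zero_apply]
    · rw [← even_iff_cast, ← hquad h hX hh K, hsum, hypQ_zero])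
  obtain ⟨b, hb, hbQ⟩ : ∃ b, (∀ w, hypB n b (h w) = if w = t then 1 else 0) ∧
      hypQ n b = (q : ZMod 2) := by
    by_cases h1 : hypQ n b0 = (q : ZMod 2)
    · exact ⟨b0, hb0, h1⟩
    · obtain ⟨u, hu, huQ⟩ := exists_change (hypB n) (hypB_inj n) (hypQ n) (hypQ_add n)
        (by rw [hyp_finrank]; omega) h b0
      refine ⟨b0 + u, fun w => ?_, ?_⟩
      · rw [map_add, LinearMap.add_apply, hb0, hu, add_zero]
      · rw [huQ]
        generalize hypQ n b0 = x at h1
        generalize (q : ZMod 2) = y at h1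
        revert x y
        decide
  have hbt : ∀ w, hypB n b (h w) = 1 ↔ w = t := by
    intro w
    rw [hb w]
    by_cases h1 : w = t
    · rw [if_pos h1]
      exact ⟨fun _ => h1, fun _ => rfl⟩
    · rw [if_neg h1]
      exact ⟨fun h2 => absurd h2 (by decide), fun h2 => absurd h2 h1⟩
  have hperp : ∀ z, (∀ w ∈ S, hypB n z (h w) = 0) → hypB n (∑ v ∈ S, h v) z = 0 := by
    intro z hz
    rw [hypB_symm, map_sum]
    exact Finset.sum_eq_zero hz
  refine ⟨∑ v ∈ S, h v, ?_, b, hbQ, fun w => ?_, hbt, ?_, ∅, ?_, ?_, ?_⟩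
  · show hypQ n (∑ v ∈ S, h v) = (q : ZMod 2)
    rw [hquad h hX hh S]
    exact (ZMod.natCast_eq_natCast_iff' _ _ 2).mpr hq
  · rw [gram_sum hh, odd_iff_cast]
    exact hS w
  · rw [hperp b]
    · decide
    · intro w hw
      rw [hb w, if_neg]
      rintro rfl
      exact ht hw
  · intro z _ hz h1
    rw [hperp z fun w _ => zmod2_ne_one (hz w)] at h1
    exact absurd h1 (by decide)
  · intro z hz
    exact absurd hz (Set.notMem_empty z)
  · intro z hz
    exact absurd hz (Set.notMem_empty z)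

end Pool.Agent.H17.Inh
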