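import Pool.Agent.H17.Inh.Hyp

/-!
# The criterion from the standard scalar product over the field with two elements
-/

namespace Pool.Agent.H17.Inh

open SimpleGraph Finset

/-- the number of vertices of `S` in the closed neighbourhood of `w` -/
noncomputable def nbc {n : ℕ} (H : SimpleGraph (Fin n)) (S : Finset (Fin n)) (w : Fin n) : ℕ :=
  {v : Fin n | v ∈ S ∧ (v = w ∨ H.Adj v w)}.ncard

theorem nbc_eq {n : ℕ} (H : SimpleGraph (Fin n)) [DecidableRel H.Adj] (S : Finset (Fin n))
    (w : Fin n) : ((nbc H S w : ℕ) : ZMod 2) = ∑ v ∈ S, if v = w ∨ H.Adj v w then 1 else 0 := by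
  classical
  have h1 : nbc H S w = (S.filter fun v => v = w ∨ H.Adj v w).card := by
    rw [nbc, ← Set.ncard_coe_finset]
    congr 1
    ext v
    simp
  rw [h1, Finset.sum_boole]

/-- the scalar product -/
def dotB (J : Type) [Fintype J] : (J → ZMod 2) →ₗ[ZMod 2] (J → ZMod 2) →ₗ[ZMod 2] ZMod 2 :=
  LinearMap.mk₂ (ZMod 2) (fun x y => ∑ i, x i * y i)
    (fun x x' y => by
      rw [← Finset.sum_add_distrib]
      refine Finset.sum_congr rfl fun i _ => ?_
      simp only [Pi.add_apply]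
      ring)
    (fun c x y => by
      rw [smul_eq_mul, Finset.mul_sum]
      refine Finset.sum_congr rfl fun i _ => ?_
      simp only [Pi.smul_apply, smul_eq_mul]
      ring)
    (fun x y y' => by
      rw [← Finset.sum_add_distrib]
      refine Finset.sum_congr rfl fun i _ => ?_
      simp only [Pi.add_apply]
      ring)
    (fun c x y => by
      rw [smul_eq_mul, Finset.mul_sum]
      refine Finset.sum_congr rfl fun i _ => ?_
      simp only [Pi.smul_apply, smul_eq_mul]
      ring)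

section

variable {J : Type} [Fintype J]

theorem dotB_apply (x y : J → ZMod 2) : dotB J x y = ∑ i, x i * y i := rfl

theorem dotB_symm (x y : J → ZMod 2) : dotB J x y = dotB J y x := by
  rw [dotB_apply, dotB_apply]
  exact Finset.sum_congr rfl fun i _ => mul_comm _ _

theorem zmod2_mul_self (x : ZMod 2) : x * x = x := by
  revert x
  decide

/-- the square of `x` is its product with the all-one vector -/
theorem dotB_one (x : J → ZMod 2) : dotB J x (fun _ => 1) = dotB J x x := by
  rw [dotB_apply, dotB_apply]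
  exact Finset.sum_congr rfl fun i _ => by rw [mul_one, zmod2_mul_self]

theorem dotB_inj : Function.Injective (dotB J) := by
  classical
  rw [injective_iff_map_eq_zero]
  intro x hx
  have h1 : ∀ y, dotB J x y = 0 := fun y => by rw [hx]; rfl
  funext i
  have h2 := h1 (Pi.single i 1)
  rw [dotB_apply] at h2
  simpa [Pi.single_apply] using h2

theorem dotB_add_self (x y : J → ZMod 2) :
    dotB J (x + y) (x + y) = dotB J x x + dotB J y y := by
  rw [← dotB_one, ← dotB_one, ← dotB_one, map_add, LinearMap.add_apply]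

end

section

variable {n : ℕ} {H : SimpleGraph (Fin n)} [DecidableRel H.Adj] {J : Type} [Fintype J]
  {h : Fin n → (J → ZMod 2)}

theorem gramO (h1 : ∀ w, dotB J (h w) (h w) = 1)
    (hh : ∀ w w', w ≠ w' → (dotB J (h w) (h w') = 1 ↔ H.Adj w w')) (w w' : Fin n) :
    dotB J (h w) (h w') = if w = w' ∨ H.Adj w w' then 1 else 0 := by
  by_cases h2 : w = w'
  · subst h2
    rw [h1, if_pos (Or.inl rfl)]
  · by_cases h3 : H.Adj w w'
    · rw [if_pos (Or.inr h3)]
      exact (hh w w' h2).mpr h3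
    · rw [if_neg (not_or.mpr ⟨h2, h3⟩)]
      exact zmod2_ne_one fun h4 => h3 ((hh w w' h2).mp h4)

theorem gramO_sum (h1 : ∀ w, dotB J (h w) (h w) = 1)
    (hh : ∀ w w', w ≠ w' → (dotB J (h w) (h w') = 1 ↔ H.Adj w w'))
    (S : Finset (Fin n)) (w : Fin n) :
    dotB J (∑ v ∈ S, h v) (h w) = ((nbc H S w : ℕ) : ZMod 2) := by
  rw [nbc_eq, map_sum, LinearMap.sum_apply]
  exact Finset.sum_congr rfl fun v _ => gramO h1 hh v w

end

/-- two sets which meet all closed neighbourhoods in an odd number of vertices have sizes of the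
same parity -/
theorem card_parity {n : ℕ} (H : SimpleGraph (Fin n)) {C D : Finset (Fin n)}
    (hC : ∀ w, Odd (nbc H C w)) (hD : ∀ w, Odd (nbc H D w)) :
    ((C.card : ℕ) : ZMod 2) = ((D.card : ℕ) : ZMod 2) := by
  classical
  have h1 : ((C.card : ℕ) : ZMod 2) = ∑ v ∈ C, ((nbc H D v : ℕ) : ZMod 2) := by
    rw [Finset.sum_congr rfl fun v _ => (odd_iff_cast _).mpr (hD v)]
    simp
  have h2 : ((D.card : ℕ) : ZMod 2) = ∑ v ∈ D, ((nbc H C v : ℕ) : ZMod 2) := by
    rw [Finset.sum_congr rfl fun v _ => (odd_iff_cast _).mpr (hC v)]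
    simp
  rw [h1, h2]
  simp only [nbc_eq]
  rw [Finset.sum_comm]
  refine Finset.sum_congr rfl fun v _ => Finset.sum_congr rfl fun w _ => ?_
  by_cases h3 : v = w ∨ H.Adj v w
  · rw [if_pos h3, if_pos (h3.imp Eq.symm SimpleGraph.Adj.symm)]
  · rw [if_neg h3, if_neg (fun h4 => h3 (h4.imp Eq.symm SimpleGraph.Adj.symm))]

/-- the index set of the space -/
abbrev JJ (n δ : ℕ) : Type := Sym2 (Fin n) ⊕ (Fin n ⊕ Fin δ)

/-- the edge part of the standard copy -/
noncomputable def stdE {n : ℕ} (H : SimpleGraph (Fin n)) (w : Fin n) (e : Sym2 (Fin n)) :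
    ZMod 2 := by
  classical
  exact if w ∈ e ∧ e ∈ H.edgeSet then 1 else 0

/-- the standard copy -/
noncomputable def stdO {n : ℕ} (H : SimpleGraph (Fin n)) (δ : ℕ) (w : Fin n) :
    JJ n δ → ZMod 2 :=
  Sum.elim (stdE H w)
    (Sum.elim (Pi.single w (1 + ∑ e, stdE H w e)) fun _ => 0)

theorem stdO_self {n : ℕ} (H : SimpleGraph (Fin n)) (δ : ℕ) (w : Fin n) :
    dotB (JJ n δ) (stdO H δ w) (stdO H δ w) = 1 := by
  classical
  rw [dotB_apply, Fintype.sum_sum_type, Fintype.sum_sum_type]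
  have h1 : ∑ e, stdO H δ w (Sum.inl e) * stdO H δ w (Sum.inl e) = ∑ e, stdE H w e :=
    Finset.sum_congr rfl fun e _ => zmod2_mul_self _
  have h2 : ∑ i, stdO H δ w (Sum.inr (Sum.inl i)) * stdO H δ w (Sum.inr (Sum.inl i)) =
      1 + ∑ e, stdE H w e := by
    rw [Finset.sum_eq_single w]
    · rw [zmod2_mul_self]
      simp [stdO]
    · intro i _ hi
      simp [stdO, Pi.single_apply, hi]
    · intro h
      exact absurd (Finset.mem_univ _) h
  have h3 : ∑ i, stdO H δ w (Sum.inr (Sum.inr i)) * stdO H δ w (Sum.inr (Sum.inr i)) = 0 :=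
    Finset.sum_eq_zero fun i _ => by simp [stdO]
  rw [h1, h2, h3]
  have h4 := zmod2_add_self (∑ e, stdE H w e)
  linear_combination h4

theorem stdO_gram {n : ℕ} (H : SimpleGraph (Fin n)) (δ : ℕ) (w w' : Fin n) (hne : w ≠ w') :
    dotB (JJ n δ) (stdO H δ w) (stdO H δ w') = 1 ↔ H.Adj w w' := by
  classical
  rw [dotB_apply, Fintype.sum_sum_type, Fintype.sum_sum_type]
  have h1 : ∑ e, stdO H δ w (Sum.inl e) * stdO H δ w' (Sum.inl e) =
      if H.Adj w w' then 1 else 0 := by
    rw [Finset.sum_eq_single s(w, w')]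
    · by_cases h2 : H.Adj w w' <;> simp [stdO, stdE, h2]
    · intro e _ he
      have h3 : ¬ (w ∈ e ∧ w' ∈ e) := by
        intro h4
        exact he ((Sym2.mem_and_mem_iff hne).mp h4)
      show stdE H w e * stdE H w' e = 0
      by_cases h5 : w ∈ e
      · have h6 : w' ∉ e := fun h7 => h3 ⟨h5, h7⟩
        simp [stdE, h6]
      · simp [stdE, h5]
    · intro h
      exact absurd (Finset.mem_univ _) h
  have h2 : ∑ i, stdO H δ w (Sum.inr (Sum.inl i)) * stdO H δ w' (Sum.inr (Sum.inl i)) = 0 := by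
    refine Finset.sum_eq_zero fun i _ => ?_
    by_cases hi : i = w
    · subst hi
      simp [stdO, Pi.single_apply, hne]
    · simp [stdO, Pi.single_apply, hi]
  have h3 : ∑ i, stdO H δ w (Sum.inr (Sum.inr i)) * stdO H δ w' (Sum.inr (Sum.inr i)) = 0 :=
    Finset.sum_eq_zero fun i _ => by simp [stdO]
  rw [h1, h2, h3]
  by_cases h4 : H.Adj w w'
  · simp [h4]
  · simp [h4]

/-- Criterion from the scalar product. -/
theorem orth_criterion {n : ℕ} (H : SimpleGraph (Fin n)) (s t : Fin n) (S : Finset (Fin n))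
    (hS : ∀ w, Odd (nbc H S w) ↔ w = s) (hs : s ∈ S) (ht : t ∉ S)
    (hK : ∀ K : Finset (Fin n), (∀ w, Even (nbc H K w)) → t ∉ K) : ¬ Inherent H s t := by
  classical
  obtain ⟨δ, hδ⟩ : ∃ δ : ℕ, ∀ C : Finset (Fin n), (∀ w, Odd (nbc H C w)) →
      ((C.card : ℕ) : ZMod 2) ≠ ((Fintype.card (JJ n δ) : ℕ) : ZMod 2) := by
    by_cases h0 : ∃ C : Finset (Fin n), (∀ w, Odd (nbc H C w)) ∧
        ((C.card : ℕ) : ZMod 2) = ((Fintype.card (JJ n 0) : ℕ) : ZMod 2)
    · obtain ⟨C0, h1, h2⟩ := h0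
      refine ⟨1, fun C hC h3 => ?_⟩
      rw [card_parity H hC h1, h2] at h3
      have h4 : Fintype.card (JJ n 1) = Fintype.card (JJ n 0) + 1 := by
        simp only [Fintype.card_sum, Fintype.card_fin]
        ring
      rw [h4] at h3
      push_cast at h3
      have h5 : (1 : ZMod 2) = 0 := by linear_combination -h3
      exact absurd h5 (by decide)
    · push Not at h0
      exact ⟨0, h0⟩
  refine geo_criterion H s t (V := JJ n δ → ZMod 2) (fun x y => dotB _ x y) dotB_symm
    {v | dotB _ v v = 1} (stdO H δ) (fun w => stdO_self H δ w)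
    (fun w w' hne => stdO_gram H δ w w' hne) ?_
  intro h hX hh
  have hX' : ∀ w, dotB _ (h w) (h w) = 1 := hX
  obtain ⟨b0, hb0⟩ := exists_dual (dotB (JJ n δ)) dotB_inj (h := h) (t := t) (by
    intro K htK hsum
    refine hK K (fun w => ?_) htK
    rw [← even_iff_cast, ← gramO_sum hX' hh K w, hsum, map_zero, LinearMap.zero_apply])
  obtain ⟨b, hb, hb1⟩ : ∃ b, (∀ w, dotB _ b (h w) = if w = t then 1 else 0) ∧
      dotB _ b b = 1 := by
    by_cases h1 : dotB _ b0 b0 = 1
    · exact ⟨b0, hb0, h1⟩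
    · obtain ⟨u, hu, hu1⟩ := exists_perp (dotB (JJ n δ)) dotB_inj (h := h) (v := fun _ => 1) (by
        intro K hK1
        have h2 : ∀ w, Odd (nbc H K w) := by
          intro w
          rw [← odd_iff_cast, ← gramO_sum hX' hh K w, hK1, dotB_symm, dotB_one, hX' w]
        refine hδ K h2 ?_
        have h3 : dotB (JJ n δ) (∑ v ∈ K, h v) (fun _ => 1) = ((K.card : ℕ) : ZMod 2) := by
          rw [map_sum, LinearMap.sum_apply,
            Finset.sum_congr rfl fun v _ => (dotB_one (h v)).trans (hX' v)]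
          simp
        rw [← h3, hK1, dotB_apply]
        simp)
      refine ⟨b0 + u, fun w => ?_, ?_⟩
      · rw [map_add, LinearMap.add_apply, hb0, hu, add_zero]
      · rw [dotB_add_self, ← dotB_one u, hu1, zmod2_ne_one h1, zero_add]
  have hbt : ∀ w, dotB _ b (h w) = 1 ↔ w = t := by
    intro w
    rw [hb w]
    by_cases h1 : w = t
    · rw [if_pos h1]
      exact ⟨fun _ => h1, fun _ => rfl⟩
    · rw [if_neg h1]
      exact ⟨fun h2 => absurd h2 (by decide), fun h2 => absurd h2 h1⟩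
  have hperp : ∀ z, (∀ w ∈ S, dotB _ z (h w) = 0) → dotB _ (∑ v ∈ S, h v) z = 0 := by
    intro z hz
    rw [dotB_symm, map_sum]
    exact Finset.sum_eq_zero hz
  have ha : ∀ w, dotB _ (∑ v ∈ S, h v) (h w) = 1 ↔ w = s := by
    intro w
    rw [gramO_sum hX' hh, odd_iff_cast]
    exact hS w
  refine ⟨∑ v ∈ S, h v, ?_, b, hb1, ha, hbt, ?_, ∅, ?_, ?_, ?_⟩
  · show dotB _ (∑ v ∈ S, h v) (∑ v ∈ S, h v) = 1
    rw [map_sum, Finset.sum_eq_single_of_mem s hs]
    · exact (ha s).mpr rfl
    · intro w _ hw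
      exact zmod2_ne_one fun h1 => hw ((ha w).mp h1)
  · rw [hperp b]
    · decide
    · intro w hw
      rw [hb w, if_neg]
      rintro rfl
      exact ht hw
  · intro z _ hz h1
    rw [hperp z fun w _ => zmod2_ne_one (hz w)] at h1
    exact absurd h1 (by decide)
  · intro z hz
    exact absurd hz (Set.notMem_empty z)
  · intro z hz
    exact absurd hz (Set.notMem_empty z)

end Pool.Agent.H17.Inh
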