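import Pool.Agent.H17.Inh.Defs

/-!
# Blow-ups of graphs in which no neighbourhood is covered by few others

If `t` has a neighbour `y ≠ s` of degree one and no other vertex has the neighbourhood of `s`, then
`(H, s, t)` is not inherent.
-/

namespace Pool.Agent.H17.Inh

open SimpleGraph

/-- an affine plane of order `q` (points and non-vertical lines) together with `H`, whose vertices
are the first vertical lines -/
def pAdj {n : ℕ} (H : SimpleGraph (Fin n)) (q : ℕ) :
    Fin n ⊕ (ZMod q × ZMod q) ⊕ (ZMod q × ZMod q) →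
      Fin n ⊕ (ZMod q × ZMod q) ⊕ (ZMod q × ZMod q) → Prop
  | Sum.inl w, Sum.inl w' => H.Adj w w'
  | Sum.inl w, Sum.inr (Sum.inl p) => p.1 = ((w : ℕ) : ZMod q)
  | Sum.inr (Sum.inl p), Sum.inl w => p.1 = ((w : ℕ) : ZMod q)
  | Sum.inr (Sum.inl p), Sum.inr (Sum.inr l) => p.2 = l.1 * p.1 + l.2
  | Sum.inr (Sum.inr l), Sum.inr (Sum.inl p) => p.2 = l.1 * p.1 + l.2
  | Sum.inl _, Sum.inr (Sum.inr _) => False
  | Sum.inr (Sum.inr _), Sum.inl _ => False
  | Sum.inr (Sum.inl _), Sum.inr (Sum.inl _) => False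
  | Sum.inr (Sum.inr _), Sum.inr (Sum.inr _) => False

/-- the graph of `pAdj` -/
def pGraph {n : ℕ} (H : SimpleGraph (Fin n)) (q : ℕ) :
    SimpleGraph (Fin n ⊕ (ZMod q × ZMod q) ⊕ (ZMod q × ZMod q)) where
  Adj := pAdj H q
  symm := ⟨by
    rintro (w | p | l) (w' | p' | l') h
    · exact H.adj_symm h
    · exact h
    · exact h
    · exact h
    · exact h
    · exact h
    · exact h
    · exact h
    · exact h⟩
  loopless := ⟨by
    rintro (w | p | l) h
    · exact H.loopless.irrefl w h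
    · exact h
    · exact h⟩

theorem natCast_inj {n q : ℕ} (hq : n < q) {w w' : Fin n}
    (h : ((w : ℕ) : ZMod q) = ((w' : ℕ) : ZMod q)) : w = w' := by
  rw [ZMod.natCast_eq_natCast_iff] at h
  have h1 := Nat.ModEq.eq_of_lt_of_lt h (lt_trans w.2 hq) (lt_trans w'.2 hq)
  exact Fin.ext h1

theorem pGraph_pencil {n : ℕ} (H : SimpleGraph (Fin n)) {q : ℕ} [Fact q.Prime] (hq : n < q)
    (a : Fin n ⊕ (ZMod q × ZMod q) ⊕ (ZMod q × ZMod q)) :
    ∃ c : ZMod q → Fin n ⊕ (ZMod q × ZMod q) ⊕ (ZMod q × ZMod q),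
      (∀ x, (pGraph H q).Adj (c x) a) ∧
      ∀ b, b ≠ a → ∀ x x', (pGraph H q).Adj (c x) b → (pGraph H q).Adj (c x') b → x = x' := by
  rcases a with w | ⟨x0, y0⟩ | ⟨α, β⟩
  · refine ⟨fun y => Sum.inr (Sum.inl (((w : ℕ) : ZMod q), y)), fun y => rfl, ?_⟩
    rintro (w' | p | l) hb x x' h h'
    · have h1 : ((w : ℕ) : ZMod q) = ((w' : ℕ) : ZMod q) := h
      exact absurd (congrArg Sum.inl (natCast_inj hq h1).symm) hb
    · exact h.elim
    · have h1 : x = l.1 * ((w : ℕ) : ZMod q) + l.2 := h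
      have h2 : x' = l.1 * ((w : ℕ) : ZMod q) + l.2 := h'
      rw [h1, h2]
  · refine ⟨fun γ => Sum.inr (Sum.inr (γ, y0 - γ * x0)), fun γ => ?_, ?_⟩
    · show y0 = γ * x0 + (y0 - γ * x0)
      ring
    · rintro (w' | ⟨x1, y1⟩ | l) hb x x' h h'
      · exact h.elim
      · have h1 : y1 = x * x1 + (y0 - x * x0) := h
        have h2 : y1 = x' * x1 + (y0 - x' * x0) := h'
        have h3 : (x - x') * (x1 - x0) = 0 := by linear_combination h2 - h1
        rcases mul_eq_zero.mp h3 with h4 | h4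
        · exact sub_eq_zero.mp h4
        · exfalso
          have h5 : x1 = x0 := sub_eq_zero.mp h4
          have h6 : y1 = y0 := by rw [h1, h5]; ring
          exact hb (by rw [h5, h6])
      · exact h.elim
  · refine ⟨fun x => Sum.inr (Sum.inl (x, α * x + β)), fun x => rfl, ?_⟩
    rintro (w' | p | ⟨α', β'⟩) hb x x' h h'
    · have h1 : x = ((w' : ℕ) : ZMod q) := h
      have h2 : x' = ((w' : ℕ) : ZMod q) := h'
      rw [h1, h2]
    · exact h.elim
    · have h1 : α * x + β = α' * x + β' := h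
      have h2 : α * x' + β = α' * x' + β' := h'
      have h3 : (α - α') * (x - x') = 0 := by linear_combination h1 - h2
      rcases mul_eq_zero.mp h3 with h4 | h4
      · exfalso
        have h5 : α = α' := sub_eq_zero.mp h4
        have h6 : β = β' := by
          rw [h5] at h1
          exact add_left_cancel h1
        exact hb (by rw [h5, h6])
      · exact sub_eq_zero.mp h4

theorem pGraph_cover {n : ℕ} (H : SimpleGraph (Fin n)) {q : ℕ} [Fact q.Prime] (hq : n < q)
    (a : Fin n ⊕ (ZMod q × ZMod q) ⊕ (ZMod q × ZMod q))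
    (S : Finset (Fin n ⊕ (ZMod q × ZMod q) ⊕ (ZMod q × ZMod q))) (ha : a ∉ S) (hS : S.card < q) :
    ∃ z, (pGraph H q).Adj z a ∧ ∀ b ∈ S, ¬ (pGraph H q).Adj z b := by
  classical
  obtain ⟨c, h1, h2⟩ := pGraph_pencil H hq a
  by_contra hcon
  push Not at hcon
  have h3 : ∀ x, ∃ b ∈ S, (pGraph H q).Adj (c x) b := fun x => hcon (c x) (h1 x)
  choose b hb1 hb2 using h3
  have hinj : Function.Injective (fun x => (⟨b x, hb1 x⟩ : S)) := by
    intro x x' hxx
    have h4 : b x = b x' := congrArg Subtype.val hxx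
    refine h2 (b x) (fun h => ha (h ▸ hb1 x)) x x' (hb2 x) ?_
    rw [h4]
    exact hb2 x'
  have h4 := Fintype.card_le_of_injective _ hinj
  rw [ZMod.card, Fintype.card_coe] at h4
  omega

/-- **Twin criterion.** -/
theorem twin_criterion {n : ℕ} (H : SimpleGraph (Fin n)) (s t y : Fin n) (hys : y ≠ s)
    (hy : ∀ w, H.Adj y w ↔ w = t) (hs : ∀ w, w ≠ s → ∃ u, ¬ (H.Adj w u ↔ H.Adj s u)) :
    ¬ Inherent H s t := by
  classical
  intro hin
  have hin := inherent_swap hin
  revert hin
  obtain ⟨q, hqn, hqp⟩ := Nat.exists_infinite_primes (n + 1)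
  have : Fact q.Prime := ⟨hqp⟩
  have : NeZero q := ⟨hqp.ne_zero⟩
  let G : SimpleGraph ((Fin n ⊕ (ZMod q × ZMod q) ⊕ (ZMod q × ZMod q)) × Fin (n + 2)) :=
    SimpleGraph.comap Prod.fst (pGraph H q)
  have hG : ∀ a b, G.Adj a b ↔ (pGraph H q).Adj a.1 b.1 := fun _ _ => Iff.rfl
  refine not_inherent_of G ?_ ?_
  · refine ⟨⟨⟨fun w => (Sum.inl w, 0), fun a b hab => ?_⟩, ?_⟩⟩
    · exact Sum.inl_injective (congrArg Prod.fst hab)
    · intro a b
      exact Iff.rfl
  · intro f
    have hf : ∀ w w', (pGraph H q).Adj (f w).1 (f w').1 ↔ H.Adj w w' := fun w w' =>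
      (hG _ _).symm.trans f.map_adj_iff
    set S := (Finset.univ.erase s).image fun w => (f w).1 with hS
    have haS : (f s).1 ∉ S := by
      rw [hS, Finset.mem_image]
      rintro ⟨w, hw, hws⟩
      obtain ⟨u, hu⟩ := hs w (Finset.ne_of_mem_erase hw)
      apply hu
      rw [← hf w u, ← hf s u, hws]
    have hScard : S.card < q := by
      refine lt_of_le_of_lt Finset.card_image_le ?_
      rw [Finset.card_erase_of_mem (Finset.mem_univ s), Finset.card_univ, Fintype.card_fin]
      omega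
    obtain ⟨z, hz1, hz2⟩ := pGraph_cover H (by omega) (f s).1 S haS hScard
    set I := Finset.univ.image fun w => (f w).2 with hI
    have hIc : I.card ≤ n := by
      refine Finset.card_image_le.trans ?_
      rw [Finset.card_univ, Fintype.card_fin]
    obtain ⟨i, hi⟩ : ∃ i, i ∉ I := by
      by_contra hcon
      push Not at hcon
      have : I = Finset.univ := Finset.eq_univ_iff_forall.mpr hcon
      rw [this, Finset.card_univ, Fintype.card_fin] at hIc
      omega
    obtain ⟨j, hj⟩ : ∃ j, j ∉ insert i I := by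
      by_contra hcon
      push Not at hcon
      have h1 : insert i I = Finset.univ := Finset.eq_univ_iff_forall.mpr hcon
      have h2 := Finset.card_insert_le i I
      rw [h1, Finset.card_univ, Fintype.card_fin] at h2
      omega
    rw [Finset.mem_insert, not_or] at hj
    have hiw : ∀ w, (f w).2 ≠ i := fun w h => hi (Finset.mem_image.mpr ⟨w, Finset.mem_univ w, h⟩)
    have hjw : ∀ w, (f w).2 ≠ j := fun w h =>
      hj.2 (Finset.mem_image.mpr ⟨w, Finset.mem_univ w, h⟩)
    have hzw : ∀ w, (pGraph H q).Adj z (f w).1 ↔ w = s := by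
      intro w
      constructor
      · intro h
        by_contra hw
        exact hz2 _ (Finset.mem_image.mpr
          ⟨w, Finset.mem_erase.mpr ⟨hw, Finset.mem_univ w⟩, rfl⟩) h
      · rintro rfl
        exact hz1
    refine ⟨((f y).1, j), (z, i), ⟨?_, ?_, ?_, ?_, ?_, ?_⟩, {((f y).1, j)}, rfl, ?_, ?_⟩
    · intro h
      exact hj.1 (congrArg Prod.snd h)
    · intro w h
      exact hjw w (congrArg Prod.snd h)
    · intro w h
      exact hiw w (congrArg Prod.snd h)
    · intro w
      rw [hG]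
      show (pGraph H q).Adj (f y).1 (f w).1 ↔ _
      rw [hf, hy]
    · intro w
      rw [hG]
      exact hzw w
    · rw [hG]
      intro h
      exact hys ((hzw y).mp h.symm)
    · intro a ha h
      rw [Set.mem_singleton_iff] at ha
      subst ha
      rw [hG] at h
      exact hys ((hzw y).mp h.symm)
    · intro a ha b h
      rw [Set.mem_singleton_iff] at ha
      subst ha
      exact Or.inr ⟨y, Or.inr h⟩

end Pool.Agent.H17.Inh
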