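import Pool.Agent.H17.Inh.Forest
import Pool.Agent.H17.Inh.Twin

/-!
# Paths
-/

namespace Pool.Agent.H17.Inh

open SimpleGraph Finset

/-- the indicator function of a set of vertices of the path, on the natural numbers -/
noncomputable def gg {l : ℕ} (K : Finset (Fin (l + 1))) (i : ℕ) : ZMod 2 := by
  classical
  exact if ∃ h : i < l + 1, (⟨i, h⟩ : Fin (l + 1)) ∈ K then 1 else 0

theorem gg_mem {l : ℕ} {K : Finset (Fin (l + 1))} (v : Fin (l + 1)) :
    gg K v.val = 1 ↔ v ∈ K := by
  unfold gg
  by_cases h : v ∈ K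
  · rw [if_pos ⟨v.2, h⟩]
    exact ⟨fun _ => h, fun _ => rfl⟩
  · rw [if_neg (fun h1 => h h1.2)]
    exact ⟨fun h1 => absurd h1 (by decide), fun h1 => absurd h1 h⟩

theorem gg_large {l : ℕ} (K : Finset (Fin (l + 1))) {i : ℕ} (hi : l < i) : gg K i = 0 := by
  unfold gg
  rw [if_neg]
  rintro ⟨h, -⟩
  omega

theorem gg_sum {l : ℕ} (K : Finset (Fin (l + 1))) (F : ℕ → ZMod 2) :
    ∑ v ∈ K, F v.val = ∑ i ∈ Finset.range (l + 1), gg K i * F i := by
  classical
  rw [← Fin.sum_univ_eq_sum_range (fun i => gg K i * F i) (l + 1), ← Finset.sum_filter_add_sum_filter_not Finset.univ (fun v => v ∈ K)]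
  have h1 : ∑ v ∈ Finset.univ.filter (fun v => v ∉ K), gg K v.val * F v.val = 0 := by
    refine Finset.sum_eq_zero fun v hv => ?_
    have h2 : v ∉ K := (Finset.mem_filter.mp hv).2
    rw [zmod2_ne_one (fun h3 => h2 ((gg_mem v).mp h3)), zero_mul]
  rw [h1, add_zero]
  have h3 : Finset.univ.filter (fun v => v ∈ K) = K := by
    ext v
    simp
  rw [h3]
  refine Finset.sum_congr rfl fun v hv => ?_
  rw [(gg_mem v).mpr hv, one_mul]

theorem pathGraph_adj' {l : ℕ} (v w : Fin (l + 1)) :
    (pathGraph (l + 1)).Adj v w ↔ v.val + 1 = w.val ∨ w.val + 1 = v.val := pathGraph_adj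

theorem range_single {l : ℕ} (K : Finset (Fin (l + 1))) (j : ℕ) :
    ∑ i ∈ Finset.range (l + 1), gg K i * (if i = j then 1 else 0) = gg K j := by
  by_cases hj : j < l + 1
  · rw [Finset.sum_eq_single_of_mem j (Finset.mem_range.mpr hj)]
    · rw [if_pos rfl, mul_one]
    · intro i _ hi
      rw [if_neg hi, mul_zero]
  · rw [gg_large K (by omega)]
    refine Finset.sum_eq_zero fun i hi => ?_
    have h1 := Finset.mem_range.mp hi
    rw [if_neg (by omega), mul_zero]

theorem nb_path {l : ℕ} (K : Finset (Fin (l + 1))) (w : Fin (l + 1)) :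
    ((nb (pathGraph (l + 1)) K w : ℕ) : ZMod 2) =
      (if w.val = 0 then 0 else gg K (w.val - 1)) + gg K (w.val + 1) := by
  classical
  rw [nb_eq]
  have h1 : ∀ v : Fin (l + 1), (if (pathGraph (l + 1)).Adj v w then (1 : ZMod 2) else 0) =
      (fun i : ℕ => (if i + 1 = w.val then (1 : ZMod 2) else 0) +
        if i = w.val + 1 then 1 else 0) v.val := by
    intro v
    show _ = (if v.val + 1 = w.val then (1 : ZMod 2) else 0) + if v.val = w.val + 1 then 1 else 0
    by_cases h2 : v.val + 1 = w.val
    · rw [if_pos ((pathGraph_adj' v w).mpr (Or.inl h2)), if_pos h2, if_neg (by omega), add_zero]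
    · by_cases h3 : v.val = w.val + 1
      · rw [if_pos ((pathGraph_adj' v w).mpr (Or.inr h3.symm)), if_neg h2, if_pos h3, zero_add]
      · rw [if_neg, if_neg h2, if_neg h3, add_zero]
        intro h4
        rcases (pathGraph_adj' v w).mp h4 with h5 | h5
        · exact h2 h5
        · exact h3 h5.symm
  rw [Finset.sum_congr rfl fun v _ => h1 v, gg_sum K (fun i : ℕ =>
    (if i + 1 = w.val then (1 : ZMod 2) else 0) + if i = w.val + 1 then 1 else 0)]
  simp only [mul_add]
  rw [Finset.sum_add_distrib, range_single]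
  congr 1
  by_cases hw : w.val = 0
  · rw [if_pos hw]
    refine Finset.sum_eq_zero fun i _ => ?_
    rw [if_neg (by omega), mul_zero]
  · rw [if_neg hw, ← range_single K (w.val - 1)]
    refine Finset.sum_congr rfl fun i _ => ?_
    by_cases h2 : i = w.val - 1
    · rw [if_pos (by omega), if_pos h2]
    · rw [if_neg (by omega), if_neg h2]

theorem nbc_path {l : ℕ} (K : Finset (Fin (l + 1))) (w : Fin (l + 1)) :
    ((nbc (pathGraph (l + 1)) K w : ℕ) : ZMod 2) =
      (if w.val = 0 then 0 else gg K (w.val - 1)) + gg K w.val + gg K (w.val + 1) := by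
  classical
  have h0 : ((nbc (pathGraph (l + 1)) K w : ℕ) : ZMod 2) =
      ((nb (pathGraph (l + 1)) K w : ℕ) : ZMod 2) + gg K w.val := by
    rw [nbc_eq, nb_eq, ← range_single K w.val,
      ← gg_sum K (fun i : ℕ => if i = w.val then (1 : ZMod 2) else 0), ← Finset.sum_add_distrib]
    refine Finset.sum_congr rfl fun v _ => ?_
    by_cases h1 : v = w
    · subst h1
      rw [if_pos (Or.inl rfl), if_neg (SimpleGraph.irrefl _), if_pos rfl, zero_add]
    · have h2 : v.val ≠ w.val := fun h3 => h1 (Fin.ext h3)
      by_cases h3 : (pathGraph (l + 1)).Adj v w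
      · rw [if_pos (Or.inr h3), if_pos h3, if_neg h2, add_zero]
      · rw [if_neg (not_or.mpr ⟨h1, h3⟩), if_neg h3, if_neg h2, add_zero]
  rw [h0, nb_path]
  ring

/-- odd length, second root at even distance -/
theorem path_odd_even (l k : ℕ) (hl : l % 2 = 1) (hk : k % 2 = 0) (hkl : k ≤ l) :
    ¬ Inherent (pathGraph (l + 1)) (⟨0, by omega⟩ : Fin (l + 1)) ⟨k, by omega⟩ := by
  classical
  set S : Finset (Fin (l + 1)) := Finset.univ.filter fun v => v.val % 2 = 1 with hS
  have hgS : ∀ i, gg S i = if i % 2 = 1 ∧ i ≤ l then 1 else 0 := by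
    intro i
    by_cases hi : i < l + 1
    · have h1 : (⟨i, hi⟩ : Fin (l + 1)) ∈ S ↔ i % 2 = 1 := by
        rw [hS, Finset.mem_filter]
        simp
      by_cases h2 : i % 2 = 1
      · rw [if_pos ⟨h2, by omega⟩]
        exact (gg_mem ⟨i, hi⟩).mpr (h1.mpr h2)
      · rw [if_neg (fun h3 => h2 h3.1)]
        exact zmod2_ne_one fun h3 => h2 (h1.mp ((gg_mem ⟨i, hi⟩).mp h3))
    · rw [gg_large S (by omega), if_neg (by omega)]
  refine alt_criterion _ _ _ S (fun w => ?_) ?_ ?_
  · rw [← odd_iff_cast, nb_path, hgS, hgS]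
    have hw := w.2
    rw [Fin.ext_iff]
    show _ ↔ w.val = 0
    by_cases h1 : w.val = 0
    · rw [if_pos h1, if_pos ⟨by omega, by omega⟩]
      exact ⟨fun _ => h1, fun _ => by decide⟩
    · rw [if_neg h1]
      by_cases h2 : w.val % 2 = 0
      · rw [if_pos ⟨by omega, by omega⟩, if_pos ⟨by omega, by omega⟩]
        exact ⟨fun h3 => absurd h3 (by decide), fun h3 => absurd h3 h1⟩
      · rw [if_neg (by omega), if_neg (by omega)]
        exact ⟨fun h3 => absurd h3 (by decide), fun h3 => absurd h3 h1⟩
  · rw [hS, Finset.mem_filter]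
    rintro ⟨-, h1⟩
    have h2 : k % 2 = 1 := h1
    omega
  · intro K hK hkK
    have hstep : ∀ w : Fin (l + 1), (if w.val = 0 then 0 else gg K (w.val - 1)) +
        gg K (w.val + 1) = 0 := by
      intro w
      rw [← nb_path, even_iff_cast]
      exact hK w
    have key : ∀ j, 2 * j + 1 ≤ l → gg K (l - (2 * j + 1)) = 0 := by
      intro j
      induction j with
      | zero =>
        intro _
        have h1 := hstep ⟨l, by omega⟩
        rw [if_neg (show ¬ l = 0 by omega), gg_large K (show l < l + 1 by omega), add_zero] at h1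
        exact h1
      | succ j ih =>
        intro hj
        have h1 := hstep ⟨l - (2 * j + 2), by omega⟩
        have h2 := ih (by omega)
        have e1 : l - (2 * j + 2) + 1 = l - (2 * j + 1) := by omega
        have e2 : l - (2 * j + 2) - 1 = l - (2 * (j + 1) + 1) := by omega
        rw [if_neg (show ¬ l - (2 * j + 2) = 0 by omega)] at h1
        change gg K (l - (2 * j + 2) - 1) + gg K (l - (2 * j + 2) + 1) = 0 at h1
        rw [e1, e2, h2, add_zero] at h1
        exact h1
    have h1 := key ((l - k) / 2) (by omega)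
    have e1 : l - (2 * ((l - k) / 2) + 1) = k := by omega
    rw [e1] at h1
    have h2 := (gg_mem (⟨k, by omega⟩ : Fin (l + 1))).mpr hkK
    change gg K k = 1 at h2
    rw [h1] at h2
    exact absurd h2 (by decide)

theorem gg_filter {l : ℕ} (P : ℕ → Prop) [DecidablePred P] (i : ℕ) :
    gg (Finset.univ.filter fun v : Fin (l + 1) => P v.val) i = if P i ∧ i ≤ l then 1 else 0 := by
  classical
  by_cases hi : i < l + 1
  · have h1 : (⟨i, hi⟩ : Fin (l + 1)) ∈ Finset.univ.filter (fun v : Fin (l + 1) => P v.val) ↔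
        P i := by
      rw [Finset.mem_filter]
      simp
    by_cases h2 : P i
    · rw [if_pos ⟨h2, by omega⟩]
      exact (gg_mem ⟨i, hi⟩).mpr (h1.mpr h2)
    · rw [if_neg (fun h3 => h2 h3.1)]
      exact zmod2_ne_one fun h3 => h2 (h1.mp ((gg_mem ⟨i, hi⟩).mp h3))
  · rw [gg_large _ (by omega), if_neg]
    rintro ⟨-, h2⟩
    omega

theorem card_gg {l : ℕ} (K : Finset (Fin (l + 1))) :
    ((K.card : ℕ) : ZMod 2) = ∑ i ∈ Finset.range (l + 1), gg K i := by
  have h1 := gg_sum K (fun _ => 1)
  simpa using h1

theorem ed_even {l : ℕ} (K : Finset (Fin (l + 1))) (hK : ∀ v ∈ K, v.val % 2 = 0) :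
    ed (pathGraph (l + 1)) K = 0 := by
  have h1 : {p : Fin (l + 1) × Fin (l + 1) | p.1 ∈ K ∧ p.2 ∈ K ∧ p.1 < p.2 ∧
      (pathGraph (l + 1)).Adj p.1 p.2} = ∅ := by
    ext p
    constructor
    · rintro ⟨h1, h2, -, h3⟩
      have h4 := hK _ h1
      have h5 := hK _ h2
      rcases (pathGraph_adj' _ _).mp h3 with h6 | h6 <;> omega
    · intro h
      exact absurd h (Set.notMem_empty p)
  rw [ed, h1, Set.ncard_empty]

/-- length divisible by four, second root at a distance congruent to 3 modulo 4 -/
theorem path_four (m k : ℕ) (hk : k % 4 = 3) (hkl : k ≤ 4 * m) :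
    ¬ Inherent (pathGraph (4 * m + 1)) (⟨0, by omega⟩ : Fin (4 * m + 1)) ⟨k, by omega⟩ := by
  classical
  intro hin
  refine absurd (inherent_swap hin) ?_
  obtain ⟨j, rfl⟩ : ∃ j, k = 4 * j + 3 := ⟨k / 4, by omega⟩
  refine quad_criterion _ _ _
    (Finset.univ.filter fun v : Fin (4 * m + 1) => v.val % 2 = 0 ∧ 4 * j + 3 < v.val) 1
    (fun w => ?_) ?_ ?_ ?_
  · rw [← odd_iff_cast, nb_path, gg_filter (fun i => i % 2 = 0 ∧ 4 * j + 3 < i),
      gg_filter (fun i => i % 2 = 0 ∧ 4 * j + 3 < i)]
    have hw := w.2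
    rw [Fin.ext_iff]
    show _ ↔ w.val = 4 * j + 3
    by_cases h1 : w.val = 4 * j + 3
    · rw [if_neg (show ¬ w.val = 0 by omega), if_neg (by omega), if_pos (by omega)]
      exact ⟨fun _ => h1, fun _ => by decide⟩
    · by_cases h0 : w.val = 0
      · rw [if_pos h0, if_neg (by omega)]
        exact ⟨fun h3 => absurd h3 (by decide), fun h3 => absurd h3 h1⟩
      · rw [if_neg h0]
        by_cases h2 : w.val % 2 = 1 ∧ 4 * j + 3 < w.val
        · rw [if_pos (by omega), if_pos (by omega)]
          exact ⟨fun h3 => absurd h3 (by decide), fun h3 => absurd h3 h1⟩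
        · rw [if_neg (by omega), if_neg (by omega)]
          exact ⟨fun h3 => absurd h3 (by decide), fun h3 => absurd h3 h1⟩
  · rw [Finset.mem_filter]
    rintro ⟨-, -, h1⟩
    exact absurd h1 (Nat.not_lt_zero _)
  · have h1 : ed (pathGraph (4 * m + 1))
        (Finset.univ.filter fun v : Fin (4 * m + 1) => v.val % 2 = 0 ∧ 4 * j + 3 < v.val) = 0 :=
      ed_even _ fun v hv => (Finset.mem_filter.mp hv).2.1
    rw [h1, add_zero, one_mul]
    have h2 : ∀ r, ∑ i ∈ Finset.range (4 * (j + 1 + r) + 1),
        (if i % 2 = 0 ∧ 4 * j + 3 < i then (1 : ZMod 2) else 0) = 1 := by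
      intro r
      induction r with
      | zero =>
        rw [Finset.sum_eq_single_of_mem (4 * j + 4) (Finset.mem_range.mpr (by omega))]
        · rw [if_pos (by omega)]
        · intro i hi hne
          have h3 := Finset.mem_range.mp hi
          rw [if_neg (by omega)]
      | succ r ih =>
        rw [show 4 * (j + 1 + (r + 1)) + 1 = 4 * (j + 1 + r) + 1 + 1 + 1 + 1 + 1 by ring,
          Finset.sum_range_succ, Finset.sum_range_succ, Finset.sum_range_succ,
          Finset.sum_range_succ, ih, if_neg (by omega), if_pos (by omega), if_neg (by omega),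
          if_pos (by omega)]
        decide
    have h3 : ((Finset.card (Finset.univ.filter fun v : Fin (4 * m + 1) =>
        v.val % 2 = 0 ∧ 4 * j + 3 < v.val) : ℕ) : ZMod 2) = 1 := by
      rw [card_gg, ← h2 (m - (j + 1))]
      rw [show 4 * (j + 1 + (m - (j + 1))) + 1 = 4 * m + 1 by omega]
      refine Finset.sum_congr rfl fun i hi => ?_
      have h4 := Finset.mem_range.mp hi
      rw [gg_filter (fun i => i % 2 = 0 ∧ 4 * j + 3 < i)]
      by_cases h5 : i % 2 = 0 ∧ 4 * j + 3 < i
      · rw [if_pos ⟨h5, by omega⟩, if_pos h5]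
      · rw [if_neg (fun h6 => h5 h6.1), if_neg h5]
    have h4 := (odd_iff_cast _).mp h3
    exact Nat.odd_iff.mp h4
  · intro K hK hev hkK
    have hstep : ∀ w : Fin (4 * m + 1), (if w.val = 0 then 0 else gg K (w.val - 1)) +
        gg K (w.val + 1) = 0 := by
      intro w
      rw [← nb_path, even_iff_cast]
      exact hK w
    have h0 : gg K 0 = 1 := (gg_mem (⟨0, by omega⟩ : Fin (4 * m + 1))).mpr hkK
    have hodd : ∀ i, gg K (2 * i + 1) = 0 := by
      intro i
      by_cases hi : 2 * i + 1 ≤ 4 * m
      · induction i with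
        | zero =>
          have h1 := hstep ⟨0, by omega⟩
          rw [if_pos rfl, zero_add] at h1
          exact h1
        | succ i ih =>
          have h1 := hstep ⟨2 * i + 2, by omega⟩
          have h2 := ih (by omega)
          rw [if_neg (show ¬ 2 * i + 2 = 0 by omega)] at h1
          change gg K (2 * i + 1) + gg K (2 * (i + 1) + 1) = 0 at h1
          rw [h2, zero_add] at h1
          exact h1
      · exact gg_large K (by omega)
    have heven : ∀ i, 2 * i ≤ 4 * m → gg K (2 * i) = 1 := by
      intro i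
      induction i with
      | zero => exact fun _ => h0
      | succ i ih =>
        intro hi
        have h1 := hstep ⟨2 * i + 1, by omega⟩
        have h2 := ih (by omega)
        rw [if_neg (show ¬ 2 * i + 1 = 0 by omega)] at h1
        change gg K (2 * i) + gg K (2 * (i + 1)) = 0 at h1
        rw [h2] at h1
        exact (zmod2_cases _).resolve_left fun h3 => by
          rw [h3] at h1
          exact absurd h1 (by decide)
    have hKe : ∀ v ∈ K, v.val % 2 = 0 := by
      intro v hv
      by_contra h1
      have h2 := (gg_mem v).mpr hv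
      rw [show v.val = 2 * (v.val / 2) + 1 by omega, hodd] at h2
      exact absurd h2 (by decide)
    rw [ed_even K hKe, add_zero, one_mul, ← even_iff_cast, card_gg] at hev
    have h2 : ∀ r, ∑ i ∈ Finset.range (4 * r + 1), (if i % 2 = 0 then (1 : ZMod 2) else 0) = 1 := by
      intro r
      induction r with
      | zero => decide
      | succ r ih =>
        rw [show 4 * (r + 1) + 1 = 4 * r + 1 + 1 + 1 + 1 + 1 by ring,
          Finset.sum_range_succ, Finset.sum_range_succ, Finset.sum_range_succ,
          Finset.sum_range_succ, ih, if_neg (by omega), if_pos (by omega), if_neg (by omega),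
          if_pos (by omega)]
        decide
    rw [← Finset.sum_congr rfl (g := fun i => gg K i)
      (f := fun i => if i % 2 = 0 then (1 : ZMod 2) else 0) ?_, h2 m] at hev
    · exact absurd hev (by decide)
    · intro i hi
      have h4 := Finset.mem_range.mp hi
      by_cases h5 : i % 2 = 0
      · rw [if_pos h5, show i = 2 * (i / 2) by omega, heven _ (by omega)]
      · rw [if_neg h5, show i = 2 * (i / 2) + 1 by omega, hodd]

/-- length divisible by three, second root at a distance congruent to 1 modulo 3 -/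
theorem path_three (m k : ℕ) (hk : k % 3 = 1) (hkl : k ≤ 3 * m) :
    ¬ Inherent (pathGraph (3 * m + 1)) (⟨0, by omega⟩ : Fin (3 * m + 1)) ⟨k, by omega⟩ := by
  classical
  refine orth_criterion _ _ _
    (Finset.univ.filter fun v : Fin (3 * m + 1) => v.val % 3 ≠ 1) (fun w => ?_) ?_ ?_ ?_
  · rw [← odd_iff_cast, nbc_path, gg_filter (fun i => i % 3 ≠ 1),
      gg_filter (fun i => i % 3 ≠ 1), gg_filter (fun i => i % 3 ≠ 1)]
    have hw := w.2
    rw [Fin.ext_iff]
    show _ ↔ w.val = 0
    by_cases h1 : w.val = 0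
    · rw [if_pos h1, if_pos ⟨by omega, by omega⟩, if_neg (by omega)]
      exact ⟨fun _ => h1, fun _ => by decide⟩
    · rw [if_neg h1]
      by_cases h2 : w.val = 3 * m
      · rw [if_pos ⟨by omega, by omega⟩, if_pos ⟨by omega, by omega⟩, if_neg (by omega)]
        exact ⟨fun h3 => absurd h3 (by decide), fun h3 => absurd h3 h1⟩
      · rcases (show w.val % 3 = 0 ∨ w.val % 3 = 1 ∨ w.val % 3 = 2 by omega) with h3 | h3 | h3
        · rw [if_pos ⟨by omega, by omega⟩, if_pos ⟨by omega, by omega⟩, if_neg (by omega)]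
          exact ⟨fun h3 => absurd h3 (by decide), fun h3 => absurd h3 h1⟩
        · rw [if_pos ⟨by omega, by omega⟩, if_neg (by omega), if_pos ⟨by omega, by omega⟩]
          exact ⟨fun h3 => absurd h3 (by decide), fun h3 => absurd h3 h1⟩
        · rw [if_neg (by omega), if_pos ⟨by omega, by omega⟩, if_pos ⟨by omega, by omega⟩]
          exact ⟨fun h3 => absurd h3 (by decide), fun h3 => absurd h3 h1⟩
  · rw [Finset.mem_filter]
    exact ⟨Finset.mem_univ _, show (0 : ℕ) % 3 ≠ 1 by decide⟩
  · rw [Finset.mem_filter]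
    rintro ⟨-, h1⟩
    exact h1 hk
  · intro K hK hkK
    have hstep : ∀ w : Fin (3 * m + 1), (if w.val = 0 then 0 else gg K (w.val - 1)) +
        gg K w.val + gg K (w.val + 1) = 0 := by
      intro w
      rw [← nbc_path, even_iff_cast]
      exact hK w
    have hper : ∀ r, r ≤ m → gg K (3 * r) = gg K 0 ∧ gg K (3 * r + 1) = (if r < m then gg K 0 else 0)
        ∧ (1 ≤ r → gg K (3 * r - 1) = 0) := by
      intro r
      induction r with
      | zero =>
        intro _
        refine ⟨rfl, ?_, fun h => by omega⟩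
        by_cases hm : 0 < m
        · rw [if_pos hm]
          have h1 := hstep ⟨0, by omega⟩
          rw [if_pos rfl, zero_add] at h1
          change gg K 0 + gg K 1 = 0 at h1
          show gg K 1 = gg K 0
          generalize gg K 0 = x at h1
          generalize gg K 1 = y at h1
          revert x y
          decide
        · rw [if_neg hm]
          exact gg_large K (by omega)
      | succ r ih =>
        intro hr
        obtain ⟨h1, h2, -⟩ := ih (by omega)
        rw [if_pos (by omega)] at h2
        have h3 := hstep ⟨3 * r + 1, by omega⟩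
        rw [if_neg (show ¬ 3 * r + 1 = 0 by omega)] at h3
        change gg K (3 * r) + gg K (3 * r + 1) + gg K (3 * r + 2) = 0 at h3
        rw [h1, h2] at h3
        have h4 : gg K (3 * r + 2) = 0 := by
          rw [zmod2_add_self, zero_add] at h3
          exact h3
        have h5 := hstep ⟨3 * r + 2, by omega⟩
        rw [if_neg (show ¬ 3 * r + 2 = 0 by omega)] at h5
        change gg K (3 * r + 1) + gg K (3 * r + 2) + gg K (3 * (r + 1)) = 0 at h5
        rw [h2, h4, add_zero] at h5
        have h6 : gg K (3 * (r + 1)) = gg K 0 := by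
          generalize gg K 0 = x at h5
          generalize gg K (3 * (r + 1)) = y at h5
          revert x y
          decide
        refine ⟨h6, ?_, fun _ => ?_⟩
        · by_cases hm : r + 1 < m
          · rw [if_pos hm]
            have h7 := hstep ⟨3 * (r + 1), by omega⟩
            rw [if_neg (show ¬ 3 * (r + 1) = 0 by omega)] at h7
            change gg K (3 * r + 2) + gg K (3 * (r + 1)) + gg K (3 * (r + 1) + 1) = 0 at h7
            rw [h4, h6, zero_add] at h7
            generalize gg K 0 = x at h7
            generalize gg K (3 * (r + 1) + 1) = y at h7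
            revert x y
            decide
          · rw [if_neg hm]
            exact gg_large K (by omega)
        · rw [show 3 * (r + 1) - 1 = 3 * r + 2 by omega]
          exact h4
    have hm1 : 1 ≤ m := by omega
    have h0 : gg K 0 = 0 := by
      obtain ⟨h1, -, h2⟩ := hper m le_rfl
      have h3 := hstep ⟨3 * m, by omega⟩
      rw [if_neg (show ¬ 3 * m = 0 by omega)] at h3
      change gg K (3 * m - 1) + gg K (3 * m) + gg K (3 * m + 1) = 0 at h3
      rw [h2 hm1, h1, gg_large K (show 3 * m < 3 * m + 1 by omega), zero_add, add_zero] at h3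
      exact h3
    have h1 := (hper (k / 3) (by omega)).2.1
    rw [h0, ite_self, show 3 * (k / 3) + 1 = k by omega] at h1
    have h2 := (gg_mem (⟨k, by omega⟩ : Fin (3 * m + 1))).mpr hkK
    change gg K k = 1 at h2
    rw [h1] at h2
    exact absurd h2 (by decide)

end Pool.Agent.H17.Inh
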