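import Pool.Agent.H17.Inh.Plane

/-!
# Paths, continued
-/

namespace Pool.Agent.H17.Inh

open SimpleGraph Finset

theorem card_filter_fin (l : ℕ) (P : ℕ → Prop) [DecidablePred P] :
    (Finset.univ.filter fun v : Fin (l + 1) => P v.val).card =
      ∑ i ∈ Finset.range (l + 1), if P i then 1 else 0 := by
  rw [Finset.card_filter, ← Fin.sum_univ_eq_sum_range (fun i => if P i then 1 else 0) (l + 1)]

theorem ed_parity {l : ℕ} (K : Finset (Fin (l + 1))) (c : ℕ) (hK : ∀ v ∈ K, v.val % 2 = c) :
    ed (pathGraph (l + 1)) K = 0 := by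
  have h1 : {p : Fin (l + 1) × Fin (l + 1) | p.1 ∈ K ∧ p.2 ∈ K ∧ p.1 < p.2 ∧
      (pathGraph (l + 1)).Adj p.1 p.2} = ∅ := by
    ext p
    constructor
    · rintro ⟨h1, h2, -, h3⟩
      have h4 := hK _ h1
      have h5 := hK _ h2
      rcases (pathGraph_adj' _ _).mp h3 with h6 | h6 <;> omega
    · intro h
      exact absurd h (Set.notMem_empty p)
  rw [ed, h1, Set.ncard_empty]

/-- the dual set of the first vertex of a path with an even number of vertices -/
theorem dual_first (l : ℕ) (hl : l % 2 = 1) (w : Fin (l + 1)) :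
    Odd (nb (pathGraph (l + 1)) (Finset.univ.filter fun v => v.val % 2 = 1) w) ↔ w = ⟨0, by omega⟩
    := by
  rw [← odd_iff_cast, nb_path, gg_filter (fun i => i % 2 = 1), gg_filter (fun i => i % 2 = 1)]
  have hw := w.2
  rw [Fin.ext_iff]
  show _ ↔ w.val = 0
  by_cases h1 : w.val = 0
  · rw [if_pos h1, if_pos ⟨by omega, by omega⟩]
    exact ⟨fun _ => h1, fun _ => by decide⟩
  · rw [if_neg h1]
    by_cases h2 : w.val % 2 = 0
    · rw [if_pos ⟨by omega, by omega⟩, if_pos ⟨by omega, by omega⟩]
      exact ⟨fun h3 => absurd h3 (by decide), fun h3 => absurd h3 h1⟩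
    · rw [if_neg (by omega), if_neg (by omega)]
      exact ⟨fun h3 => absurd h3 (by decide), fun h3 => absurd h3 h1⟩

/-- the dual set of an odd vertex of a path with an even number of vertices -/
theorem dual_odd (l k : ℕ) (hl : l % 2 = 1) (hk : k % 2 = 1) (hkl : k ≤ l) (w : Fin (l + 1)) :
    Odd (nb (pathGraph (l + 1)) (Finset.univ.filter fun v => v.val % 2 = 0 ∧ v.val < k) w) ↔
      w = ⟨k, by omega⟩ := by
  rw [← odd_iff_cast, nb_path, gg_filter (fun i => i % 2 = 0 ∧ i < k),
    gg_filter (fun i => i % 2 = 0 ∧ i < k)]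
  have hw := w.2
  rw [Fin.ext_iff]
  show _ ↔ w.val = k
  by_cases h1 : w.val = k
  · rw [if_neg (show ¬ w.val = 0 by omega), if_pos (by omega), if_neg (by omega)]
    exact ⟨fun _ => h1, fun _ => by decide⟩
  · by_cases h0 : w.val = 0
    · rw [if_pos h0, if_neg (by omega)]
      exact ⟨fun h3 => absurd h3 (by decide), fun h3 => absurd h3 h1⟩
    · rw [if_neg h0]
      by_cases h2 : w.val % 2 = 1 ∧ w.val < k
      · rw [if_pos (by omega), if_pos (by omega)]
        exact ⟨fun h3 => absurd h3 (by decide), fun h3 => absurd h3 h1⟩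
      · rw [if_neg (by omega), if_neg (by omega)]
        exact ⟨fun h3 => absurd h3 (by decide), fun h3 => absurd h3 h1⟩

/-- a path with an even number of vertices has no nonempty even set -/
theorem path_nonsing (l : ℕ) (hl : l % 2 = 1) (K : Finset (Fin (l + 1)))
    (hK : ∀ w, Even (nb (pathGraph (l + 1)) K w)) : K = ∅ := by
  have hstep : ∀ w : Fin (l + 1), (if w.val = 0 then 0 else gg K (w.val - 1)) +
      gg K (w.val + 1) = 0 := by
    intro w
    rw [← nb_path, even_iff_cast]
    exact hK w
  have heven : ∀ j, 2 * j + 1 ≤ l → gg K (l - (2 * j + 1)) = 0 := by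
    intro j
    induction j with
    | zero =>
      intro _
      have h1 := hstep ⟨l, by omega⟩
      rw [if_neg (show ¬ l = 0 by omega), gg_large K (show l < l + 1 by omega), add_zero] at h1
      exact h1
    | succ j ih =>
      intro hj
      have h1 := hstep ⟨l - (2 * j + 2), by omega⟩
      have h2 := ih (by omega)
      have e1 : l - (2 * j + 2) + 1 = l - (2 * j + 1) := by omega
      have e2 : l - (2 * j + 2) - 1 = l - (2 * (j + 1) + 1) := by omega
      rw [if_neg (show ¬ l - (2 * j + 2) = 0 by omega)] at h1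
      change gg K (l - (2 * j + 2) - 1) + gg K (l - (2 * j + 2) + 1) = 0 at h1
      rw [e1, e2, h2, add_zero] at h1
      exact h1
  have hodd : ∀ i, 2 * i + 1 ≤ l → gg K (2 * i + 1) = 0 := by
    intro i
    induction i with
    | zero =>
      intro _
      have h1 := hstep ⟨0, by omega⟩
      rw [if_pos rfl, zero_add] at h1
      exact h1
    | succ i ih =>
      intro hi
      have h1 := hstep ⟨2 * i + 2, by omega⟩
      have h2 := ih (by omega)
      rw [if_neg (show ¬ 2 * i + 2 = 0 by omega)] at h1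
      change gg K (2 * i + 1) + gg K (2 * (i + 1) + 1) = 0 at h1
      rw [h2, zero_add] at h1
      exact h1
  rw [Finset.eq_empty_iff_forall_notMem]
  intro v hv
  have h1 := (gg_mem v).mpr hv
  have hv2 := v.2
  by_cases h2 : v.val % 2 = 1
  · rw [show v.val = 2 * (v.val / 2) + 1 by omega, hodd _ (by omega)] at h1
    exact absurd h1 (by decide)
  · rw [show v.val = l - (2 * ((l - v.val) / 2) + 1) by omega, heven _ (by omega)] at h1
    exact absurd h1 (by decide)

theorem sum_odd (N : ℕ) : ∑ i ∈ Finset.range N, (if i % 2 = 1 then 1 else 0) = N / 2 := by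
  induction N with
  | zero => rfl
  | succ N ih =>
    rw [Finset.sum_range_succ, ih]
    by_cases h : N % 2 = 1
    · rw [if_pos h]
      omega
    · rw [if_neg h]
      omega

theorem sum_even_lt (k N : ℕ) : ∑ i ∈ Finset.range N, (if i % 2 = 0 ∧ i < k then 1 else 0) =
    if N ≤ k then (N + 1) / 2 else (k + 1) / 2 := by
  induction N with
  | zero => simp
  | succ N ih =>
    rw [Finset.sum_range_succ, ih]
    by_cases h : N % 2 = 0 ∧ N < k
    · rw [if_pos h]
      split_ifs <;> omega
    · rw [if_neg h]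
      split_ifs <;> omega

/-- odd length, second root at an odd distance, two modulo four from the other end -/
theorem path_plane (l k : ℕ) (hl : l % 2 = 1) (hk : k % 2 = 1) (hkl : k ≤ l)
    (h4 : (l - k) % 4 = 2) :
    ¬ Inherent (pathGraph (l + 1)) (⟨0, by omega⟩ : Fin (l + 1)) ⟨k, by omega⟩ := by
  refine plane_criterion _ _ _ (Finset.univ.filter fun v => v.val % 2 = 1)
    (Finset.univ.filter fun v => v.val % 2 = 0 ∧ v.val < k) (path_nonsing l hl)
    (dual_first l hl) (dual_odd l k hl hk hkl) ?_ ?_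
  · rw [Finset.mem_filter]
    exact ⟨Finset.mem_univ _, hk⟩
  · rw [ed_parity _ 1 (fun v hv => (Finset.mem_filter.mp hv).2),
      ed_parity _ 0 (fun v hv => (Finset.mem_filter.mp hv).2.1), add_zero, add_zero,
      card_filter_fin l (fun i => i % 2 = 1), card_filter_fin l (fun i => i % 2 = 0 ∧ i < k),
      sum_odd, sum_even_lt, if_neg (by omega)]
    omega

end Pool.Agent.H17.Inh
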