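import Pool.Agent.H17.Inh.Corank

/-!
# Paths of length divisible by four
-/

namespace Pool.Agent.H17.Inh

open SimpleGraph Finset

/-- an even set of a path with an odd number of vertices is empty or consists of all vertices of
even index -/
theorem path_sing (l : ℕ) (hl : l % 2 = 0) (K : Finset (Fin (l + 1)))
    (hK : ∀ w, Even (nb (pathGraph (l + 1)) K w)) :
    K = ∅ ∨ K = Finset.univ.filter fun v => v.val % 2 = 0 := by
  have hstep : ∀ w : Fin (l + 1), (if w.val = 0 then 0 else gg K (w.val - 1)) +
      gg K (w.val + 1) = 0 := by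
    intro w
    rw [← nb_path, even_iff_cast]
    exact hK w
  have hodd : ∀ i, gg K (2 * i + 1) = 0 := by
    intro i
    by_cases hi : 2 * i + 1 ≤ l
    · induction i with
      | zero =>
        have h1 := hstep ⟨0, by omega⟩
        rw [if_pos rfl, zero_add] at h1
        exact h1
      | succ i ih =>
        have h1 := hstep ⟨2 * i + 2, by omega⟩
        have h2 := ih (by omega)
        rw [if_neg (show ¬ 2 * i + 2 = 0 by omega)] at h1
        change gg K (2 * i + 1) + gg K (2 * (i + 1) + 1) = 0 at h1
        rw [h2, zero_add] at h1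
        exact h1
    · exact gg_large K (by omega)
  have heven : ∀ i, 2 * i ≤ l → gg K (2 * i) = gg K 0 := by
    intro i
    induction i with
    | zero => exact fun _ => rfl
    | succ i ih =>
      intro hi
      have h1 := hstep ⟨2 * i + 1, by omega⟩
      have h2 := ih (by omega)
      rw [if_neg (show ¬ 2 * i + 1 = 0 by omega)] at h1
      change gg K (2 * i) + gg K (2 * (i + 1)) = 0 at h1
      rw [h2] at h1
      generalize gg K 0 = x at h1
      generalize gg K (2 * (i + 1)) = y at h1
      revert x y
      decide
  rcases zmod2_cases (gg K 0) with h0 | h0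
  · left
    rw [Finset.eq_empty_iff_forall_notMem]
    intro v hv
    have h1 := (gg_mem v).mpr hv
    have hv2 := v.2
    by_cases h2 : v.val % 2 = 1
    · rw [show v.val = 2 * (v.val / 2) + 1 by omega, hodd] at h1
      exact absurd h1 (by decide)
    · rw [show v.val = 2 * (v.val / 2) by omega, heven _ (by omega), h0] at h1
      exact absurd h1 (by decide)
  · right
    ext v
    have hv2 := v.2
    rw [Finset.mem_filter, ← gg_mem]
    by_cases h2 : v.val % 2 = 1
    · rw [show gg K v.val = 0 by
        rw [show v.val = 2 * (v.val / 2) + 1 by omega, hodd]]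
      exact ⟨fun h3 => absurd h3 (by decide), fun h3 => absurd h3.2 (by omega)⟩
    · rw [show gg K v.val = 1 by
        rw [show v.val = 2 * (v.val / 2) by omega, heven _ (by omega), h0]]
      exact ⟨fun _ => ⟨Finset.mem_univ _, by omega⟩, fun _ => rfl⟩

theorem sum_even (N : ℕ) : ∑ i ∈ Finset.range N, (if i % 2 = 0 then 1 else 0) = (N + 1) / 2 := by
  induction N with
  | zero => rfl
  | succ N ih =>
    rw [Finset.sum_range_succ, ih]
    by_cases h : N % 2 = 0
    · rw [if_pos h]
      omega
    · rw [if_neg h]
      omega

/-- length divisible by four, second root at an odd distance -/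
theorem path_four_odd (m k : ℕ) (hk : k % 2 = 1) (hkl : k ≤ 4 * m) :
    ¬ Inherent (pathGraph (4 * m + 1)) (⟨0, by omega⟩ : Fin (4 * m + 1)) ⟨k, by omega⟩ := by
  refine corank_criterion _ _ _ (Finset.univ.filter fun v => v.val % 2 = 0) (fun w => ?_)
    (fun K hK => path_sing (4 * m) (by omega) K hK) ?_ ?_ ?_
  · have hw := w.2
    rw [← even_iff_cast, nb_path, gg_filter (fun i => i % 2 = 0), gg_filter (fun i => i % 2 = 0)]
    by_cases h0 : w.val = 0
    · rw [if_pos h0, if_neg (by omega)]
      decide
    · rw [if_neg h0]
      by_cases h2 : w.val % 2 = 1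
      · rw [if_pos (by omega), if_pos (by omega)]
        decide
      · rw [if_neg (by omega), if_neg (by omega)]
        decide
  · rw [Finset.mem_filter]
    exact ⟨Finset.mem_univ _, show (0 : ℕ) % 2 = 0 by decide⟩
  · rw [Finset.mem_filter]
    rintro ⟨-, h1⟩
    have h2 : k % 2 = 0 := h1
    omega
  · rw [ed_parity _ 0 (fun v hv => (Finset.mem_filter.mp hv).2), add_zero,
      card_filter_fin (4 * m) (fun i => i % 2 = 0), sum_even, Nat.odd_iff]
    omega

end Pool.Agent.H17.Inh
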