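import Pool.Agent.H17.Inh.Z4b

/-!
# Paths of length congruent to two modulo three, and the combined criteria
-/

namespace Pool.Agent.H17.Inh

open SimpleGraph Finset

theorem ed_path {l : ℕ} (K : Finset (Fin (l + 1))) :
    ((ed (pathGraph (l + 1)) K : ℕ) : ZMod 2) =
      ∑ i ∈ Finset.range (l + 1), gg K i * gg K (i + 1) := by
  classical
  rw [ed_eq, ← gg_sum K (fun i => gg K (i + 1))]
  refine Finset.sum_congr rfl fun v _ => ?_
  rw [← range_single K (v.val + 1), ← gg_sum K (fun i : ℕ => if i = v.val + 1 then (1 : ZMod 2) else 0)]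
  refine Finset.sum_congr rfl fun w _ => ?_
  by_cases h1 : w.val = v.val + 1
  · rw [if_pos h1, if_pos]
    refine ⟨?_, (pathGraph_adj' v w).mpr (Or.inl h1.symm)⟩
    rw [Fin.lt_def]
    omega
  · rw [if_neg h1, if_neg]
    rintro ⟨h2, h3⟩
    rw [Fin.lt_def] at h2
    rcases (pathGraph_adj' v w).mp h3 with h4 | h4 <;> omega

/-- the dual sets -/
theorem dual_three (m j : ℕ) (hj : j ≤ m) (w : Fin (3 * m + 2 + 1)) :
    Odd (nbc (pathGraph (3 * m + 2 + 1))
      (Finset.univ.filter fun v => 3 * j < v.val ∧ v.val % 3 ≠ 0) w) ↔ w = ⟨3 * j, by omega⟩ := by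
  rw [← odd_iff_cast, nbc_path, gg_filter (fun i => 3 * j < i ∧ i % 3 ≠ 0),
    gg_filter (fun i => 3 * j < i ∧ i % 3 ≠ 0), gg_filter (fun i => 3 * j < i ∧ i % 3 ≠ 0)]
  have hw := w.2
  rw [Fin.ext_iff]
  show _ ↔ w.val = 3 * j
  by_cases h1 : w.val = 3 * j
  · rw [if_neg (show ¬ ((3 * j < w.val ∧ w.val % 3 ≠ 0) ∧ w.val ≤ 3 * m + 2) by omega),
      if_pos (show (3 * j < w.val + 1 ∧ (w.val + 1) % 3 ≠ 0) ∧ w.val + 1 ≤ 3 * m + 2 by omega)]
    refine ⟨fun _ => h1, fun _ => ?_⟩
    by_cases h2 : w.val = 0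
    · rw [if_pos h2]
      decide
    · rw [if_neg h2, if_neg (by omega)]
      decide
  · refine ⟨fun h => absurd h ?_, fun h => absurd h h1⟩
    by_cases h2 : w.val < 3 * j
    · rw [if_neg (show ¬ ((3 * j < w.val ∧ w.val % 3 ≠ 0) ∧ w.val ≤ 3 * m + 2) by omega),
        if_neg (show ¬ ((3 * j < w.val + 1 ∧ (w.val + 1) % 3 ≠ 0) ∧ w.val + 1 ≤ 3 * m + 2) by
          omega)]
      by_cases h3 : w.val = 0
      · rw [if_pos h3]
        decide
      · rw [if_neg h3, if_neg (by omega)]
        decide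
    · rw [if_neg (show ¬ w.val = 0 by omega)]
      by_cases h4 : w.val = 3 * m + 2
      · rw [if_pos (by omega), if_pos (by omega), if_neg (by omega)]
        decide
      · rcases (show w.val % 3 = 0 ∨ w.val % 3 = 1 ∨ w.val % 3 = 2 by omega) with h3 | h3 | h3
        · rw [if_pos (by omega), if_neg (by omega), if_pos (by omega)]
          decide
        · rw [if_neg (by omega), if_pos (by omega), if_pos (by omega)]
          decide
        · rw [if_pos (by omega), if_pos (by omega), if_neg (by omega)]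
          decide

/-- a path of length congruent to two modulo three has no nonempty set which is even for the
closed neighbourhoods -/
theorem path_nonsingC (m : ℕ) (K : Finset (Fin (3 * m + 2 + 1)))
    (hK : ∀ w, Even (nbc (pathGraph (3 * m + 2 + 1)) K w)) : K = ∅ := by
  have hstep : ∀ w : Fin (3 * m + 2 + 1), (if w.val = 0 then 0 else gg K (w.val - 1)) +
      gg K w.val + gg K (w.val + 1) = 0 := by
    intro w
    rw [← nbc_path, even_iff_cast]
    exact hK w
  have hxx : ∀ x y : ZMod 2, x + y = 0 → y = x := by decide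
  have hper : ∀ r, r ≤ m → gg K (3 * r) = gg K 0 ∧ gg K (3 * r + 1) = gg K 0 ∧
      gg K (3 * r + 2) = 0 := by
    intro r
    induction r with
    | zero =>
      intro _
      have h1 := hstep ⟨0, by omega⟩
      rw [if_pos rfl, zero_add] at h1
      change gg K 0 + gg K 1 = 0 at h1
      have h2 := hxx _ _ h1
      have h3 := hstep ⟨1, by omega⟩
      rw [if_neg (show ¬ 1 = 0 by omega)] at h3
      change gg K 0 + gg K 1 + gg K 2 = 0 at h3
      rw [h1, zero_add] at h3
      exact ⟨rfl, h2, h3⟩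
    | succ r ih =>
      intro hr
      obtain ⟨h1, h2, h3⟩ := ih (by omega)
      have h4 := hstep ⟨3 * r + 2, by omega⟩
      rw [if_neg (show ¬ 3 * r + 2 = 0 by omega)] at h4
      change gg K (3 * r + 1) + gg K (3 * r + 2) + gg K (3 * (r + 1)) = 0 at h4
      rw [h2, h3, add_zero] at h4
      have h5 := hxx _ _ h4
      have h6 := hstep ⟨3 * (r + 1), by omega⟩
      rw [if_neg (show ¬ 3 * (r + 1) = 0 by omega)] at h6
      change gg K (3 * r + 2) + gg K (3 * (r + 1)) + gg K (3 * (r + 1) + 1) = 0 at h6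
      rw [h3, h5, zero_add] at h6
      have h7 := hxx _ _ h6
      have h8 := hstep ⟨3 * (r + 1) + 1, by omega⟩
      rw [if_neg (show ¬ 3 * (r + 1) + 1 = 0 by omega)] at h8
      change gg K (3 * (r + 1)) + gg K (3 * (r + 1) + 1) + gg K (3 * (r + 1) + 2) = 0 at h8
      rw [h5, h7, zmod2_add_self, zero_add] at h8
      exact ⟨h5, h7, h8⟩
  have h0 : gg K 0 = 0 := by
    obtain ⟨-, h2, h3⟩ := hper m le_rfl
    have h4 := hstep ⟨3 * m + 2, by omega⟩
    rw [if_neg (show ¬ 3 * m + 2 = 0 by omega)] at h4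
    change gg K (3 * m + 1) + gg K (3 * m + 2) + gg K (3 * m + 2 + 1) = 0 at h4
    rw [h2, h3, gg_large K (show 3 * m + 2 < 3 * m + 2 + 1 by omega), add_zero, add_zero] at h4
    exact h4
  rw [Finset.eq_empty_iff_forall_notMem]
  intro v hv
  have h1 := (gg_mem v).mpr hv
  have hv2 := v.2
  obtain ⟨h2, h3, h4⟩ := hper (v.val / 3) (by omega)
  rw [h0] at h2 h3
  rcases (show v.val % 3 = 0 ∨ v.val % 3 = 1 ∨ v.val % 3 = 2 by omega) with h5 | h5 | h5
  · rw [show v.val = 3 * (v.val / 3) by omega, h2] at h1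
    exact absurd h1 (by decide)
  · rw [show v.val = 3 * (v.val / 3) + 1 by omega, h3] at h1
    exact absurd h1 (by decide)
  · rw [show v.val = 3 * (v.val / 3) + 2 by omega, h4] at h1
    exact absurd h1 (by decide)

/-- the value of the form with values modulo four -/
theorem form_three (m j : ℕ) (hj : j ≤ m) :
    ((Finset.univ.filter fun v : Fin (3 * m + 2 + 1) => 3 * j < v.val ∧ v.val % 3 ≠ 0).card +
      2 * ed (pathGraph (3 * m + 2 + 1))
        (Finset.univ.filter fun v => 3 * j < v.val ∧ v.val % 3 ≠ 0)) % 4 = 0 := by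
  obtain ⟨r, rfl⟩ : ∃ r, m = j + r := ⟨m - j, by omega⟩
  have h1 : (Finset.univ.filter fun v : Fin (3 * (j + r) + 2 + 1) =>
      3 * j < v.val ∧ v.val % 3 ≠ 0).card = 2 * (r + 1) := by
    rw [card_filter_fin (3 * (j + r) + 2) (fun i => 3 * j < i ∧ i % 3 ≠ 0)]
    clear hj
    induction r with
    | zero =>
      rw [show 3 * (j + 0) + 2 + 1 = 3 * j + 1 + 1 + 1 by ring, Finset.sum_range_succ,
        Finset.sum_range_succ, Finset.sum_eq_zero]
      · rw [if_pos (by omega), if_pos (by omega)]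
      · intro i hi
        have := Finset.mem_range.mp hi
        rw [if_neg (by omega)]
    | succ r ih =>
      rw [show 3 * (j + (r + 1)) + 2 + 1 = 3 * (j + r) + 2 + 1 + 1 + 1 + 1 by ring,
        Finset.sum_range_succ, Finset.sum_range_succ, Finset.sum_range_succ, ih,
        if_neg (by omega), if_pos (by omega), if_pos (by omega)]
      ring
  have h2 : ((ed (pathGraph (3 * (j + r) + 2 + 1))
      (Finset.univ.filter fun v => 3 * j < v.val ∧ v.val % 3 ≠ 0) : ℕ) : ZMod 2) =
        ((r + 1 : ℕ) : ZMod 2) := by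
    rw [ed_path]
    have h3 : ∀ N : ℕ, ∑ i ∈ Finset.range (3 * (j + N) + 2 + 1),
        ((if 3 * j < i ∧ i % 3 = 1 then (1 : ZMod 2) else 0)) = ((N + 1 : ℕ) : ZMod 2) := by
      intro N
      induction N with
      | zero =>
        rw [show 3 * (j + 0) + 2 + 1 = 3 * j + 1 + 1 + 1 by ring, Finset.sum_range_succ,
          Finset.sum_range_succ, Finset.sum_eq_zero]
        · rw [if_pos (by omega), if_neg (by omega)]
          decide
        · intro i hi
          have := Finset.mem_range.mp hi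
          rw [if_neg (by omega)]
      | succ N ih =>
        rw [show 3 * (j + (N + 1)) + 2 + 1 = 3 * (j + N) + 2 + 1 + 1 + 1 + 1 by ring,
          Finset.sum_range_succ, Finset.sum_range_succ, Finset.sum_range_succ, ih,
          if_neg (by omega), if_pos (by omega), if_neg (by omega)]
        push_cast
        ring
    rw [← h3 r]
    refine Finset.sum_congr rfl fun i hi => ?_
    have hi' := Finset.mem_range.mp hi
    rw [gg_filter (fun i => 3 * j < i ∧ i % 3 ≠ 0), gg_filter (fun i => 3 * j < i ∧ i % 3 ≠ 0)]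
    by_cases h4 : 3 * j < i ∧ i % 3 = 1
    · rw [if_pos h4, if_pos (by omega), if_pos (by omega), one_mul]
    · rw [if_neg h4]
      by_cases h5 : 3 * j < i ∧ i % 3 ≠ 0
      · rw [if_pos (by omega), if_neg (by omega), mul_zero]
      · rw [if_neg (fun h6 => h5 h6.1), zero_mul]
  rw [h1]
  have h3 := (ZMod.natCast_eq_natCast_iff' _ _ 2).mp h2
  omega

/-- length congruent to two modulo three, second root at a distance divisible by three -/
theorem path_two_zero (m j : ℕ) (hj : j ≤ m) :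
    ¬ Inherent (pathGraph (3 * m + 2 + 1)) (⟨0, by omega⟩ : Fin (3 * m + 2 + 1))
      ⟨3 * j, by omega⟩ := by
  refine z4_criterion _ _ _ (Finset.univ.filter fun v => 3 * 0 < v.val ∧ v.val % 3 ≠ 0)
    (Finset.univ.filter fun v => 3 * j < v.val ∧ v.val % 3 ≠ 0) (path_nonsingC m)
    (dual_three m 0 (by omega)) (dual_three m j hj) ?_ ?_ ?_
  · rw [Finset.mem_filter]
    rintro ⟨-, h1, -⟩
    exact absurd h1 (Nat.not_lt_zero _)
  · rw [Finset.mem_filter]
    rintro ⟨-, -, h1⟩
    exact h1 (show 3 * j % 3 = 0 by omega)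
  · rw [form_three m 0 (by omega), form_three m j hj]

/-- duality for the closed neighbourhoods -/
theorem mem_iff_memC {n : ℕ} {H : SimpleGraph (Fin n)} {s t : Fin n} {S T : Finset (Fin n)}
    (hS : ∀ w, Odd (nbc H S w) ↔ w = s) (hT : ∀ w, Odd (nbc H T w) ↔ w = t) :
    t ∈ S ↔ s ∈ T := by
  classical
  have h1 : ∀ (s : Fin n) (S T : Finset (Fin n)), (∀ w, Odd (nbc H S w) ↔ w = s) →
      ∑ v ∈ T, ((nbc H S v : ℕ) : ZMod 2) = if s ∈ T then 1 else 0 := by
    intro s S T hS
    have h2 : ∀ v, ((nbc H S v : ℕ) : ZMod 2) = if v = s then 1 else 0 := by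
      intro v
      by_cases h3 : v = s
      · rw [if_pos h3, odd_iff_cast, hS]
        exact h3
      · rw [if_neg h3]
        exact zmod2_ne_one fun h4 => h3 ((hS v).mp ((odd_iff_cast _).mp h4))
    rw [Finset.sum_congr rfl fun v _ => h2 v]
    simp
  have h2 := h1 s S T hS
  have h3 := h1 t T S hT
  have h4 : ∑ v ∈ T, ((nbc H S v : ℕ) : ZMod 2) = ∑ v ∈ S, ((nbc H T v : ℕ) : ZMod 2) := by
    simp only [nbc_eq]
    rw [Finset.sum_comm]
    refine Finset.sum_congr rfl fun v _ => Finset.sum_congr rfl fun w _ => ?_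
    by_cases h5 : v = w ∨ H.Adj v w
    · rw [if_pos h5, if_pos (h5.imp Eq.symm SimpleGraph.Adj.symm)]
    · rw [if_neg h5, if_neg fun h6 => h5 (h6.imp Eq.symm SimpleGraph.Adj.symm)]
  rw [h2, h3] at h4
  by_cases h5 : t ∈ S <;> by_cases h6 : s ∈ T
  · exact ⟨fun _ => h6, fun _ => h5⟩
  · rw [if_pos h5, if_neg h6] at h4
    exact absurd h4 (by decide)
  · rw [if_neg h5, if_pos h6] at h4
    exact absurd h4 (by decide)
  · exact ⟨fun h => absurd h h5, fun h => absurd h h6⟩

/-- a vertex with a dual set is in no even set -/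
theorem even_notMem {n : ℕ} {H : SimpleGraph (Fin n)} {t : Fin n} {T : Finset (Fin n)}
    (hT : ∀ w, Odd (nb H T w) ↔ w = t) (K : Finset (Fin n)) (hK : ∀ w, Even (nb H K w)) :
    t ∉ K := by
  classical
  intro ht
  have h2 : ∀ v, ((nb H T v : ℕ) : ZMod 2) = if v = t then 1 else 0 := by
    intro v
    by_cases h3 : v = t
    · rw [if_pos h3, odd_iff_cast, hT]
      exact h3
    · rw [if_neg h3]
      exact zmod2_ne_one fun h4 => h3 ((hT v).mp ((odd_iff_cast _).mp h4))
  have h4 : ∑ v ∈ K, ((nb H T v : ℕ) : ZMod 2) = ∑ v ∈ T, ((nb H K v : ℕ) : ZMod 2) := by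
    simp only [nb_eq]
    rw [Finset.sum_comm]
    refine Finset.sum_congr rfl fun v _ => Finset.sum_congr rfl fun w _ => ?_
    by_cases h5 : H.Adj v w
    · rw [if_pos h5, if_pos h5.symm]
    · rw [if_neg h5, if_neg fun h6 => h5 h6.symm]
  rw [Finset.sum_congr rfl fun v _ => h2 v,
    Finset.sum_eq_zero (s := T) fun v _ => (even_iff_cast _).mpr (hK v)] at h4
  simp [ht] at h4

/-- the combined criterion for the neighbourhoods -/
theorem open_criterion {n : ℕ} (H : SimpleGraph (Fin n)) (s t : Fin n) (S T : Finset (Fin n))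
    (hns : ∀ K : Finset (Fin n), (∀ w, Even (nb H K w)) → K = ∅)
    (hS : ∀ w, Odd (nb H S w) ↔ w = s) (hT : ∀ w, Odd (nb H T w) ↔ w = t)
    (h : t ∉ S ∨ (S.card + ed H S) % 2 ≠ (T.card + ed H T) % 2) : ¬ Inherent H s t := by
  by_cases hst : t ∈ S
  · exact plane_criterion H s t S T hns hS hT hst (h.resolve_left (not_not.mpr hst))
  · exact alt_criterion H s t S hS hst fun K hK ht => by
      rw [hns K hK] at ht
      exact Finset.notMem_empty t ht

/-- the combined criterion for the closed neighbourhoods -/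
theorem closed_criterion {n : ℕ} (H : SimpleGraph (Fin n)) (s t : Fin n) (S T : Finset (Fin n))
    (hns : ∀ K : Finset (Fin n), (∀ w, Even (nbc H K w)) → K = ∅)
    (hS : ∀ w, Odd (nbc H S w) ↔ w = s) (hT : ∀ w, Odd (nbc H T w) ↔ w = t) (htS : t ∉ S)
    (h : s ∈ S ∨ t ∈ T ∨ (S.card + 2 * ed H S) % 4 = (T.card + 2 * ed H T) % 4) :
    ¬ Inherent H s t := by
  have hno : ∀ x : Fin n, ∀ K : Finset (Fin n), (∀ w, Even (nbc H K w)) → x ∉ K := by
    intro x K hK hx
    rw [hns K hK] at hx
    exact Finset.notMem_empty x hx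
  by_cases h1 : s ∈ S
  · exact orth_criterion H s t S hS h1 htS (hno t)
  · rcases h with h2 | h2 | h2
    · exact absurd h2 h1
    · intro hin
      exact orth_criterion H t s T hT h2 (fun h3 => htS ((mem_iff_memC hS hT).mpr h3)) (hno s)
        (inherent_swap hin)
    · exact z4_criterion H s t S T hns hS hT h1 htS h2

end Pool.Agent.H17.Inh
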