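import Pool.Agent.H17.Inh.Paths

/-!
# The criterion from a quadratic space of dimension `n + 2`
-/

namespace Pool.Agent.H17.Inh

open SimpleGraph Finset

/-- the sign -/
def chi (x : ZMod 2) : ℤ := if x = 1 then -1 else 1

theorem chi_add (x y : ZMod 2) : chi (x + y) = chi x * chi y := by
  revert x y
  decide

theorem chi_zero : chi 0 = 1 := by decide

section quad

variable {V : Type} [AddCommGroup V] [Module (ZMod 2) V] [Fintype V]
  {B : V →ₗ[ZMod 2] V →ₗ[ZMod 2] ZMod 2} {Q : V → ZMod 2}

omit [Fintype V] in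
theorem Q_zero (hQ : ∀ u v, Q (u + v) = Q u + Q v + B u v) : Q 0 = 0 := by
  have h := hQ 0 0
  rw [add_zero, map_zero, add_zero] at h
  generalize Q 0 = x at h
  revert x
  decide

omit [Fintype V] in
theorem two_zero (u : V) : u + u = 0 := by
  rw [← two_smul (ZMod 2) u, show (2 : ZMod 2) = 0 by decide, zero_smul]

omit [Fintype V] in
theorem B_self (hQ : ∀ u v, Q (u + v) = Q u + Q v + B u v) (u : V) : B u u = 0 := by
  have h := hQ u u
  rw [two_zero, Q_zero hQ, zmod2_add_self, zero_add] at h
  exact h.symm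

omit [Fintype V] in
theorem B_symm (hQ : ∀ u v, Q (u + v) = Q u + Q v + B u v) (u v : V) : B u v = B v u := by
  have h1 := hQ u v
  have h2 := hQ v u
  rw [add_comm v u] at h2
  linear_combination h2 - h1

/-- the sum of the signs over the whole space is not zero -/
theorem gauss_ne_zero (hnd : Function.Injective B)
    (hQ : ∀ u v, Q (u + v) = Q u + Q v + B u v) : ∑ v, chi (Q v) ≠ 0 := by
  classical
  intro h0
  have h1 : (∑ u, chi (Q u)) * ∑ v, chi (Q v) = (Fintype.card V : ℤ) := by
    calc (∑ u, chi (Q u)) * ∑ v, chi (Q v) = ∑ u, ∑ v, chi (Q u) * chi (Q v) := by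
          rw [Finset.sum_mul_sum]
      _ = ∑ u, ∑ z, chi (Q z) * chi (B u z) := by
          refine Finset.sum_congr rfl fun u _ => ?_
          rw [← Equiv.sum_comp (Equiv.addLeft u)]
          refine Finset.sum_congr rfl fun z _ => ?_
          rw [Equiv.coe_addLeft, hQ, ← chi_add, ← chi_add]
          congr 1
          have h2 := zmod2_add_self (Q u)
          linear_combination h2
      _ = ∑ z, chi (Q z) * ∑ u, chi (B u z) := by
          rw [Finset.sum_comm]
          exact Finset.sum_congr rfl fun z _ => (Finset.mul_sum _ _ _).symm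
      _ = chi (Q 0) * ∑ u, chi (B u 0) := by
          refine Finset.sum_eq_single_of_mem 0 (Finset.mem_univ _) fun z _ hz => ?_
          obtain ⟨u0, hu0⟩ : ∃ u0, B u0 z = 1 := by
            by_contra hcon
            push Not at hcon
            refine hz (hnd ?_)
            rw [map_zero]
            ext u
            rw [B_symm hQ, LinearMap.zero_apply]
            exact zmod2_ne_one (hcon u)
          have h3 : ∑ u, chi (B u z) = -∑ u, chi (B u z) := by
            conv_lhs => rw [← Equiv.sum_comp (Equiv.addLeft u0)]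
            rw [← Finset.sum_neg_distrib]
            refine Finset.sum_congr rfl fun u _ => ?_
            rw [Equiv.coe_addLeft, map_add, LinearMap.add_apply, hu0, chi_add]
            rw [show chi 1 = -1 by decide]
            ring
          have h4 : ∑ u, chi (B u z) = 0 := by linarith
          rw [h4, mul_zero]
      _ = (Fintype.card V : ℤ) := by
          rw [Q_zero hQ, chi_zero, one_mul]
          simp [chi_zero]
  rw [h0, mul_zero] at h1
  have h2 : 0 < Fintype.card V := Fintype.card_pos
  omega

end quad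

section copies

variable {n : ℕ} {H : SimpleGraph (Fin n)} {V : Type} [AddCommGroup V] [Module (ZMod 2) V]
  {B : V →ₗ[ZMod 2] V →ₗ[ZMod 2] ZMod 2} {Q : V → ZMod 2} {h : Fin n → V}

/-- the quadratic form of the graph -/
noncomputable def QA (H : SimpleGraph (Fin n)) (x : Fin n → ZMod 2) : ZMod 2 := by
  classical
  exact ∑ v, x v + ∑ v, ∑ w, if v < w ∧ H.Adj v w then x v * x w else 0

/-- the bilinear form of the graph -/
noncomputable def BA (H : SimpleGraph (Fin n)) (x y : Fin n → ZMod 2) : ZMod 2 := by
  classical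
  exact ∑ v, ∑ w, if H.Adj v w then x v * y w else 0

theorem QA_add (H : SimpleGraph (Fin n)) (x y : Fin n → ZMod 2) :
    QA H (x + y) = QA H x + QA H y + BA H x y := by
  classical
  unfold QA BA
  have h1 : ∑ v, ∑ w, (if H.Adj v w then x v * y w else 0) =
      ∑ v, ∑ w, (if v < w ∧ H.Adj v w then x v * y w else 0) +
        ∑ v, ∑ w, (if v < w ∧ H.Adj v w then y v * x w else 0) := by
    rw [Finset.sum_comm (f := fun v w => if v < w ∧ H.Adj v w then y v * x w else 0),
      ← Finset.sum_add_distrib]
    refine Finset.sum_congr rfl fun v _ => ?_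
    rw [← Finset.sum_add_distrib]
    refine Finset.sum_congr rfl fun w _ => ?_
    by_cases h2 : H.Adj v w
    · rcases lt_or_gt_of_ne h2.ne with h3 | h3
      · rw [if_pos h2, if_pos ⟨h3, h2⟩, if_neg (fun h4 => absurd h4.1 (not_lt.mpr h3.le)),
          add_zero]
      · rw [if_pos h2, if_neg (fun h4 => absurd h4.1 (not_lt.mpr h3.le)),
          if_pos ⟨h3, h2.symm⟩, zero_add, mul_comm]
    · rw [if_neg h2, if_neg (fun h4 => h2 h4.2), if_neg (fun h4 => h2 h4.2.symm), add_zero]
  rw [h1]
  have h5 : ∑ v, ∑ w, (if v < w ∧ H.Adj v w then (x + y) v * (x + y) w else 0) =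
      ∑ v, ∑ w, (if v < w ∧ H.Adj v w then x v * x w else 0) +
        ∑ v, ∑ w, (if v < w ∧ H.Adj v w then y v * y w else 0) +
        (∑ v, ∑ w, (if v < w ∧ H.Adj v w then x v * y w else 0) +
        ∑ v, ∑ w, (if v < w ∧ H.Adj v w then y v * x w else 0)) := by
    simp only [← Finset.sum_add_distrib]
    refine Finset.sum_congr rfl fun v _ => Finset.sum_congr rfl fun w _ => ?_
    by_cases h6 : v < w ∧ H.Adj v w
    · rw [if_pos h6, if_pos h6, if_pos h6, if_pos h6, if_pos h6, Pi.add_apply, Pi.add_apply]
      ring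
    · rw [if_neg h6, if_neg h6, if_neg h6, if_neg h6, if_neg h6]
      ring
  rw [h5]
  simp only [Pi.add_apply, Finset.sum_add_distrib]
  ring

/-- the value at the indicator function of a set -/
theorem QA_ind (H : SimpleGraph (Fin n)) (S : Finset (Fin n)) [DecidablePred fun v => v ∈ S] :
    QA H (fun v => if v ∈ S then 1 else 0) = ((S.card + ed H S : ℕ) : ZMod 2) := by
  classical
  rw [Nat.cast_add, ed_eq, QA]
  congr 1
  · simp
  · have h1 : ∀ v, ∑ w, (if v < w ∧ H.Adj v w then
        (if v ∈ S then (1 : ZMod 2) else 0) * (if w ∈ S then 1 else 0) else 0) =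
        if v ∈ S then ∑ w ∈ S, (if v < w ∧ H.Adj v w then 1 else 0) else 0 := by
      intro v
      by_cases h2 : v ∈ S
      · rw [if_pos h2, if_pos h2, ← Finset.sum_filter_add_sum_filter_not Finset.univ (· ∈ S)]
        have h3 : ∑ w ∈ Finset.univ.filter (· ∉ S), (if v < w ∧ H.Adj v w then
            (1 : ZMod 2) * (if w ∈ S then 1 else 0) else 0) = 0 := by
          refine Finset.sum_eq_zero fun w hw => ?_
          rw [if_neg (Finset.mem_filter.mp hw).2, mul_zero, ite_self]
        rw [h3, add_zero]
        have h4 : Finset.univ.filter (· ∈ S) = S := by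
          ext w
          simp
        rw [h4]
        refine Finset.sum_congr rfl fun w hw => ?_
        rw [if_pos hw, mul_one]
      · rw [if_neg h2, if_neg h2]
        refine Finset.sum_eq_zero fun w _ => ?_
        rw [zero_mul, ite_self]
    rw [Finset.sum_congr rfl fun v _ => h1 v, ← Finset.sum_filter]
    have h4 : Finset.univ.filter (· ∈ S) = S := by
      ext w
      simp
    rw [h4]

end copies

section transfer

variable {n : ℕ} {H : SimpleGraph (Fin n)} {V : Type} [AddCommGroup V] [Module (ZMod 2) V]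
  [Fintype V] {B : V →ₗ[ZMod 2] V →ₗ[ZMod 2] ZMod 2} {Q : V → ZMod 2} {h : Fin n → V}

/-- the linear combination -/
def comb (h : Fin n → V) (x : Fin n → ZMod 2) : V := ∑ w, x w • h w

omit [Fintype V] in
theorem comb_ind (h : Fin n → V) (S : Finset (Fin n)) [DecidablePred fun v => v ∈ S] :
    comb h (fun v => if v ∈ S then 1 else 0) = ∑ v ∈ S, h v := by
  classical
  rw [comb]
  simp only [ite_smul, one_smul, zero_smul]
  rw [← Finset.sum_filter]
  refine Finset.sum_congr ?_ fun _ _ => rfl
  ext v
  simp

omit [Fintype V] in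
/-- the quadratic form on the span of the copy -/
theorem Q_comb (hQ : ∀ u v, Q (u + v) = Q u + Q v + B u v) (h1 : ∀ w, Q (h w) = 1)
    (hh : ∀ w w', w ≠ w' → (B (h w) (h w') = 1 ↔ H.Adj w w')) (x : Fin n → ZMod 2) :
    Q (comb h x) = QA H x := by
  classical
  have key : ∀ S : Finset (Fin n),
      Q (comb h (fun v => if v ∈ S then 1 else 0)) = QA H (fun v => if v ∈ S then 1 else 0) := by
    intro S
    rw [comb_ind]
    induction S using Finset.induction_on with
    | empty =>
      rw [Finset.sum_empty, Q_zero hQ, QA_ind]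
      have h2 : ed H (∅ : Finset (Fin n)) = 0 := by
        rw [ed]
        convert Set.ncard_empty (Fin n × Fin n)
        ext p
        constructor
        · rintro ⟨h3, -⟩
          exact absurd h3 (Finset.notMem_empty _)
        · intro h3
          exact absurd h3 (Set.notMem_empty p)
      rw [h2]
      simp
    | insert a S ha ih =>
      rw [Finset.sum_insert ha, hQ, ih, h1]
      have h2 : (fun v => if v ∈ insert a S then (1 : ZMod 2) else 0) =
          (Pi.single a 1 : Fin n → ZMod 2) + fun v => if v ∈ S then 1 else 0 := by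
        funext v
        rw [Pi.add_apply]
        by_cases h3 : v = a
        · subst h3
          rw [if_pos (Finset.mem_insert_self _ _), Pi.single_eq_same, if_neg ha, add_zero]
        · rw [Pi.single_eq_of_ne h3, zero_add]
          by_cases h4 : v ∈ S
          · rw [if_pos (Finset.mem_insert_of_mem h4), if_pos h4]
          · rw [if_neg (fun h5 => (Finset.mem_insert.mp h5).elim h3 h4), if_neg h4]
      rw [h2, QA_add]
      have h5 : QA H (Pi.single a 1) = 1 := by
        have h6 : (Pi.single a 1 : Fin n → ZMod 2) =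
            fun v => if v ∈ ({a} : Finset (Fin n)) then 1 else 0 := by
          funext v
          by_cases h7 : v = a
          · subst h7
            simp
          · rw [Pi.single_eq_of_ne h7, if_neg (by simpa using h7)]
        rw [h6, QA_ind]
        have h8 : ed H ({a} : Finset (Fin n)) = 0 := by
          rw [ed]
          convert Set.ncard_empty (Fin n × Fin n)
          ext p
          constructor
          · rintro ⟨h3, h4, h5, -⟩
            rw [Finset.mem_singleton] at h3 h4
            rw [h3, h4] at h5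
            exact absurd h5 (lt_irrefl a)
          · intro h3
            exact absurd h3 (Set.notMem_empty p)
        rw [h8]
        simp
      have h9 : BA H (Pi.single a 1) (fun v => if v ∈ S then 1 else 0) =
          B (h a) (∑ v ∈ S, h v) := by
        rw [BA, map_sum, Finset.sum_eq_single_of_mem a (Finset.mem_univ _)]
        · have h10 : ∀ w, (if H.Adj a w then (Pi.single a 1 : Fin n → ZMod 2) a *
              (if w ∈ S then (1 : ZMod 2) else 0) else 0) =
              if w ∈ S then (if H.Adj a w then 1 else 0) else 0 := by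
            intro w
            rw [Pi.single_eq_same, one_mul]
            by_cases h11 : H.Adj a w <;> by_cases h12 : w ∈ S <;> simp [h11, h12]
          rw [Finset.sum_congr rfl fun w _ => h10 w, ← Finset.sum_filter]
          refine Finset.sum_congr ?_ fun w hw => ?_
          · ext w
            simp
          · have hne : a ≠ w := by
              rintro rfl
              exact ha (by simpa using hw)
            by_cases h11 : H.Adj a w
            · rw [if_pos h11]
              exact ((hh a w hne).mpr h11).symm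
            · rw [if_neg h11]
              exact (zmod2_ne_one fun h13 => h11 ((hh a w hne).mp h13)).symm
        · intro v _ hv
          refine Finset.sum_eq_zero fun w _ => ?_
          rw [Pi.single_eq_of_ne hv, zero_mul, ite_self]
      rw [h5, h9]
  have h2 : x = fun v => if v ∈ Finset.univ.filter (fun v => x v = 1) then 1 else 0 := by
    funext v
    rcases zmod2_cases (x v) with h3 | h3
    · rw [if_neg]
      · exact h3
      · intro h4
        rw [(Finset.mem_filter.mp h4).2] at h3
        exact absurd h3 (by decide)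
    · have h4 : v ∈ Finset.univ.filter (fun v => x v = 1) := by
        rw [Finset.mem_filter]
        exact ⟨Finset.mem_univ v, h3⟩
      exact h3.trans (if_pos h4).symm
  rw [h2]
  exact key _

/-- the vectors orthogonal to the copy -/
def Perp (B : V →ₗ[ZMod 2] V →ₗ[ZMod 2] ZMod 2) (h : Fin n → V) : Type :=
  {u : V // ∀ w, B u (h w) = 0}

noncomputable instance : Fintype (Perp B h) := by
  classical
  exact inferInstanceAs (Fintype {u : V // ∀ w, B u (h w) = 0})

omit [Fintype V] in
theorem B_comb (x : Fin n → ZMod 2) (v : V) : B (comb h x) v = ∑ w, x w * B (h w) v := by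
  rw [comb, map_sum, LinearMap.sum_apply]
  refine Finset.sum_congr rfl fun w _ => ?_
  rw [map_smul, LinearMap.smul_apply, smul_eq_mul]

omit [Fintype V] in
theorem comb_add (x y : Fin n → ZMod 2) : comb h (x + y) = comb h x + comb h y := by
  rw [comb, comb, comb, ← Finset.sum_add_distrib]
  refine Finset.sum_congr rfl fun w _ => ?_
  rw [Pi.add_apply, add_smul]

/-- the decomposition of the space -/
noncomputable def decomp (hsymm : ∀ u v, B u v = B v u) (D : Fin n → Fin n → ZMod 2)
    (hD : ∀ w w', ∑ v, D w v * B (h v) (h w') = if w' = w then 1 else 0) :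
    (Fin n → ZMod 2) × Perp B h ≃ V where
  toFun p := comb h p.1 + p.2.1
  invFun v := (fun w => B (comb h (D w)) v, ⟨v + comb h (fun w => B (comb h (D w)) v), by
    intro w'
    have hM : (Matrix.of D) * (Matrix.of fun v w' => B (h v) (h w')) = 1 := by
      ext w w'
      rw [Matrix.mul_apply, Matrix.one_apply]
      simp only [Matrix.of_apply]
      rw [hD w w']
      by_cases h1 : w' = w
      · rw [if_pos h1, if_pos h1.symm]
      · rw [if_neg h1, if_neg (fun h2 => h1 h2.symm)]
    have hM2 := mul_eq_one_comm.mp hM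
    have h2 : ∀ v v' : Fin n, ∑ w, B (h v) (h w) * D w v' = if v = v' then 1 else 0 := by
      intro v v'
      have h3 := congrFun (congrFun hM2 v) v'
      rw [Matrix.mul_apply, Matrix.one_apply] at h3
      exact h3
    rw [map_add, LinearMap.add_apply, B_comb]
    have h4 : ∑ w, B (comb h (D w)) v * B (h w) (h w') = B (h w') v := by
      calc ∑ w, B (comb h (D w)) v * B (h w) (h w')
          = ∑ w, ∑ u, D w u * B (h u) v * B (h w) (h w') := by
            refine Finset.sum_congr rfl fun w _ => ?_
            rw [B_comb, Finset.sum_mul]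
        _ = ∑ u, ∑ w, D w u * B (h u) v * B (h w) (h w') := Finset.sum_comm
        _ = ∑ u, (∑ w, B (h w') (h w) * D w u) * B (h u) v := by
            refine Finset.sum_congr rfl fun u _ => ?_
            rw [Finset.sum_mul]
            refine Finset.sum_congr rfl fun w _ => ?_
            rw [hsymm (h w') (h w)]
            ring
        _ = B (h w') v := by
            rw [Finset.sum_congr rfl fun u _ => by rw [h2]]
            simp
    rw [h4, hsymm v (h w')]
    exact zmod2_add_self _⟩)
  left_inv := by
    rintro ⟨x, u⟩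
    have h1 : ∀ w, B (comb h (D w)) (comb h x + u.1) = x w := by
      intro w
      rw [map_add, B_comb, B_comb]
      have h2 : ∑ v, D w v * B (h v) u.1 = 0 :=
        Finset.sum_eq_zero fun v _ => by rw [hsymm, u.2 v, mul_zero]
      rw [h2, add_zero]
      calc ∑ v, D w v * B (h v) (comb h x) = ∑ v, ∑ w', D w v * (x w' * B (h w') (h v)) := by
            refine Finset.sum_congr rfl fun v _ => ?_
            rw [hsymm, B_comb, Finset.mul_sum]
        _ = ∑ w', ∑ v, D w v * (x w' * B (h w') (h v)) := Finset.sum_comm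
        _ = ∑ w', x w' * ∑ v, D w v * B (h v) (h w') := by
            refine Finset.sum_congr rfl fun w' _ => ?_
            rw [Finset.mul_sum]
            refine Finset.sum_congr rfl fun v _ => ?_
            rw [hsymm (h w') (h v)]
            ring
        _ = x w := by
            rw [Finset.sum_congr rfl fun w' _ => by rw [hD]]
            simp
    refine Prod.ext (funext h1) (Subtype.ext ?_)
    show comb h x + u.1 + comb h (fun w => B (comb h (D w)) (comb h x + u.1)) = u.1
    rw [show (fun w => B (comb h (D w)) (comb h x + u.1)) = x from funext h1,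
      add_comm (comb h x), add_assoc, two_zero, add_zero]
  right_inv := by
    intro v
    show comb h (fun w => B (comb h (D w)) v) + (v + comb h (fun w => B (comb h (D w)) v)) = v
    rw [add_comm v, ← add_assoc, two_zero, zero_add]

end transfer

section plane

/-- the space -/
abbrev PV (n : ℕ) : Type := (Fin n → ZMod 2) × (ZMod 2 × ZMod 2)

/-- the quadratic form -/
noncomputable def PQ {n : ℕ} (H : SimpleGraph (Fin n)) (v : PV n) : ZMod 2 :=
  QA H v.1 + v.2.1 * v.2.2

theorem BA_symm {n : ℕ} {H : SimpleGraph (Fin n)} (x y : Fin n → ZMod 2) :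
    BA H x y = BA H y x := by
  classical
  rw [BA, BA, Finset.sum_comm]
  refine Finset.sum_congr rfl fun w _ => Finset.sum_congr rfl fun v _ => ?_
  by_cases h : H.Adj v w
  · rw [if_pos h, if_pos h.symm, mul_comm]
  · rw [if_neg h, if_neg fun h' => h h'.symm]

theorem BA_add_left {n : ℕ} {H : SimpleGraph (Fin n)} (x x' y : Fin n → ZMod 2) :
    BA H (x + x') y = BA H x y + BA H x' y := by
  classical
  rw [BA, BA, BA]
  simp only [← Finset.sum_add_distrib]
  refine Finset.sum_congr rfl fun v _ => Finset.sum_congr rfl fun w _ => ?_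
  by_cases h : H.Adj v w
  · rw [if_pos h, if_pos h, if_pos h, Pi.add_apply]
    ring
  · rw [if_neg h, if_neg h, if_neg h, add_zero]

theorem BA_smul_left {n : ℕ} {H : SimpleGraph (Fin n)} (c : ZMod 2) (x y : Fin n → ZMod 2) :
    BA H (c • x) y = c * BA H x y := by
  classical
  rw [BA, BA]
  simp only [Finset.mul_sum]
  refine Finset.sum_congr rfl fun v _ => Finset.sum_congr rfl fun w _ => ?_
  by_cases h : H.Adj v w
  · rw [if_pos h, if_pos h, Pi.smul_apply, smul_eq_mul]
    ring
  · rw [if_neg h, if_neg h, mul_zero]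

/-- the bilinear form -/
noncomputable def PB {n : ℕ} (H : SimpleGraph (Fin n)) :
    PV n →ₗ[ZMod 2] PV n →ₗ[ZMod 2] ZMod 2 :=
  LinearMap.mk₂ (ZMod 2)
    (fun u v => BA H u.1 v.1 + (u.2.1 * v.2.2 + u.2.2 * v.2.1))
    (fun x x' y => by
      simp only [Prod.fst_add, Prod.snd_add, BA_add_left]
      ring)
    (fun c x y => by
      simp only [Prod.smul_fst, Prod.smul_snd, smul_eq_mul, BA_smul_left]
      ring)
    (fun x y y' => by
      simp only [Prod.fst_add, Prod.snd_add]
      rw [BA_symm, BA_add_left, BA_symm y.1, BA_symm y'.1]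
      ring)
    (fun c x y => by
      simp only [Prod.smul_fst, Prod.smul_snd, smul_eq_mul]
      rw [BA_symm, BA_smul_left, BA_symm y.1]
      ring)

variable {n : ℕ} {H : SimpleGraph (Fin n)}

theorem PB_apply (u v : PV n) :
    PB H u v = BA H u.1 v.1 + (u.2.1 * v.2.2 + u.2.2 * v.2.1) := rfl

theorem PQ_add (u v : PV n) : PQ H (u + v) = PQ H u + PQ H v + PB H u v := by
  rw [PB_apply, PQ, PQ, PQ, Prod.fst_add, Prod.snd_add, QA_add, Prod.fst_add, Prod.snd_add]
  ring

/-- the number of neighbours, as a product -/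
theorem BA_ind (S : Finset (Fin n)) [DecidablePred fun v => v ∈ S] (w : Fin n) :
    BA H (fun v => if v ∈ S then 1 else 0) (Pi.single w 1) = ((nb H S w : ℕ) : ZMod 2) := by
  classical
  rw [BA, nb_eq, ← Finset.sum_filter_add_sum_filter_not Finset.univ (· ∈ S)]
  have h3 : ∑ v ∈ Finset.univ.filter (· ∉ S), (∑ w', if H.Adj v w' then
      (if v ∈ S then (1 : ZMod 2) else 0) * (Pi.single w 1 : Fin n → ZMod 2) w' else 0) = 0 := by
    refine Finset.sum_eq_zero fun v hv => Finset.sum_eq_zero fun w' _ => ?_
    rw [if_neg (Finset.mem_filter.mp hv).2, zero_mul, ite_self]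
  rw [h3, add_zero]
  have h4 : Finset.univ.filter (· ∈ S) = S := by
    ext w
    simp
  rw [h4]
  refine Finset.sum_congr rfl fun v hv => ?_
  rw [Finset.sum_eq_single_of_mem w (Finset.mem_univ _), if_pos hv, Pi.single_eq_same, one_mul]
  intro w' _ hw'
  rw [Pi.single_eq_of_ne hw', mul_zero, ite_self]

theorem BA_single (w w' : Fin n) :
    BA H (Pi.single w 1) (Pi.single w' 1) = 1 ↔ H.Adj w w' := by
  classical
  rw [BA, Finset.sum_eq_single_of_mem w (Finset.mem_univ _),
    Finset.sum_eq_single_of_mem w' (Finset.mem_univ _), Pi.single_eq_same, Pi.single_eq_same,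
    mul_one]
  · by_cases h : H.Adj w w'
    · rw [if_pos h]
      exact ⟨fun _ => h, fun _ => rfl⟩
    · rw [if_neg h]
      exact ⟨fun h1 => absurd h1 (by decide), fun h1 => absurd h1 h⟩
  · intro v _ hv
    rw [Pi.single_eq_of_ne hv, mul_zero, ite_self]
  · intro v _ hv
    refine Finset.sum_eq_zero fun u _ => ?_
    rw [Pi.single_eq_of_ne hv, zero_mul, ite_self]

/-- the bilinear form as a sum over the second argument -/
theorem BA_right (x y : Fin n → ZMod 2) : BA H x y = ∑ w, y w * BA H x (Pi.single w 1) := by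
  classical
  have h1 : ∀ w, BA H x (Pi.single w 1) = ∑ v, if H.Adj v w then x v else 0 := by
    intro w
    rw [BA]
    refine Finset.sum_congr rfl fun v _ => ?_
    rw [Finset.sum_eq_single_of_mem w (Finset.mem_univ _), Pi.single_eq_same, mul_one]
    intro w' _ hw'
    rw [Pi.single_eq_of_ne hw', mul_zero, ite_self]
  rw [BA, Finset.sum_comm]
  refine Finset.sum_congr rfl fun w _ => ?_
  rw [h1, Finset.mul_sum]
  refine Finset.sum_congr rfl fun v _ => ?_
  rw [mul_ite, mul_zero, mul_comm]

theorem QA_single (a : Fin n) : QA H (Pi.single a 1) = 1 := by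
  classical
  have h6 : (Pi.single a 1 : Fin n → ZMod 2) =
      fun v => if v ∈ ({a} : Finset (Fin n)) then 1 else 0 := by
    funext v
    by_cases h7 : v = a
    · subst h7
      simp
    · rw [Pi.single_eq_of_ne h7, if_neg (by simpa using h7)]
  rw [h6, QA_ind]
  have h8 : ed H ({a} : Finset (Fin n)) = 0 := by
    rw [ed]
    convert Set.ncard_empty (Fin n × Fin n)
    ext p
    constructor
    · rintro ⟨h3, h4, h5, -⟩
      rw [Finset.mem_singleton] at h3 h4
      rw [h3, h4] at h5
      exact absurd h5 (lt_irrefl a)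
    · intro h3
      exact absurd h3 (Set.notMem_empty p)
  rw [h8]
  simp

/-- duality -/
theorem mem_iff_mem {s t : Fin n} {S T : Finset (Fin n)} (hS : ∀ w, Odd (nb H S w) ↔ w = s)
    (hT : ∀ w, Odd (nb H T w) ↔ w = t) : t ∈ S ↔ s ∈ T := by
  classical
  have h1 : ∀ (s : Fin n) (S T : Finset (Fin n)), (∀ w, Odd (nb H S w) ↔ w = s) →
      ∑ v ∈ T, ((nb H S v : ℕ) : ZMod 2) = if s ∈ T then 1 else 0 := by
    intro s S T hS
    have h2 : ∀ v, ((nb H S v : ℕ) : ZMod 2) = if v = s then 1 else 0 := by
      intro v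
      by_cases h3 : v = s
      · rw [if_pos h3, odd_iff_cast, hS]
        exact h3
      · rw [if_neg h3]
        exact zmod2_ne_one fun h4 => h3 ((hS v).mp ((odd_iff_cast _).mp h4))
    rw [Finset.sum_congr rfl fun v _ => h2 v]
    simp
  have h2 := h1 s S T hS
  have h3 := h1 t T S hT
  have h4 : ∑ v ∈ T, ((nb H S v : ℕ) : ZMod 2) = ∑ v ∈ S, ((nb H T v : ℕ) : ZMod 2) := by
    simp only [nb_eq]
    rw [Finset.sum_comm]
    refine Finset.sum_congr rfl fun v _ => Finset.sum_congr rfl fun w _ => ?_
    by_cases h5 : H.Adj v w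
    · rw [if_pos h5, if_pos h5.symm]
    · rw [if_neg h5, if_neg fun h6 => h5 h6.symm]
  rw [h2, h3] at h4
  by_cases h5 : t ∈ S <;> by_cases h6 : s ∈ T
  · exact ⟨fun _ => h6, fun _ => h5⟩
  · rw [if_pos h5, if_neg h6] at h4
    exact absurd h4 (by decide)
  · rw [if_neg h5, if_pos h6] at h4
    exact absurd h4 (by decide)
  · exact ⟨fun h => absurd h h5, fun h => absurd h h6⟩

theorem gramQ {V : Type} [AddCommGroup V] [Module (ZMod 2) V]
    {B : V →ₗ[ZMod 2] V →ₗ[ZMod 2] ZMod 2} {Q : V → ZMod 2} {h : Fin n → V}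
    (hQ : ∀ u v, Q (u + v) = Q u + Q v + B u v)
    (hh : ∀ w w', w ≠ w' → (B (h w) (h w') = 1 ↔ H.Adj w w')) (S : Finset (Fin n))
    (w : Fin n) : B (∑ v ∈ S, h v) (h w) = ((nb H S w : ℕ) : ZMod 2) := by
  classical
  rw [nb_eq, map_sum, LinearMap.sum_apply]
  refine Finset.sum_congr rfl fun v _ => ?_
  by_cases h1 : v = w
  · subst h1
    rw [B_self hQ, if_neg (H.loopless.irrefl v)]
  · by_cases h2 : H.Adj v w
    · rw [if_pos h2]
      exact (hh v w h1).mpr h2
    · rw [if_neg h2]
      exact zmod2_ne_one fun h3 => h2 ((hh v w h1).mp h3)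

theorem PB_inj (D : Fin n → Finset (Fin n)) (hD : ∀ v w, Odd (nb H (D v) w) ↔ w = v) :
    Function.Injective (PB H) := by
  classical
  rw [injective_iff_map_eq_zero]
  rintro ⟨x, p, q⟩ hx
  have h1 : ∀ v, PB H (x, p, q) v = 0 := fun v => by rw [hx]; rfl
  have hB0 : ∀ y : Fin n → ZMod 2, BA H y 0 = 0 := by
    intro y
    rw [BA_right]
    simp
  have hp : p = 0 := by
    have h2 := h1 (0, 0, 1)
    rw [PB_apply] at h2
    simpa [hB0] using h2
  have hq : q = 0 := by
    have h2 := h1 (0, 1, 0)
    rw [PB_apply] at h2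
    simpa [hB0] using h2
  have h3 : ∀ y, BA H x y = 0 := by
    intro y
    have h2 := h1 (y, 0, 0)
    rw [PB_apply] at h2
    simpa using h2
  have hx0 : x = 0 := by
    funext v
    have h4 := h3 (fun w => if w ∈ D v then 1 else 0)
    rw [BA_symm, BA_right] at h4
    have h5 : ∀ w, x w * BA H (fun w => if w ∈ D v then 1 else 0) (Pi.single w 1) =
        if w = v then x v else 0 := by
      intro w
      rw [BA_ind]
      by_cases h6 : w = v
      · rw [if_pos h6, (odd_iff_cast _).mpr ((hD v w).mpr h6), mul_one, h6]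
      · rw [if_neg h6, zmod2_ne_one (fun h7 => h6 ((hD v w).mp ((odd_iff_cast _).mp h7))),
          mul_zero]
    rw [Finset.sum_congr rfl fun w _ => h5 w] at h4
    simpa using h4
  rw [hx0, hp, hq]
  rfl

theorem plane_aux (H : SimpleGraph (Fin n)) (s t : Fin n) (S T : Finset (Fin n))
    (hns : ∀ K : Finset (Fin n), (∀ w, Even (nb H K w)) → K = ∅)
    (hS : ∀ w, Odd (nb H S w) ↔ w = s) (hT : ∀ w, Odd (nb H T w) ↔ w = t) (hst : t ∈ S)
    (hQS : Odd (S.card + ed H S)) (hQT : Even (T.card + ed H T)) : ¬ Inherent H s t := by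
  classical
  have hex : ∀ v, ∃ D : Finset (Fin n), ∀ w, Odd (nb H D w) ↔ w = v := fun v =>
    exists_dualSet H v fun K hK hv => by
      rw [hns K hK] at hv
      exact absurd hv (Finset.notMem_empty v)
  choose D hD using hex
  have hQ := PQ_add (H := H)
  have hnd := PB_inj D hD
  have hB0 : ∀ y : Fin n → ZMod 2, BA H y 0 = 0 := by
    intro y
    rw [BA_right]
    simp
  refine geo_criterion H s t (V := PV n) (fun x y => PB H x y) (B_symm hQ)
    {v | PQ H v = 1} (fun w => (Pi.single w 1, 0)) (fun w => ?_) (fun w w' _ => ?_) ?_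
  · show PQ H (Pi.single w 1, 0) = 1
    rw [PQ, QA_single]
    simp
  · rw [PB_apply]
    simp only [Prod.fst_zero, Prod.snd_zero, mul_zero, add_zero]
    exact BA_single w w'
  intro h hX hh
  have hX' : ∀ w, PQ H (h w) = 1 := hX
  have hDv : ∀ w w', ∑ v, (if v ∈ D w then (1 : ZMod 2) else 0) * PB H (h v) (h w') =
      if w' = w then 1 else 0 := by
    intro w w'
    have h1 : ∑ v, (if v ∈ D w then (1 : ZMod 2) else 0) * PB H (h v) (h w') =
        PB H (∑ v ∈ D w, h v) (h w') := by
      rw [map_sum, LinearMap.sum_apply]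
      simp only [ite_mul, one_mul, zero_mul]
      rw [← Finset.sum_filter]
      refine Finset.sum_congr ?_ fun _ _ => rfl
      ext v
      simp
    rw [h1, gramQ hQ hh]
    by_cases h2 : w' = w
    · rw [if_pos h2, odd_iff_cast, hD]
      exact h2
    · rw [if_neg h2]
      exact zmod2_ne_one fun h3 => h2 ((hD w w').mp ((odd_iff_cast _).mp h3))
  let e : (Fin n → ZMod 2) × Perp (PB H) h ≃ PV n :=
    decomp (B_symm hQ) (fun w v => if v ∈ D w then 1 else 0) hDv
  have he : ∀ p, e p = comb h p.1 + p.2.1 := fun _ => rfl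
  have hBc : ∀ (x : Fin n → ZMod 2) (u : Perp (PB H) h), PB H (comb h x) u.1 = 0 := by
    intro x u
    rw [B_comb]
    exact Finset.sum_eq_zero fun w _ => by rw [B_symm hQ, u.2 w, mul_zero]
  have hcard : Fintype.card (Perp (PB H) h) = 4 := by
    have h1 := Fintype.card_congr e
    rw [Fintype.card_prod, Fintype.card_prod, Fintype.card_prod] at h1
    have h2 : 0 < Fintype.card (Fin n → ZMod 2) := Fintype.card_pos
    have h3 := Nat.eq_of_mul_eq_mul_left h2 h1
    rw [h3, ZMod.card]
  have hsum : ∑ u : Perp (PB H) h, chi (PQ H u.1) = 2 := by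
    have h1 : ∑ v, chi (PQ H v) =
        (∑ x : Fin n → ZMod 2, chi (QA H x)) * ∑ u : Perp (PB H) h, chi (PQ H u.1) := by
      rw [← Equiv.sum_comp e, Fintype.sum_prod_type, Finset.sum_mul_sum]
      refine Finset.sum_congr rfl fun x _ => Finset.sum_congr rfl fun u _ => ?_
      rw [he, hQ, hBc, add_zero, Q_comb hQ hX' hh, chi_add]
    have h2 : ∑ v, chi (PQ H v) = (∑ x : Fin n → ZMod 2, chi (QA H x)) * 2 := by
      rw [Fintype.sum_prod_type, Finset.sum_mul]
      refine Finset.sum_congr rfl fun x _ => ?_
      have h3 : ∀ y : ZMod 2 × ZMod 2, chi (PQ H (x, y)) = chi (QA H x) * chi (y.1 * y.2) := by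
        intro y
        rw [PQ, chi_add]
      rw [Finset.sum_congr rfl fun y _ => h3 y, ← Finset.mul_sum]
      congr 1
    have h3 := gauss_ne_zero hnd hQ
    rw [h2] at h3
    rw [h1] at h2
    have h4 : (∑ x : Fin n → ZMod 2, chi (QA H x)) ≠ 0 := fun h5 => h3 (by rw [h5, zero_mul])
    exact mul_left_cancel₀ h4 h2
  have hone : (Finset.univ.filter fun u : Perp (PB H) h => PQ H u.1 = 1).card = 1 := by
    have h1 : ∀ u : Perp (PB H) h, chi (PQ H u.1) = 1 - 2 * if PQ H u.1 = 1 then 1 else 0 := by
      intro u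
      rw [chi]
      by_cases h2 : PQ H u.1 = 1
      · rw [if_pos h2, if_pos h2]
        norm_num
      · rw [if_neg h2, if_neg h2]
        norm_num
    rw [Finset.sum_congr rfl fun u _ => h1 u, Finset.sum_sub_distrib, ← Finset.mul_sum,
      Finset.sum_boole, Finset.sum_const, Finset.card_univ, hcard] at hsum
    simp only [nsmul_eq_mul, Nat.cast_ofNat, mul_one] at hsum
    have h3 : ((Finset.univ.filter fun u : Perp (PB H) h => PQ H u.1 = 1).card : ℤ) = 1 := by
      linarith
    exact_mod_cast h3
  obtain ⟨r, hr⟩ := Finset.card_eq_one.mp hone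
  have hr1 : PQ H r.1 = 1 := by
    have h1 : r ∈ Finset.univ.filter fun u : Perp (PB H) h => PQ H u.1 = 1 := by
      rw [hr]
      exact Finset.mem_singleton_self r
    exact (Finset.mem_filter.mp h1).2
  have hr2 : ∀ u : Perp (PB H) h, PQ H u.1 = 1 → u = r := by
    intro u hu
    have h1 : u ∈ Finset.univ.filter fun u : Perp (PB H) h => PQ H u.1 = 1 :=
      Finset.mem_filter.mpr ⟨Finset.mem_univ u, hu⟩
    rw [hr] at h1
    exact Finset.mem_singleton.mp h1
  obtain ⟨v0, hv0⟩ : ∃ v0, PB H v0 r.1 = 1 := by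
    by_contra hcon
    push Not at hcon
    have h1 : r.1 = 0 := by
      refine hnd ?_
      rw [map_zero]
      refine LinearMap.ext fun u => ?_
      rw [B_symm hQ, LinearMap.zero_apply]
      exact zmod2_ne_one (hcon u)
    rw [h1, Q_zero hQ] at hr1
    exact absurd hr1 (by decide)
  obtain ⟨⟨x0, u0⟩, hu0⟩ := e.surjective v0
  rw [he] at hu0
  have hB1 : PB H u0.1 r.1 = 1 := by
    rw [← hu0, map_add, LinearMap.add_apply, hBc, zero_add] at hv0
    exact hv0
  have hQ0 : PQ H u0.1 = 0 := by
    refine zmod2_ne_one fun h1 => ?_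
    rw [hr2 u0 h1, B_self hQ] at hB1
    exact absurd hB1 (by decide)
  -- the two new vertices
  have hSperp : ∀ (S : Finset (Fin n)) (u : Perp (PB H) h), PB H (∑ v ∈ S, h v) u.1 = 0 := by
    intro S u
    rw [← comb_ind, hBc]
  have hQsum : ∀ S : Finset (Fin n), PQ H (∑ v ∈ S, h v) = ((S.card + ed H S : ℕ) : ZMod 2) := by
    intro S
    rw [← comb_ind, Q_comb hQ hX' hh, QA_ind]
  have hSh : ∀ (S : Finset (Fin n)) (u : Perp (PB H) h) (w : Fin n),
      PB H ((∑ v ∈ S, h v) + u.1) (h w) = ((nb H S w : ℕ) : ZMod 2) := by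
    intro S u w
    rw [map_add, LinearMap.add_apply, u.2 w, add_zero, gramQ hQ hh]
  have hab : PB H (∑ v ∈ S, h v) (∑ v ∈ T, h v) = 1 := by
    rw [B_symm hQ, map_sum, Finset.sum_eq_single_of_mem t hst]
    · rw [gramQ hQ hh, odd_iff_cast, hT]
    · intro v _ hv
      rw [gramQ hQ hh]
      exact zmod2_ne_one fun h1 => hv ((hT v).mp ((odd_iff_cast _).mp h1))
  refine ⟨(∑ v ∈ S, h v) + u0.1, ?_, (∑ v ∈ T, h v) + r.1, ?_, fun w => ?_, fun w => ?_, ?_,
    {r.1}, ?_, ?_, ?_⟩
  · show PQ H _ = 1
    rw [hQ, hSperp, hQ0, hQsum, add_zero, add_zero, odd_iff_cast]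
    exact hQS
  · show PQ H _ = 1
    rw [hQ, hSperp, hr1, hQsum, add_zero, (even_iff_cast _).mpr hQT, zero_add]
  · rw [hSh, odd_iff_cast]
    exact hS w
  · rw [hSh, odd_iff_cast]
    exact hT w
  · have hexp : ∀ a b c d : PV n, PB H (a + b) (c + d) =
        PB H a c + PB H a d + (PB H b c + PB H b d) := by
      intro a b c d
      simp only [map_add, LinearMap.add_apply]
      ring
    rw [hexp, hab, hSperp, hB1, B_symm hQ u0.1, hSperp]
    decide
  · intro z hz hzh hz1
    have h1 : ∀ w, PB H z (h w) = 0 := fun w => zmod2_ne_one (hzh w)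
    have h2 := hr2 ⟨z, h1⟩ hz
    rw [Set.mem_singleton_iff, ← h2]
  · rintro z hz z' hz' hzh hz1
    have h1 : ∀ w, PB H z' (h w) = 0 := fun w => zmod2_ne_one (hzh w)
    have h2 := hr2 ⟨z', h1⟩ hz'
    rw [Set.mem_singleton_iff, ← h2]
  · intro z hz
    rw [Set.mem_singleton_iff] at hz
    rw [hz, map_add, LinearMap.add_apply, hSperp, B_self hQ]
    decide

/-- Criterion from a quadratic space of dimension `n + 2`. -/
theorem plane_criterion (H : SimpleGraph (Fin n)) (s t : Fin n) (S T : Finset (Fin n))
    (hns : ∀ K : Finset (Fin n), (∀ w, Even (nb H K w)) → K = ∅)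
    (hS : ∀ w, Odd (nb H S w) ↔ w = s) (hT : ∀ w, Odd (nb H T w) ↔ w = t) (hst : t ∈ S)
    (hQ : (S.card + ed H S) % 2 ≠ (T.card + ed H T) % 2) : ¬ Inherent H s t := by
  rcases Nat.even_or_odd (S.card + ed H S) with h1 | h1
  · have h2 : Odd (T.card + ed H T) := by
      rw [Nat.odd_iff]
      rw [Nat.even_iff] at h1
      omega
    intro hin
    exact plane_aux H t s T S hns hT hS ((mem_iff_mem hS hT).mp hst) h2 h1 (inherent_swap hin)
  · have h2 : Even (T.card + ed H T) := by
      rw [Nat.even_iff]
      rw [Nat.odd_iff] at h1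
      omega
    exact plane_aux H s t S T hns hS hT hst h1 h2

end plane

end Pool.Agent.H17.Inh
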