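import Pool.Agent.H17.Inh.Paths3

/-!
# Forms with values modulo four
-/

namespace Pool.Agent.H17.Inh

open SimpleGraph Finset

/-- doubling -/
def dbl (x : ZMod 2) : ZMod 4 := if x = 1 then 2 else 0

/-- the lift -/
def lif (x : ZMod 2) : ZMod 4 := if x = 1 then 1 else 0

/-- reduction modulo two -/
def red (x : ZMod 4) : ZMod 2 := if x = 1 ∨ x = 3 then 1 else 0

theorem dbl_add (x y : ZMod 2) : dbl (x + y) = dbl x + dbl y := by
  revert x y
  decide

theorem dbl_zero : dbl 0 = 0 := by decide

theorem lif_add (x y : ZMod 2) : lif (x + y) = lif x + lif y + dbl (x * y) := by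
  revert x y
  decide

theorem lif_zero : lif 0 = 0 := by decide

theorem dbl_sum {κ : Type} (s : Finset κ) (f : κ → ZMod 2) :
    dbl (∑ i ∈ s, f i) = ∑ i ∈ s, dbl (f i) := by
  classical
  induction s using Finset.induction_on with
  | empty => rw [Finset.sum_empty, Finset.sum_empty, dbl_zero]
  | insert a s ha ih => rw [Finset.sum_insert ha, Finset.sum_insert ha, dbl_add, ih]

/-- the fourth roots of unity -/
def psi (x : ZMod 4) : GaussianInt :=
  if x = 0 then 1 else if x = 1 then ⟨0, 1⟩ else if x = 2 then -1 else ⟨0, -1⟩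

theorem psi_add (x y : ZMod 4) : psi (x + y) = psi x * psi y := by
  revert x y
  decide

theorem psi_zero : psi 0 = 1 := by decide

section quad

variable {V : Type} [AddCommGroup V] [Module (ZMod 2) V]
  {B : V →ₗ[ZMod 2] V →ₗ[ZMod 2] ZMod 2} {q : V → ZMod 4}

theorem q_zero (hq : ∀ u v, q (u + v) = q u + q v + dbl (B u v)) : q 0 = 0 := by
  have h := hq 0 0
  rw [add_zero, map_zero, dbl_zero, add_zero] at h
  generalize q 0 = x at h
  revert x
  decide

theorem q_self (hq : ∀ u v, q (u + v) = q u + q v + dbl (B u v)) (u : V) :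
    B u u = red (q u) := by
  have h := hq u u
  rw [two_zero, q_zero hq] at h
  generalize q u = x at h
  generalize B u u = y at h
  revert x y
  decide

theorem q_symm (hq : ∀ u v, q (u + v) = q u + q v + dbl (B u v)) (u v : V) : B u v = B v u := by
  have h1 := hq u v
  have h2 := hq v u
  rw [add_comm v u] at h2
  rw [h1] at h2
  generalize q u = x at h2
  generalize q v = y at h2
  generalize B u v = a at h2
  generalize B v u = b at h2
  revert x y a b
  decide

/-- the Gauss sum is not zero -/
theorem gauss4_ne_zero [Fintype V] (hnd : Function.Injective B)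
    (hq : ∀ u v, q (u + v) = q u + q v + dbl (B u v)) : ∑ v, psi (q v) ≠ 0 := by
  classical
  intro h0
  have h1 : (∑ u, psi (-q u)) * ∑ v, psi (q v) = (Fintype.card V : GaussianInt) := by
    calc (∑ u, psi (-q u)) * ∑ v, psi (q v) = ∑ u, ∑ v, psi (-q u) * psi (q v) := by
          rw [Finset.sum_mul_sum]
      _ = ∑ u, ∑ z, psi (q z) * psi (dbl (B u z)) := by
          refine Finset.sum_congr rfl fun u _ => ?_
          rw [← Equiv.sum_comp (Equiv.addLeft u)]
          refine Finset.sum_congr rfl fun z _ => ?_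
          rw [Equiv.coe_addLeft, hq, ← psi_add, ← psi_add]
          congr 1
          ring
      _ = ∑ z, psi (q z) * ∑ u, psi (dbl (B u z)) := by
          rw [Finset.sum_comm]
          exact Finset.sum_congr rfl fun z _ => (Finset.mul_sum _ _ _).symm
      _ = psi (q 0) * ∑ u, psi (dbl (B u 0)) := by
          refine Finset.sum_eq_single_of_mem 0 (Finset.mem_univ _) fun z _ hz => ?_
          obtain ⟨u0, hu0⟩ : ∃ u0, B u0 z = 1 := by
            by_contra hcon
            push Not at hcon
            refine hz (hnd ?_)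
            rw [map_zero]
            ext u
            rw [q_symm hq, LinearMap.zero_apply]
            exact zmod2_ne_one (hcon u)
          have h3 : ∑ u, psi (dbl (B u z)) = -∑ u, psi (dbl (B u z)) := by
            conv_lhs => rw [← Equiv.sum_comp (Equiv.addLeft u0)]
            rw [← Finset.sum_neg_distrib]
            refine Finset.sum_congr rfl fun u _ => ?_
            rw [Equiv.coe_addLeft, map_add, LinearMap.add_apply, hu0]
            generalize B u z = x
            revert x
            decide
          have h4 : (2 : GaussianInt) * ∑ u, psi (dbl (B u z)) = 0 := by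
            rw [two_mul]
            nth_rewrite 1 [h3]
            exact neg_add_cancel _
          have h5 : ∑ u, psi (dbl (B u z)) = 0 :=
            (mul_eq_zero.mp h4).resolve_left (by decide)
          rw [h5, mul_zero]
      _ = (Fintype.card V : GaussianInt) := by
          rw [q_zero hq, psi_zero, one_mul]
          simp [dbl_zero, psi_zero]
  rw [h0, mul_zero] at h1
  have h2 : 0 < Fintype.card V := Fintype.card_pos
  have h3 : ((Fintype.card V : ℕ) : GaussianInt) = 0 := h1.symm
  rw [Nat.cast_eq_zero] at h3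
  omega

end quad

section forms

variable {n : ℕ}

/-- the form of the graph with values modulo four -/
noncomputable def q4 (H : SimpleGraph (Fin n)) (x : Fin n → ZMod 2) : ZMod 4 := by
  classical
  exact ∑ v, lif (x v) + dbl (∑ v, ∑ w, if v < w ∧ H.Adj v w then x v * x w else 0)

/-- the bilinear form of the graph with loops -/
noncomputable def b4 (H : SimpleGraph (Fin n)) (x y : Fin n → ZMod 2) : ZMod 2 :=
  ∑ v, x v * y v + BG H x y

theorem q4_add (H : SimpleGraph (Fin n)) (x y : Fin n → ZMod 2) :
    q4 H (x + y) = q4 H x + q4 H y + dbl (b4 H x y) := by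
  classical
  have h1 := QG_add H x y
  unfold QG at h1
  have h2 : ∑ v, (x + y) v = ∑ v, x v + ∑ v, y v := by
    simp only [Pi.add_apply, Finset.sum_add_distrib]
  rw [h2] at h1
  have h3 : (∑ v, ∑ w, if v < w ∧ H.Adj v w then (x + y) v * (x + y) w else 0) =
      (∑ v, ∑ w, if v < w ∧ H.Adj v w then x v * x w else 0) +
        (∑ v, ∑ w, if v < w ∧ H.Adj v w then y v * y w else 0) + BG H x y := by
    linear_combination h1
  unfold q4 b4
  rw [h3, dbl_add, dbl_add, dbl_add]
  simp only [Pi.add_apply, lif_add, Finset.sum_add_distrib]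
  rw [← dbl_sum Finset.univ (fun v => x v * y v)]
  ring

theorem q4_zero (H : SimpleGraph (Fin n)) : q4 H 0 = 0 := by
  simp [q4, lif_zero, dbl_zero]

theorem q4_single (H : SimpleGraph (Fin n)) (a : Fin n) : q4 H (sg a) = 1 := by
  classical
  rw [q4]
  have h1 : ∑ v, ∑ w, (if v < w ∧ H.Adj v w then sg a v * sg a w else 0) = 0 := by
    refine Finset.sum_eq_zero fun v _ => Finset.sum_eq_zero fun w _ => ?_
    by_cases h2 : v < w ∧ H.Adj v w
    · rw [if_pos h2]
      by_cases h3 : v = a
      · have h4 : w ≠ a := fun h5 => h2.1.ne (h3.trans h5.symm)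
        rw [sg_ne h4, mul_zero]
      · rw [sg_ne h3, zero_mul]
    · rw [if_neg h2]
  rw [h1, dbl_zero, add_zero, Finset.sum_eq_single_of_mem a (Finset.mem_univ _)]
  · rw [sg_self]
    decide
  · intro v _ hv
    rw [sg_ne hv, lif_zero]

theorem b4_symm {H : SimpleGraph (Fin n)} (x y : Fin n → ZMod 2) : b4 H x y = b4 H y x := by
  rw [b4, b4, BG_symm]
  congr 1
  exact Finset.sum_congr rfl fun v _ => mul_comm _ _

theorem b4_add_left {H : SimpleGraph (Fin n)} (x x' y : Fin n → ZMod 2) :
    b4 H (x + x') y = b4 H x y + b4 H x' y := by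
  rw [b4, b4, b4, BG_add_left]
  simp only [Pi.add_apply, add_mul, Finset.sum_add_distrib]
  ring

theorem b4_smul_left {H : SimpleGraph (Fin n)} (c : ZMod 2) (x y : Fin n → ZMod 2) :
    b4 H (c • x) y = c * b4 H x y := by
  rw [b4, b4, BG_smul_left, mul_add, Finset.mul_sum]
  congr 1
  exact Finset.sum_congr rfl fun v _ => by rw [Pi.smul_apply, smul_eq_mul, mul_assoc]

/-- the product with a point -/
theorem b4_single {H : SimpleGraph (Fin n)} [DecidableRel H.Adj] (x : Fin n → ZMod 2)
    (w : Fin n) : b4 H x (sg w) = ∑ v, if v = w ∨ H.Adj v w then x v else 0 := by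
  rw [b4, BG_single, ← Finset.sum_add_distrib]
  refine Finset.sum_congr rfl fun v _ => ?_
  by_cases h1 : v = w
  · subst h1
    rw [sg_self, mul_one, if_neg (H.loopless.irrefl v), if_pos (Or.inl rfl), add_zero]
  · rw [sg_ne h1, mul_zero, zero_add]
    by_cases h2 : H.Adj v w
    · rw [if_pos h2, if_pos (Or.inr h2)]
    · rw [if_neg h2, if_neg (not_or.mpr ⟨h1, h2⟩)]

theorem b4_right {H : SimpleGraph (Fin n)} (x y : Fin n → ZMod 2) :
    b4 H x y = ∑ w, y w * b4 H x (sg w) := by
  have h1 : ∀ w, b4 H x (sg w) = x w + BG H x (sg w) := by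
    intro w
    rw [b4, Finset.sum_eq_single_of_mem w (Finset.mem_univ _), sg_self, mul_one]
    intro v _ hv
    rw [sg_ne hv, mul_zero]
  rw [b4, BG_right, ← Finset.sum_add_distrib]
  refine Finset.sum_congr rfl fun w _ => ?_
  rw [h1]
  ring

/-- the form at the indicator function of a set -/
theorem q4_ind (H : SimpleGraph (Fin n)) (S : Finset (Fin n)) [DecidablePred fun v => v ∈ S] :
    q4 H (fun v => if v ∈ S then 1 else 0) = ((S.card + 2 * ed H S : ℕ) : ZMod 4) := by
  classical
  have h0 : QA H (fun v => if v ∈ S then 1 else 0) = ((S.card + ed H S : ℕ) : ZMod 2) :=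
    QA_ind H S
  rw [QA] at h0
  have h1 : ∑ v : Fin n, (if v ∈ S then (1 : ZMod 2) else 0) = ((S.card : ℕ) : ZMod 2) := by
    simp
  rw [h1] at h0
  have h2 : (∑ v, ∑ w, if v < w ∧ H.Adj v w then (if v ∈ S then (1 : ZMod 2) else 0) *
      (if w ∈ S then 1 else 0) else 0) = ((ed H S : ℕ) : ZMod 2) := by
    push_cast at h0
    linear_combination h0
  rw [q4, h2]
  have h3 : ∑ v : Fin n, lif (if v ∈ S then (1 : ZMod 2) else 0) = ((S.card : ℕ) : ZMod 4) := by
    have h4 : ∀ v : Fin n, lif (if v ∈ S then (1 : ZMod 2) else 0) =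
        if v ∈ S then 1 else 0 := by
      intro v
      by_cases h5 : v ∈ S
      · rw [if_pos h5, if_pos h5]
        decide
      · rw [if_neg h5, if_neg h5]
        decide
    rw [Finset.sum_congr rfl fun v _ => h4 v]
    simp
  have h4 : ∀ k : ℕ, dbl ((k : ℕ) : ZMod 2) = ((2 * k : ℕ) : ZMod 4) := by
    intro k
    induction k with
    | zero => decide
    | succ k ih =>
      rw [Nat.cast_succ, dbl_add, ih]
      push_cast
      rw [show dbl 1 = 2 by decide]
      ring
  rw [h3, h4]
  push_cast
  ring

end forms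

section space

/-- the space -/
abbrev ZV (n : ℕ) : Type := (Fin n → ZMod 2) × (ZMod 2 × ZMod 2)

/-- the form of the plane -/
def qW (α : ZMod 4) (u : ZMod 2 × ZMod 2) : ZMod 4 := α * (lif u.1 + lif u.2)

variable {n : ℕ} (H : SimpleGraph (Fin n)) (α : ZMod 4)

/-- the form -/
noncomputable def zq (v : ZV n) : ZMod 4 := q4 H v.1 + qW α v.2

/-- the bilinear form -/
noncomputable def zb : ZV n →ₗ[ZMod 2] ZV n →ₗ[ZMod 2] ZMod 2 :=
  LinearMap.mk₂ (ZMod 2) (fun u v => b4 H u.1 v.1 + (u.2.1 * v.2.1 + u.2.2 * v.2.2))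
    (fun x x' y => by
      simp only [Prod.fst_add, Prod.snd_add, b4_add_left]
      ring)
    (fun c x y => by
      simp only [Prod.smul_fst, Prod.smul_snd, smul_eq_mul, b4_smul_left]
      ring)
    (fun x y y' => by
      simp only [Prod.fst_add, Prod.snd_add]
      rw [b4_symm, b4_add_left, b4_symm y.1, b4_symm y'.1]
      ring)
    (fun c x y => by
      simp only [Prod.smul_fst, Prod.smul_snd, smul_eq_mul]
      rw [b4_symm, b4_smul_left, b4_symm y.1]
      ring)

variable {H α}

theorem zb_apply (u v : ZV n) :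
    zb H u v = b4 H u.1 v.1 + (u.2.1 * v.2.1 + u.2.2 * v.2.2) := rfl

theorem zq_add (hα : α = 1 ∨ α = 3) (u v : ZV n) :
    zq H α (u + v) = zq H α u + zq H α v + dbl (zb H u v) := by
  have h1 : ∀ a b : ZMod 2 × ZMod 2, qW α (a + b) = qW α a + qW α b +
      dbl (a.1 * b.1 + a.2 * b.2) := by
    rcases hα with rfl | rfl <;> decide
  rw [zb_apply, zq, zq, zq, Prod.fst_add, Prod.snd_add, q4_add, h1, dbl_add (b4 H u.1 v.1)]
  ring

theorem zb_inj (D : Fin n → Fin n → ZMod 2)
    (hD : ∀ w w', b4 H (D w) (sg w') = if w' = w then 1 else 0) :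
    Function.Injective (zb H) := by
  classical
  rw [injective_iff_map_eq_zero]
  rintro ⟨x, p, q⟩ hx
  have h1 : ∀ v, zb H (x, p, q) v = 0 := fun v => by rw [hx]; rfl
  have hB0 : ∀ y : Fin n → ZMod 2, b4 H y 0 = 0 := by
    intro y
    rw [b4_right]
    simp
  have hp : p = 0 := by
    have h2 := h1 (0, 1, 0)
    rw [zb_apply] at h2
    simpa [hB0] using h2
  have hq : q = 0 := by
    have h2 := h1 (0, 0, 1)
    rw [zb_apply] at h2
    simpa [hB0] using h2
  have h3 : ∀ y, b4 H x y = 0 := by
    intro y
    have h2 := h1 (y, 0, 0)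
    rw [zb_apply] at h2
    simpa using h2
  have hx0 : x = 0 := by
    funext v
    have h4 := h3 (D v)
    rw [b4_symm, b4_right, Finset.sum_congr rfl fun w _ => by rw [hD v w]] at h4
    simpa using h4
  rw [hx0, hp, hq]
  rfl

/-- the values on the span of a copy -/
theorem q_comb {V : Type} [AddCommGroup V] [Module (ZMod 2) V]
    {B : V →ₗ[ZMod 2] V →ₗ[ZMod 2] ZMod 2} {q : V → ZMod 4} {h : Fin n → V}
    (hq : ∀ u v, q (u + v) = q u + q v + dbl (B u v)) (h1 : ∀ w, q (h w) = 1)
    (hg : ∀ w w', B (h w) (h w') = b4 H (sg w) (sg w')) (x : Fin n → ZMod 2) :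
    q (combG h x) = q4 H x := by
  classical
  have hB : ∀ x y : Fin n → ZMod 2, B (combG h x) (combG h y) = b4 H x y := by
    intro x y
    rw [b4_symm x y, b4_right y x, B_combG]
    refine Finset.sum_congr rfl fun v _ => ?_
    rw [q_symm hq, B_combG, b4_symm y, b4_right (sg v) y]
    congr 1
    refine Finset.sum_congr rfl fun w _ => ?_
    rw [hg, b4_symm]
  have key : ∀ S : Finset (Fin n), q (combG h (∑ v ∈ S, sg v)) = q4 H (∑ v ∈ S, sg v) := by
    intro S
    induction S using Finset.induction_on with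
    | empty => rw [Finset.sum_empty, combG_zero, q_zero hq, q4_zero]
    | insert a S ha ih =>
      rw [Finset.sum_insert ha, q4_add, combG_add, hq, ih, hB, combG_single, h1, q4_single]
  have h2 : x = ∑ v ∈ Finset.univ.filter (fun v => x v = 1), sg v := by
    funext v
    rw [Finset.sum_apply]
    have h3 : ∀ w, sg w v = if v = w then 1 else 0 := by
      intro w
      by_cases h4 : v = w
      · rw [h4, sg_self, if_pos rfl]
      · rw [sg_ne h4, if_neg h4]
    rw [Finset.sum_congr rfl fun w _ => h3 w, Finset.sum_ite_eq]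
    rcases zmod2_cases (x v) with h4 | h4
    · rw [if_neg]
      · exact h4
      · intro h5
        rw [(Finset.mem_filter.mp h5).2] at h4
        exact absurd h4 (by decide)
    · have h5 : v ∈ Finset.univ.filter (fun v => x v = 1) := by
        rw [Finset.mem_filter]
        exact ⟨Finset.mem_univ v, h4⟩
      exact h4.trans (if_pos h5).symm
  rw [h2]
  exact key _

end space

end Pool.Agent.H17.Inh
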