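import Pool.Agent.H17.Inh.Z4

/-!
# The criterion from forms with values modulo four
-/

namespace Pool.Agent.H17.Inh

open SimpleGraph Finset

theorem exists_dualSetC {n : ℕ} (H : SimpleGraph (Fin n)) (s : Fin n)
    (hs : ∀ K : Finset (Fin n), (∀ w, Even (nbc H K w)) → s ∉ K) :
    ∃ S : Finset (Fin n), ∀ w, Odd (nbc H S w) ↔ w = s := by
  classical
  obtain ⟨u, hu⟩ := exists_dual (dotB (Fin n)) dotB_inj
    (h := fun w v => if v = w ∨ H.Adj v w then (1 : ZMod 2) else 0) (t := s) (by
      intro K hsK hsum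
      refine hs K (fun w => ?_) hsK
      rw [← even_iff_cast, nbc_eq]
      have h1 := congrFun hsum w
      rw [Finset.sum_apply] at h1
      refine Eq.trans (Finset.sum_congr rfl fun v _ => ?_) h1
      by_cases h2 : v = w ∨ H.Adj v w
      · rw [if_pos h2, if_pos (h2.imp Eq.symm SimpleGraph.Adj.symm)]
      · rw [if_neg h2, if_neg fun h3 => h2 (h3.imp Eq.symm SimpleGraph.Adj.symm)])
  refine ⟨Finset.univ.filter fun v => u v = 1, fun w => ?_⟩
  have h1 : ((nbc H (Finset.univ.filter fun v => u v = 1) w : ℕ) : ZMod 2) =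
      if w = s then 1 else 0 := by
    rw [← hu w, nbc_eq, Finset.sum_filter, dotB_apply]
    refine Finset.sum_congr rfl fun v _ => ?_
    rcases zmod2_cases (u v) with h2 | h2
    · rw [h2, if_neg (by decide), zero_mul]
    · rw [h2, if_pos rfl, one_mul]
  rw [← odd_iff_cast, h1]
  by_cases h2 : w = s
  · rw [if_pos h2]
    exact ⟨fun _ => h2, fun _ => rfl⟩
  · rw [if_neg h2]
    exact ⟨fun h3 => absurd h3 (by decide), fun h3 => absurd h3 h2⟩

theorem psi_re_im (x : ZMod 4) : psi x =
    ⟨(if x = 0 then 1 else 0) - (if x = 2 then 1 else 0),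
      (if x = 1 then 1 else 0) - (if x = 3 then 1 else 0)⟩ := by
  revert x
  decide

theorem re_sum {κ : Type} (s : Finset κ) (f : κ → GaussianInt) :
    (∑ i ∈ s, f i).re = ∑ i ∈ s, (f i).re := by
  classical
  induction s using Finset.induction_on with
  | empty => simp
  | insert a s ha ih => rw [Finset.sum_insert ha, Finset.sum_insert ha, Zsqrtd.re_add, ih]

theorem im_sum {κ : Type} (s : Finset κ) (f : κ → GaussianInt) :
    (∑ i ∈ s, f i).im = ∑ i ∈ s, (f i).im := by
  classical
  induction s using Finset.induction_on with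
  | empty => simp
  | insert a s ha ih => rw [Finset.sum_insert ha, Finset.sum_insert ha, Zsqrtd.im_add, ih]

/-- the numbers of the values of a function on four points with given Gauss sum -/
theorem count4 {κ : Type} [Fintype κ] [DecidableEq κ] (f : κ → ZMod 4) (α : ZMod 4)
    (hα : α = 1 ∨ α = 3)
    (hcard : Fintype.card κ = 4)
    (hsum : ∑ u, psi (f u) = ∑ u : ZMod 2 × ZMod 2, psi (qW α u)) (o : κ) (ho : f o = 0) :
    (Finset.univ.filter fun u => f u = α).card = 2 ∧
      (Finset.univ.filter fun u => f u = -α).card = 0 ∧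
      (Finset.univ.filter fun u => f u = 0).card = 1 := by
  have h0 : 0 < (Finset.univ.filter fun u => f u = 0).card :=
    Finset.card_pos.mpr ⟨o, Finset.mem_filter.mpr ⟨Finset.mem_univ _, ho⟩⟩
  have hre := congrArg Zsqrtd.re hsum
  have him := congrArg Zsqrtd.im hsum
  rw [re_sum] at hre
  rw [im_sum] at him
  have h1 : ∀ u, (psi (f u)).re = (if f u = 0 then 1 else 0) - (if f u = 2 then 1 else 0) :=
    fun u => by rw [psi_re_im]
  have h2 : ∀ u, (psi (f u)).im = (if f u = 1 then 1 else 0) - (if f u = 3 then 1 else 0) :=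
    fun u => by rw [psi_re_im]
  rw [Finset.sum_congr rfl fun u _ => h1 u, Finset.sum_sub_distrib, Finset.sum_boole,
    Finset.sum_boole] at hre
  rw [Finset.sum_congr rfl fun u _ => h2 u, Finset.sum_sub_distrib, Finset.sum_boole,
    Finset.sum_boole] at him
  have h3 : ∑ u, ((if f u = 0 then 1 else 0) + (if f u = 1 then 1 else 0) +
      (if f u = 2 then 1 else 0) + (if f u = 3 then 1 else 0)) = Fintype.card κ := by
    have h4 : ∀ u, ((if f u = 0 then 1 else 0) + (if f u = 1 then 1 else 0) +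
      (if f u = 2 then 1 else 0) + (if f u = 3 then 1 else 0)) = 1 := by
      intro u
      generalize f u = x
      revert x
      decide
    rw [Finset.sum_congr rfl fun u _ => h4 u]
    simp
  rw [Finset.sum_add_distrib, Finset.sum_add_distrib, Finset.sum_add_distrib, hcard,
    ← Finset.card_filter, ← Finset.card_filter, ← Finset.card_filter, ← Finset.card_filter] at h3
  rcases hα with rfl | rfl
  · have h5 : (∑ u : ZMod 2 × ZMod 2, psi (qW 1 u)).re = 0 := by decide
    have h6 : (∑ u : ZMod 2 × ZMod 2, psi (qW 1 u)).im = 2 := by decide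
    rw [h5] at hre
    rw [h6] at him
    have h7 : (-1 : ZMod 4) = 3 := by decide
    rw [h7]
    omega
  · have h5 : (∑ u : ZMod 2 × ZMod 2, psi (qW 3 u)).re = 0 := by decide
    have h6 : (∑ u : ZMod 2 × ZMod 2, psi (qW 3 u)).im = -2 := by decide
    rw [h5] at hre
    rw [h6] at him
    have h7 : (-3 : ZMod 4) = 1 := by decide
    rw [h7]
    omega

theorem z4_criterion {n : ℕ} (H : SimpleGraph (Fin n)) (s t : Fin n) (S T : Finset (Fin n))
    (hns : ∀ K : Finset (Fin n), (∀ w, Even (nbc H K w)) → K = ∅)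
    (hS : ∀ w, Odd (nbc H S w) ↔ w = s) (hT : ∀ w, Odd (nbc H T w) ↔ w = t)
    (hsS : s ∉ S) (htS : t ∉ S)
    (hST : (S.card + 2 * ed H S) % 4 = (T.card + 2 * ed H T) % 4) : ¬ Inherent H s t := by
  classical
  have hex : ∀ v, ∃ D : Finset (Fin n), ∀ w, Odd (nbc H D w) ↔ w = v := fun v =>
    exists_dualSetC H v fun K hK hv => by
      rw [hns K hK] at hv
      exact absurd hv (Finset.notMem_empty v)
  choose D hD using hex
  have hnbc : ∀ (A : Finset (Fin n)) (w : Fin n),
      b4 H (fun v => if v ∈ A then 1 else 0) (sg w) = ((nbc H A w : ℕ) : ZMod 2) := by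
    intro A w
    rw [b4_single, nbc_eq]
    have h1 : ∀ v, (if v = w ∨ H.Adj v w then (if v ∈ A then (1 : ZMod 2) else 0) else 0) =
        if v ∈ A then (if v = w ∨ H.Adj v w then 1 else 0) else 0 := by
      intro v
      by_cases h2 : v ∈ A
      · rw [if_pos h2, if_pos h2]
      · rw [if_neg h2, if_neg h2, ite_self]
    rw [Finset.sum_congr rfl fun v _ => h1 v, ← Finset.sum_filter]
    refine Finset.sum_congr ?_ fun _ _ => rfl
    ext v
    simp
  have hDG : ∀ w w', b4 H (fun v => if v ∈ D w then 1 else 0) (sg w') =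
      if w' = w then 1 else 0 := by
    intro w w'
    rw [hnbc]
    by_cases h2 : w' = w
    · rw [if_pos h2, odd_iff_cast, hD]
      exact h2
    · rw [if_neg h2]
      exact zmod2_ne_one fun h3 => h2 ((hD w w').mp ((odd_iff_cast _).mp h3))
  -- the value of the form on the new vertex
  set qa : ZMod 4 := ((S.card + 2 * ed H S : ℕ) : ZMod 4) with hqa
  have hqb : ((T.card + 2 * ed H T : ℕ) : ZMod 4) = qa :=
    ((ZMod.natCast_eq_natCast_iff' _ _ 4).mpr hST).symm
  have hqS : q4 H (fun v => if v ∈ S then 1 else 0) = qa := q4_ind H S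
  have hqT : q4 H (fun v => if v ∈ T then 1 else 0) = qa := (q4_ind H T).trans hqb
  have hSS : b4 H (fun v => if v ∈ S then 1 else 0) (fun v => if v ∈ S then 1 else 0) = 0 := by
    rw [b4_right]
    refine Finset.sum_eq_zero fun w _ => ?_
    rw [hnbc]
    by_cases h1 : w ∈ S
    · rw [zmod2_ne_one (fun h2 => hsS ((hS w).mp ((odd_iff_cast _).mp h2) ▸ h1)), mul_zero]
    · rw [if_neg h1, zero_mul]
  have hqa2 : qa = 0 ∨ qa = 2 := by
    have h1 := q4_add H (fun v => if v ∈ S then 1 else 0) (fun v => if v ∈ S then 1 else 0)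
    rw [two_zero, q4_zero, hSS, dbl_zero, add_zero, hqS] at h1
    have hgen : ∀ x : ZMod 4, 0 = x + x → x = 0 ∨ x = 2 := by decide
    exact hgen qa h1
  set α : ZMod 4 := 1 - qa with hα
  have hα2 : α = 1 ∨ α = 3 := by
    rcases hqa2 with h1 | h1
    · left
      rw [hα, h1]
      decide
    · right
      rw [hα, h1]
      decide
  have hq := zq_add (H := H) hα2
  have hnd := zb_inj (H := H) (fun w v => if v ∈ D w then 1 else 0) hDG
  have hb0 : ∀ y : Fin n → ZMod 2, b4 H y 0 = 0 := by
    intro y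
    rw [b4_right]
    simp
  have hgs : ∀ w w', b4 H (sg w) (sg w') = if w = w' ∨ H.Adj w w' then 1 else 0 := by
    intro w w'
    rw [b4_single, Finset.sum_eq_single_of_mem w (Finset.mem_univ _), sg_self]
    intro v _ hv
    rw [sg_ne hv, ite_self]
  refine geo_criterion H s t (V := ZV n) (fun x y => zb H x y) (q_symm hq)
    {v | zq H α v = 1} (fun w => (sg w, 0)) (fun w => ?_) (fun w w' hne => ?_) ?_
  · show zq H α (sg w, 0) = 1
    rw [zq, q4_single, qW]
    simp [lif_zero]
  · rw [zb_apply]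
    simp only [Prod.fst_zero, Prod.snd_zero, mul_zero, add_zero]
    rw [hgs]
    by_cases h1 : H.Adj w w'
    · rw [if_pos (Or.inr h1)]
      exact ⟨fun _ => h1, fun _ => rfl⟩
    · rw [if_neg (not_or.mpr ⟨hne, h1⟩)]
      exact ⟨fun h2 => absurd h2 (by decide), fun h2 => absurd h2 h1⟩
  intro h hX hh
  have hX' : ∀ w, zq H α (h w) = 1 := hX
  have hg : ∀ w w', zb H (h w) (h w') = b4 H (sg w) (sg w') := by
    intro w w'
    rw [hgs]
    by_cases h1 : w = w'
    · subst h1
      rw [q_self hq, hX', if_pos (Or.inl rfl)]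
      decide
    · by_cases h2 : H.Adj w w'
      · rw [if_pos (Or.inr h2)]
        exact (hh w w' h1).mpr h2
      · rw [if_neg (not_or.mpr ⟨h1, h2⟩)]
        exact zmod2_ne_one fun h3 => h2 ((hh w w' h1).mp h3)
  have hsumS : ∀ A : Finset (Fin n), combG h (fun v => if v ∈ A then 1 else 0) = ∑ v ∈ A, h v := by
    intro A
    rw [combG]
    simp only [ite_smul, one_smul, zero_smul]
    rw [← Finset.sum_filter]
    refine Finset.sum_congr ?_ fun _ _ => rfl
    ext v
    simp
  have hgram : ∀ (A : Finset (Fin n)) (w : Fin n),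
      zb H (∑ v ∈ A, h v) (h w) = ((nbc H A w : ℕ) : ZMod 2) := by
    intro A w
    rw [map_sum, LinearMap.sum_apply, nbc_eq]
    refine Finset.sum_congr rfl fun v _ => ?_
    rw [hg, hgs]
  have hDv : ∀ w w', ∑ v, (if v ∈ D w then (1 : ZMod 2) else 0) * zb H (h v) (h w') =
      if w' = w then 1 else 0 := by
    intro w w'
    have h1 : ∑ v, (if v ∈ D w then (1 : ZMod 2) else 0) * zb H (h v) (h w') =
        zb H (∑ v ∈ D w, h v) (h w') := by
      rw [← hsumS, B_combG]
    rw [h1, hgram]
    by_cases h2 : w' = w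
    · rw [if_pos h2, odd_iff_cast, hD]
      exact h2
    · rw [if_neg h2]
      exact zmod2_ne_one fun h3 => h2 ((hD w w').mp ((odd_iff_cast _).mp h3))
  let e : (Fin n → ZMod 2) × PerpG (zb H) h ≃ ZV n :=
    decompG (q_symm hq) (fun w v => if v ∈ D w then 1 else 0) hDv
  have he : ∀ p, e p = combG h p.1 + p.2.1 := fun _ => rfl
  have hBc : ∀ (x : Fin n → ZMod 2) (u : PerpG (zb H) h), zb H (combG h x) u.1 = 0 := by
    intro x u
    rw [B_combG]
    exact Finset.sum_eq_zero fun w _ => by rw [q_symm hq, u.2 w, mul_zero]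
  have hcard : Fintype.card (PerpG (zb H) h) = 4 := by
    have h1 := Fintype.card_congr e
    rw [Fintype.card_prod, Fintype.card_prod, Fintype.card_prod] at h1
    have h2 : 0 < Fintype.card (Fin n → ZMod 2) := Fintype.card_pos
    have h3 := Nat.eq_of_mul_eq_mul_left h2 h1
    rw [h3, ZMod.card]
  have hsum : ∑ u : PerpG (zb H) h, psi (zq H α u.1) = ∑ u : ZMod 2 × ZMod 2, psi (qW α u) := by
    have h1 : ∑ v, psi (zq H α v) =
        (∑ x : Fin n → ZMod 2, psi (q4 H x)) * ∑ u : PerpG (zb H) h, psi (zq H α u.1) := by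
      rw [← Equiv.sum_comp e, Fintype.sum_prod_type, Finset.sum_mul_sum]
      refine Finset.sum_congr rfl fun x _ => Finset.sum_congr rfl fun u _ => ?_
      rw [he, hq, hBc, dbl_zero, add_zero, q_comb hq hX' hg, psi_add]
    have h2 : ∑ v, psi (zq H α v) =
        (∑ x : Fin n → ZMod 2, psi (q4 H x)) * ∑ u : ZMod 2 × ZMod 2, psi (qW α u) := by
      rw [Fintype.sum_prod_type, Finset.sum_mul_sum]
      refine Finset.sum_congr rfl fun x _ => Finset.sum_congr rfl fun u _ => ?_
      rw [zq, psi_add]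
    have h3 := gauss4_ne_zero hnd hq
    rw [h2] at h3
    rw [h1] at h2
    exact mul_left_cancel₀ (fun h5 => h3 (by rw [h5, zero_mul])) h2
  let o : PerpG (zb H) h := ⟨0, fun w => by rw [map_zero, LinearMap.zero_apply]⟩
  have ho1 : o.1 = 0 := rfl
  have ho : zq H α o.1 = 0 := q_zero hq
  obtain ⟨hN, hN', hN0⟩ := count4 (fun u : PerpG (zb H) h => zq H α u.1) α hα2 hcard hsum o ho
  obtain ⟨e1, e2, he12, hset⟩ := Finset.card_eq_two.mp hN
  have hmem : ∀ u : PerpG (zb H) h, zq H α u.1 = α ↔ u = e1 ∨ u = e2 := by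
    intro u
    have h1 : u ∈ (Finset.univ.filter fun u : PerpG (zb H) h => zq H α u.1 = α) ↔
        u ∈ ({e1, e2} : Finset (PerpG (zb H) h)) := by rw [hset]
    rw [Finset.mem_filter, Finset.mem_insert, Finset.mem_singleton] at h1
    exact ⟨fun h2 => h1.mp ⟨Finset.mem_univ _, h2⟩, fun h2 => (h1.mpr h2).2⟩
  have hq1 : zq H α e1.1 = α := (hmem e1).mpr (Or.inl rfl)
  have hq2 : zq H α e2.1 = α := (hmem e2).mpr (Or.inr rfl)
  have hno : ∀ u : PerpG (zb H) h, zq H α u.1 ≠ -α := by
    intro u hu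
    have h1 : u ∈ (Finset.univ.filter fun u : PerpG (zb H) h => zq H α u.1 = -α) :=
      Finset.mem_filter.mpr ⟨Finset.mem_univ _, hu⟩
    rw [Finset.card_eq_zero.mp hN'] at h1
    exact Finset.notMem_empty _ h1
  have hB12 : zb H e1.1 e2.1 = 0 := by
    refine zmod2_ne_one fun h1 => ?_
    have h2 : zq H α (e1.1 + e2.1) = 0 := by
      rw [hq, hq1, hq2, h1]
      rcases hα2 with h3 | h3 <;> rw [h3] <;> decide
    let u : PerpG (zb H) h := ⟨e1.1 + e2.1, fun w => by
      rw [map_add, LinearMap.add_apply, e1.2 w, e2.2 w, add_zero]⟩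
    have h3 : u ≠ o := by
      intro h4
      have h5 : e1.1 + e2.1 = 0 := congrArg Subtype.val h4
      have h6 : e1.1 = e2.1 := by
        have h7 := congrArg (· + e2.1) h5
        simp only [zero_add] at h7
        rw [add_assoc, two_zero, add_zero] at h7
        exact h7
      exact he12 (Subtype.ext h6)
    have h4 : ({u, o} : Finset (PerpG (zb H) h)) ⊆
        Finset.univ.filter fun u : PerpG (zb H) h => zq H α u.1 = 0 := by
      intro v hv
      rw [Finset.mem_insert, Finset.mem_singleton] at hv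
      rw [Finset.mem_filter]
      refine ⟨Finset.mem_univ _, ?_⟩
      rcases hv with rfl | rfl
      · exact h2
      · exact ho
    have h5 := Finset.card_le_card h4
    rw [Finset.card_pair h3, hN0] at h5
    omega
  have hperpS : ∀ (A : Finset (Fin n)) (u : PerpG (zb H) h), zb H (∑ v ∈ A, h v) u.1 = 0 := by
    intro A u
    rw [← hsumS, hBc]
  have hqs : zq H α (∑ v ∈ S, h v) = qa := by
    rw [← hsumS, q_comb hq hX' hg, hqS]
  have hqt : zq H α (∑ v ∈ T, h v) = qa := by
    rw [← hsumS, q_comb hq hX' hg, hqT]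
  have hab : zb H (∑ v ∈ S, h v) (∑ v ∈ T, h v) = 0 := by
    rw [q_symm hq, map_sum]
    refine Finset.sum_eq_zero fun w hw => ?_
    rw [hgram]
    refine zmod2_ne_one fun h1 => htS ?_
    rw [← (hT w).mp ((odd_iff_cast _).mp h1)]
    exact hw
  have hfar : ∀ z, zq H α z = 1 → (∀ w, zb H z (h w) = 0) → zb H e1.1 z = 1 → z = e1.1 := by
    intro z hz hzh h1
    rcases hα2 with h2 | h2
    · rw [h2] at hz hmem
      rcases (hmem ⟨z, hzh⟩).mp hz with h3 | h3
      · exact congrArg Subtype.val h3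
      · have h4 : z = e2.1 := congrArg Subtype.val h3
        rw [h4, hB12] at h1
        exact absurd h1 (by decide)
    · refine absurd ?_ (hno ⟨z, hzh⟩)
      show zq H α z = -α
      rw [hz, h2]
      decide
  refine ⟨(∑ v ∈ S, h v) + e1.1, ?_, (∑ v ∈ T, h v) + e2.1, ?_, fun w => ?_, fun w => ?_, ?_,
    {e1.1}, ?_, ?_, ?_⟩
  · show zq H α _ = 1
    rw [hq, hqs, hq1, hperpS, dbl_zero, add_zero, hα]
    ring
  · show zq H α _ = 1
    rw [hq, hqt, hq2, hperpS, dbl_zero, add_zero, hα]
    ring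
  · rw [map_add, LinearMap.add_apply, e1.2 w, add_zero, hgram, odd_iff_cast]
    exact hS w
  · rw [map_add, LinearMap.add_apply, e2.2 w, add_zero, hgram, odd_iff_cast]
    exact hT w
  · have hexp : ∀ a b c d : ZV n, zb H (a + b) (c + d) =
        zb H a c + zb H a d + (zb H b c + zb H b d) := by
      intro a b c d
      simp only [map_add, LinearMap.add_apply]
      ring
    rw [hexp, hab, hperpS, hB12, q_symm hq e1.1, hperpS]
    decide
  · intro z hz hzh hz1
    have h1 : ∀ w, zb H z (h w) = 0 := fun w => zmod2_ne_one (hzh w)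
    rw [map_add, LinearMap.add_apply] at hz1
    have h2 := hperpS S ⟨z, h1⟩
    change zb H (∑ v ∈ S, h v) z = 0 at h2
    rw [h2, zero_add] at hz1
    exact hfar z hz h1 hz1
  · intro z hz z' hz' hzh hz1
    rw [Set.mem_singleton_iff] at hz
    rw [hz] at hz1
    exact hfar z' hz' (fun w => zmod2_ne_one (hzh w)) hz1
  · intro z hz
    rw [Set.mem_singleton_iff] at hz
    rw [hz, map_add, LinearMap.add_apply, hperpS, q_symm hq, hB12]
    decide

end Pool.Agent.H17.Inh
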